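import Pool.Agent.helper11.VD.SpecR
import Pool.Agent.helper96.VN.TLN

/-! Row TLD of project VD (MP_07c750_an), second version: tails of the random series (adaptation of the files of helper85 and helper96). -/

set_option autoImplicit false

open scoped ContDiff Topology InnerProductSpace ENNReal
open MeasureTheory Filter Set

namespace Pool.Agent.VD

open Pool.Agent.RPQ (PN PJ UN upd)
open Pool.Agent.VQ (rk)
open Pool.Agent.VN (aN TLN_pow)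

theorem TLE_exp (a θ : ℝ) (ha : 0 < a) (hθ : 0 < θ) : ∃ M : ℝ, 0 ≤ M ∧ ∀ k : ℕ, Real.exp (a * (Real.log k) ^ 2) ≤ M * (2 : ℝ) ^ (θ * k) := by
  have hl2 : 0 < Real.log 2 := Real.log_pos (by norm_num)
  have h1 : (fun x : ℝ => Real.log x ^ 2) =o[atTop] (id : ℝ → ℝ) := Real.isLittleO_pow_log_id_atTop
  have h2 := h1.def (show 0 < θ * Real.log 2 / a by positivity)
  obtain ⟨k1, hk1⟩ : ∃ k1 : ℕ, ∀ k : ℕ, k1 ≤ k → ‖Real.log (k : ℝ) ^ 2‖ ≤ θ * Real.log 2 / a * ‖(k : ℝ)‖ :=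
    eventually_atTop.1 (tendsto_natCast_atTop_atTop.eventually h2)
  refine ⟨1 + ∑ k ∈ Finset.range k1, Real.exp (a * (Real.log (k : ℝ)) ^ 2), by positivity, fun k => ?_⟩
  have hs0 : 0 ≤ ∑ k ∈ Finset.range k1, Real.exp (a * (Real.log (k : ℝ)) ^ 2) :=
    Finset.sum_nonneg fun i _ => (Real.exp_pos _).le
  have h0 : (0 : ℝ) ≤ (2 : ℝ) ^ (θ * k) := Real.rpow_nonneg (by norm_num) _
  rcases lt_or_ge k k1 with h | h
  · have h3 : Real.exp (a * (Real.log (k : ℝ)) ^ 2) ≤ ∑ k ∈ Finset.range k1, Real.exp (a * (Real.log (k : ℝ)) ^ 2) :=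
      Finset.single_le_sum (f := fun k : ℕ => Real.exp (a * (Real.log (k : ℝ)) ^ 2)) (fun i _ => (Real.exp_pos _).le)
        (Finset.mem_range.2 h)
    have h4 : (1 : ℝ) ≤ (2 : ℝ) ^ (θ * k) := Real.one_le_rpow (by norm_num) (by positivity)
    calc Real.exp (a * (Real.log (k : ℝ)) ^ 2) ≤ (1 + ∑ k ∈ Finset.range k1, Real.exp (a * (Real.log (k : ℝ)) ^ 2)) * 1 := by
          linarith
      _ ≤ _ := mul_le_mul_of_nonneg_left h4 (by linarith)
  · have h3 := hk1 k h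
    rw [Real.norm_of_nonneg (sq_nonneg _), Real.norm_of_nonneg (Nat.cast_nonneg _)] at h3
    have h4 : (2 : ℝ) ^ (θ * k) = Real.exp (Real.log 2 * (θ * k)) := Real.rpow_def_of_pos (by norm_num) _
    have h5 : Real.exp (a * (Real.log (k : ℝ)) ^ 2) ≤ (2 : ℝ) ^ (θ * k) := by
      rw [h4]
      refine Real.exp_le_exp.2 ?_
      calc a * (Real.log (k : ℝ)) ^ 2 ≤ a * (θ * Real.log 2 / a * k) := mul_le_mul_of_nonneg_left h3 ha.le
        _ = Real.log 2 * (θ * k) := by field_simp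
    calc Real.exp (a * (Real.log (k : ℝ)) ^ 2) ≤ 1 * (2 : ℝ) ^ (θ * k) := by linarith
      _ ≤ _ := mul_le_mul_of_nonneg_right (by linarith) h0

theorem TLE_tail (c : ℕ → ℝ) (a C' θ : ℝ) (ha : 0 < a) (hθ : 0 < θ) (hθ1 : θ < 1) (hs : Summable c) (hc0 : ∀ k, 0 ≤ c k)
    (hc : ∀ k : ℕ, c k ≤ C' * Real.exp (a * (Real.log k) ^ 2) / 2 ^ k) :
    ∃ A : ℝ, 0 ≤ A ∧ ∀ N : ℕ, ∑' k, c (k + N) ≤ A * ((2 : ℝ) ^ N) ^ (-(1 - θ)) := by
  obtain ⟨M, hM, hexp⟩ := TLE_exp a θ ha hθ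
  have hC' : 0 ≤ C' := by
    have h1 := (hc0 0).trans (hc 0)
    rw [Nat.cast_zero, Real.log_zero] at h1
    norm_num at h1
    exact h1
  set q : ℝ := (2 : ℝ) ^ (-(1 - θ)) with hq
  have hq0 : 0 < q := Real.rpow_pos_of_pos (by norm_num) _
  have hq1 : q < 1 := Real.rpow_lt_one_of_one_lt_of_neg (by norm_num) (by linarith)
  have hb : ∀ N k : ℕ, c (k + N) ≤ (C' * M * ((2 : ℝ) ^ N) ^ (-(1 - θ))) * q ^ k := by
    intro N k
    have h1 := hc (k + N)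
    have h2 := hexp (k + N)
    have e1 : (2 : ℝ) ^ (θ * ((k + N : ℕ) : ℝ)) / 2 ^ (k + N) = ((2 : ℝ) ^ N) ^ (-(1 - θ)) * q ^ k := by
      rw [hq, ← Real.rpow_natCast (2 : ℝ) (k + N), ← Real.rpow_natCast (2 : ℝ) N,
        ← Real.rpow_natCast ((2 : ℝ) ^ (-(1 - θ))) k, ← Real.rpow_mul (by norm_num), ← Real.rpow_mul (by norm_num),
        ← Real.rpow_sub (by norm_num), ← Real.rpow_add (by norm_num)]
      congr 1
      push_cast
      ring
    calc c (k + N) ≤ C' * Real.exp (a * (Real.log ((k + N : ℕ) : ℝ)) ^ 2) / 2 ^ (k + N) := h1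
      _ ≤ C' * (M * (2 : ℝ) ^ (θ * ((k + N : ℕ) : ℝ))) / 2 ^ (k + N) :=
          div_le_div_of_nonneg_right (mul_le_mul_of_nonneg_left h2 hC') (by positivity)
      _ = C' * M * ((2 : ℝ) ^ (θ * ((k + N : ℕ) : ℝ)) / 2 ^ (k + N)) := by ring
      _ = _ := by rw [e1]; ring
  refine ⟨C' * M * (1 - q)⁻¹, by
    have : 0 ≤ (1 - q)⁻¹ := inv_nonneg.2 (by linarith)
    positivity, fun N => ?_⟩
  have hs1 : Summable fun k => c (k + N) := (summable_nat_add_iff N).2 hs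
  have hs2 : Summable fun k => (C' * M * ((2 : ℝ) ^ N) ^ (-(1 - θ))) * q ^ k :=
    (summable_geometric_of_lt_one hq0.le hq1).mul_left _
  refine (hs1.tsum_le_tsum (hb N) hs2).trans (le_of_eq ?_)
  rw [tsum_mul_left, tsum_geometric_of_lt_one hq0.le hq1]
  ring

theorem TLE_cd {d J : ℕ} (χ : Fin J → V d → ℝ) (ξ : Fin J → ℝ) (a : ℝ) (h : ∀ j, ContDiff ℝ ∞ (χ j)) :
    ContDiff ℝ ∞ (fun x => a * VF χ ξ x) := by
  unfold VF
  exact contDiff_const.mul (ContDiff.sum fun j _ => contDiff_const.mul (h j))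

theorem TLE_inv {d : ℕ} {Γ : Type} [Group Γ] [MulAction Γ (V d)] {J : ℕ} (χ : Fin J → V d → ℝ) (ξ : Fin J → ℝ) (a : ℝ)
    (h : ∀ j, Inv Γ (χ j)) : Inv Γ (fun x => a * VF χ ξ x) := by
  intro γ x
  have e : VF χ ξ (γ • x) = VF χ ξ x := Finset.sum_congr rfl fun j _ => by rw [h j γ x]
  show a * VF χ ξ (γ • x) = a * VF χ ξ x
  rw [e]

/-- a single level, difference of two close coefficients -/
theorem TLE_lev {d : ℕ} {J : ℕ → ℕ} (χ : (k : ℕ) → Fin (J k) → V d → ℝ) (R : ℝ) (K : ℕ) (hR : 0 < R) (ζ v : ℕ × ℕ → ℝ)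
    (hζv : ∀ q : ℕ × ℕ, q.1 ≤ 4 * K → q.1 ≠ K → q.2 < J q.1 → |v q - ζ q| ≤ R ^ (-10 : ℝ)) (k : ℕ) (hk1 : k ≤ 4 * K) (hk2 : k ≠ K) :
    ∃ u : ℕ × ℕ → ℝ, (∀ q, |u q| ≤ 1) ∧ ∀ x, lD χ ζ k x - lD χ v k x = R ^ (-10 : ℝ) * lD χ u k x := by
  classical
  have hm0 : 0 < R ^ (-10 : ℝ) := Real.rpow_pos_of_pos hR _
  obtain ⟨u, hu⟩ : ∃ u : ℕ × ℕ → ℝ, u = fun q => if q.1 = k ∧ q.2 < J q.1 then (ζ q - v q) / R ^ (-10 : ℝ) else 0 := ⟨_, rfl⟩
  refine ⟨u, ?_, ?_⟩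
  · intro q
    rw [hu]
    by_cases hq : q.1 = k ∧ q.2 < J q.1
    · simp only [if_pos hq]
      rw [abs_div, abs_of_pos hm0, div_le_one hm0, abs_sub_comm]
      exact hζv q (by omega) (by omega) hq.2
    · simp only [if_neg hq]
      norm_num
  · intro x
    unfold lD VF
    rw [← mul_sub, ← Finset.sum_sub_distrib, ← mul_assoc, mul_comm (R ^ (-10 : ℝ)), mul_assoc]
    congr 1
    rw [Finset.mul_sum]
    refine Finset.sum_congr rfl fun j _ => ?_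
    have h1 : u (k, (j : ℕ)) = (ζ (k, (j : ℕ)) - v (k, (j : ℕ))) / R ^ (-10 : ℝ) := by
      rw [hu]
      exact if_pos ⟨rfl, j.2⟩
    show ζ (k, (j : ℕ)) * χ k j x - v (k, (j : ℕ)) * χ k j x = R ^ (-10 : ℝ) * (u (k, (j : ℕ)) * χ k j x)
    rw [h1, ← mul_assoc, mul_div_cancel₀ _ hm0.ne', ← sub_mul]

/-- bounds on a compact set, derivatives of a fixed order -/
theorem TLE_L (hSRD : SRD_stmt) {d : ℕ} {Γ : Type} [Group Γ] [MulAction Γ (V d)] {K0 : Set (V d)} {C : Set (V d) → ℕ → ℝ} {k0 : ℕ} {J : ℕ → ℕ}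
    {p : (k : ℕ) → Fin (J k) → V d} {χ : (k : ℕ) → Fin (J k) → V d → ℝ} (hF : FamD Γ K0 C k0 J p χ)
    (hcd : ∀ (ζ : ℕ × ℕ → ℝ) (k : ℕ), ContDiff ℝ ∞ (lD χ ζ k)) (L : Set (V d)) (hL : IsCompact L) (n : ℕ) :
    ∃ B : ℝ, 0 ≤ B ∧ ∀ (R : ℝ) (K : ℕ), 3 ≤ R → R ≤ 2 ^ (K + 1) →
      (∀ (v : ℕ × ℕ → ℝ) (ξ : Fin (J K) → ℝ), (∀ q, |v q| ≤ 1) → (∀ a, |ξ a| ≤ 1) →
        DK L n (fun x => wD χ K v x + aN K * VF (χ K) ξ x) (B * R ^ (-1 + 1 / 400 : ℝ))) ∧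
      ∀ ζ v : ℕ × ℕ → ℝ, (∀ q, |ζ q| ≤ 1) → (∀ q, |v q| ≤ 1) → (∀ q : ℕ × ℕ, q.1 ≤ 4 * K → q.1 ≠ K → q.2 < J q.1 → |v q - ζ q| ≤ R ^ (-10 : ℝ)) →
        DK L n (fun x => rD χ ζ x - bD χ K v x) (B * R ^ (-1 + 1 / 400 : ℝ)) := by
  obtain ⟨c, C', hsum, hc0, hck, hcb⟩ := hF.sum L hL
  obtain ⟨A, hA, ht⟩ := TLE_tail (c n) (n + 2) (C' n) (1 / 400) (by positivity) (by norm_num) (by norm_num) (hsum n) (hc0 n) (hcb n)
  have hS0 : 0 ≤ ∑' k, c n k := tsum_nonneg (hc0 n)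
  have hcda : ∀ (ζ : ℕ × ℕ → ℝ) (k : ℕ) (x : V d), ContDiffAt ℝ n (lD χ ζ k) x := fun ζ k x =>
    ((hcd ζ k).of_le (by exact_mod_cast le_top)).contDiffAt
  refine ⟨2 * A + ∑' k, c n k, by positivity, fun R K hR3 hK2 => ?_⟩
  have hRp : 0 < R := by linarith
  have hR1 : 1 ≤ R := by linarith
  have hp3 : 0 ≤ R ^ (-1 + 1 / 400 : ℝ) := Real.rpow_nonneg hRp.le _
  have hmain : A * ((2 : ℝ) ^ K) ^ (-(1 - 1 / 400 : ℝ)) ≤ 2 * A * R ^ (-1 + 1 / 400 : ℝ) := by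
    have h1 := TLN_pow R (1 - 1 / 400) K hR3 hK2 (by norm_num)
    have h2 : (2 : ℝ) ^ (1 - 1 / 400 : ℝ) ≤ 2 := by
      calc (2 : ℝ) ^ (1 - 1 / 400 : ℝ) ≤ (2 : ℝ) ^ (1 : ℝ) := Real.rpow_le_rpow_of_exponent_le (by norm_num) (by norm_num)
        _ = 2 := Real.rpow_one 2
    have e0 : (-(1 - 1 / 400) : ℝ) = -1 + 1 / 400 := by norm_num
    rw [e0] at h1 ⊢
    calc A * ((2 : ℝ) ^ K) ^ (-1 + 1 / 400 : ℝ) ≤ A * (2 ^ (1 - 1 / 400 : ℝ) * R ^ (-1 + 1 / 400 : ℝ)) := mul_le_mul_of_nonneg_left h1 hA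
      _ ≤ A * (2 * R ^ (-1 + 1 / 400 : ℝ)) := mul_le_mul_of_nonneg_left (mul_le_mul_of_nonneg_right h2 hp3) hA
      _ = _ := by ring
  have hsK : Summable fun k => c n (k + K) := (summable_nat_add_iff K).2 (hsum n)
  have hfin : ∑ k ∈ Finset.Ioc K (4 * K), c n k + c n K ≤ ∑' k, c n (k + K) := by
    have h1 : ∑ k ∈ Finset.Ioc K (4 * K), c n k + c n K = ∑ k ∈ Finset.range (3 * K + 1), c n (k + K) := by
      rw [Finset.sum_range_succ', zero_add]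
      congr 1
      have e : Finset.Ioc K (4 * K) = Finset.Ico (K + 1) (4 * K + 1) := by
        ext k
        rw [Finset.mem_Ioc, Finset.mem_Ico]
        omega
      rw [e, Finset.sum_Ico_eq_sum_range]
      have e2 : 4 * K + 1 - (K + 1) = 3 * K := by omega
      rw [e2]
      exact Finset.sum_congr rfl fun i _ => by rw [show K + 1 + i = i + 1 + K by omega]
    rw [h1]
    exact hsK.sum_le_tsum _ fun i _ => hc0 n _
  have htail : ∑' k, c n (k + K) ≤ 2 * A * R ^ (-1 + 1 / 400 : ℝ) := (ht K).trans hmain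
  have hpS : 0 ≤ (∑' k, c n k) * R ^ (-1 + 1 / 400 : ℝ) := mul_nonneg hS0 hp3
  refine ⟨fun v ξ hv hξ x hx => ?_, fun ζ v hζ hv hζv x hx => ?_⟩
  · classical
    obtain ⟨w, hw⟩ : ∃ w : ℕ × ℕ → ℝ, w = fun q => if h : q.2 < J K then ξ ⟨q.2, h⟩ else 0 := ⟨_, rfl⟩
    have hw1 : ∀ q, |w q| ≤ 1 := by
      intro q
      rw [hw]
      by_cases hq : q.2 < J K
      · simp only [dif_pos hq]
        exact hξ _
      · simp only [dif_neg hq]
        norm_num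
    have hwe : (fun x => aN K * VF (χ K) ξ x) = lD χ w K := by
      funext y
      unfold lD VF
      congr 1
      refine Finset.sum_congr rfl fun j _ => ?_
      have h1 : w (K, (j : ℕ)) = ξ j := by
        rw [hw]
        exact dif_pos j.2
      show ξ j * χ K j y = w (K, (j : ℕ)) * χ K j y
      rw [h1]
    have e : iteratedFDeriv ℝ n (wD χ K v) x = ∑ k ∈ Finset.Ioc K (4 * K), iteratedFDeriv ℝ n (lD χ v k) x :=
      iteratedFDeriv_fun_sum_apply (fun k _ => hcda v k x)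
    have hwc : ContDiffAt ℝ n (wD χ K v) x := ContDiffAt.sum fun k _ => hcda v k x
    have e2 : iteratedFDeriv ℝ n (fun x => wD χ K v x + aN K * VF (χ K) ξ x) x = iteratedFDeriv ℝ n (wD χ K v) x + iteratedFDeriv ℝ n (lD χ w K) x := by
      have e3 : (fun x => wD χ K v x + aN K * VF (χ K) ξ x) = wD χ K v + lD χ w K := by
        rw [← hwe]
        rfl
      rw [e3]
      exact iteratedFDeriv_add_apply hwc (hcda w K x)
    rw [e2, e]
    calc ‖∑ k ∈ Finset.Ioc K (4 * K), iteratedFDeriv ℝ n (lD χ v k) x + iteratedFDeriv ℝ n (lD χ w K) x‖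
        ≤ ‖∑ k ∈ Finset.Ioc K (4 * K), iteratedFDeriv ℝ n (lD χ v k) x‖ + ‖iteratedFDeriv ℝ n (lD χ w K) x‖ := norm_add_le _ _
      _ ≤ ∑ k ∈ Finset.Ioc K (4 * K), c n k + c n K := by
          refine add_le_add ((norm_sum_le _ _).trans (Finset.sum_le_sum fun k _ => hck n k v hv x hx)) (hck n K w hw1 x hx)
      _ ≤ ∑' k, c n (k + K) := hfin
      _ ≤ 2 * A * R ^ (-1 + 1 / 400 : ℝ) := htail
      _ ≤ _ := by
          rw [add_mul]
          linarith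
  · have hm0 : 0 < R ^ (-10 : ℝ) := Real.rpow_pos_of_pos hRp _
    have hsr := hSRD d (fun k => lD χ ζ k) (fun k => hcd ζ k) (by
      intro L' hL'
      obtain ⟨c', C'', h1, _, h3, _⟩ := hF.sum L' hL'
      exact ⟨c', h1, fun n k => h3 n k ζ hζ⟩)
    obtain ⟨hr1, hr2, hr3⟩ := hsr
    have hd : ∀ k : ℕ, k < K → ‖iteratedFDeriv ℝ n (lD χ ζ k) x - iteratedFDeriv ℝ n (lD χ v k) x‖ ≤ R ^ (-10 : ℝ) * c n k := by
      intro k hk
      obtain ⟨u, hu1, hu2⟩ := TLE_lev χ R K hRp ζ v hζv k (by omega) (by omega)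
      have e1 : (fun y => lD χ ζ k y - lD χ v k y) = fun y => R ^ (-10 : ℝ) • lD χ u k y := by
        funext y
        rw [hu2 y, smul_eq_mul]
      have e2 : iteratedFDeriv ℝ n (lD χ ζ k) x - iteratedFDeriv ℝ n (lD χ v k) x = R ^ (-10 : ℝ) • iteratedFDeriv ℝ n (lD χ u k) x := by
        rw [← fun_iteratedFDeriv_sub_apply (hcda ζ k x) (hcda v k x), e1, iteratedFDeriv_const_smul_apply' (hcda u k x)]
      rw [e2, norm_smul, Real.norm_of_nonneg hm0.le]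
      exact mul_le_mul_of_nonneg_left (hck n k u hu1 x hx) hm0.le
    have hrc : ContDiffAt ℝ n (rD χ ζ) x := ((hr1.of_le (by exact_mod_cast le_top)).contDiffAt)
    have hbc : ContDiffAt ℝ n (bD χ K v) x := ContDiffAt.sum fun k _ => hcda v k x
    have hbe : iteratedFDeriv ℝ n (bD χ K v) x = ∑ k ∈ Finset.range K, iteratedFDeriv ℝ n (lD χ v k) x :=
      iteratedFDeriv_fun_sum_apply (fun k _ => hcda v k x)
    have hre : iteratedFDeriv ℝ n (rD χ ζ) x = ∑' k, iteratedFDeriv ℝ n (lD χ ζ k) x := hr3 x n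
    have hsm : Summable fun k => iteratedFDeriv ℝ n (lD χ ζ k) x := (hsum n).of_norm_bounded (fun k => hck n k ζ hζ x hx)
    rw [fun_iteratedFDeriv_sub_apply hrc hbc, hbe, hre, ← hsm.sum_add_tsum_nat_add K, add_sub_right_comm, ← Finset.sum_sub_distrib]
    have h1 : ‖∑ k ∈ Finset.range K, (iteratedFDeriv ℝ n (lD χ ζ k) x - iteratedFDeriv ℝ n (lD χ v k) x)‖ ≤ R ^ (-10 : ℝ) * ∑' k, c n k := by
      calc ‖∑ k ∈ Finset.range K, (iteratedFDeriv ℝ n (lD χ ζ k) x - iteratedFDeriv ℝ n (lD χ v k) x)‖ ≤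
            ∑ k ∈ Finset.range K, ‖iteratedFDeriv ℝ n (lD χ ζ k) x - iteratedFDeriv ℝ n (lD χ v k) x‖ := norm_sum_le _ _
        _ ≤ ∑ k ∈ Finset.range K, R ^ (-10 : ℝ) * c n k := Finset.sum_le_sum fun k hk => hd k (Finset.mem_range.1 hk)
        _ = R ^ (-10 : ℝ) * ∑ k ∈ Finset.range K, c n k := (Finset.mul_sum _ _ _).symm
        _ ≤ R ^ (-10 : ℝ) * ∑' k, c n k := mul_le_mul_of_nonneg_left ((hsum n).sum_le_tsum _ fun i _ => hc0 n i) hm0.le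
    have h2 : ‖∑' k, iteratedFDeriv ℝ n (lD χ ζ (k + K)) x‖ ≤ ∑' k, c n (k + K) :=
      tsum_of_norm_bounded hsK.hasSum (fun k => hck n (k + K) ζ hζ x hx)
    have h4 := norm_add_le (∑ k ∈ Finset.range K, (iteratedFDeriv ℝ n (lD χ ζ k) x - iteratedFDeriv ℝ n (lD χ v k) x))
      (∑' k, iteratedFDeriv ℝ n (lD χ ζ (k + K)) x)
    have h5 : R ^ (-10 : ℝ) * ∑' k, c n k ≤ (∑' k, c n k) * R ^ (-1 + 1 / 400 : ℝ) := by
      rw [mul_comm]
      exact mul_le_mul_of_nonneg_left (Real.rpow_le_rpow_of_exponent_le hR1 (by norm_num)) hS0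
    rw [add_mul]
    linarith

theorem TLD_proof (hSRD : SRD_stmt) : TLD_stmt := by
  intro d Γ _ _ K0 C k0 J p χ hFd hF
  -- the levels
  have hχ : ∀ (k : ℕ) (j : Fin (J k)), ContDiff ℝ ∞ (χ k j) ∧ Inv Γ (χ k j) := by
    intro k j
    rcases lt_or_ge k k0 with hk | hk
    · exfalso
      have h1 := j.2
      have h2 := hF.zero k hk
      omega
    · exact ⟨(hF.net k hk).smooth j, (hF.net k hk).inv j⟩
  have hcd : ∀ (ζ : ℕ × ℕ → ℝ) (k : ℕ), ContDiff ℝ ∞ (lD χ ζ k) := fun ζ k => TLE_cd _ _ _ fun j => (hχ k j).1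
  have hinv : ∀ (ζ : ℕ × ℕ → ℝ) (k : ℕ), Inv Γ (lD χ ζ k) := fun ζ k => TLE_inv _ _ _ fun j => (hχ k j).2
  have hB := fun (m n : ℕ) => TLE_L hSRD hF hcd (Metric.closedBall (0 : V d) m) (isCompact_closedBall _ _) n
  choose Bs hBs0 hBs using hB
  obtain ⟨B0, hB00, hB0⟩ := TLE_L hSRD hF hcd K0 hFd.compact 0
  obtain ⟨c, C', hsum, hc0, hck, hcb⟩ := hF.sum K0 hFd.compact
  obtain ⟨η, hη⟩ : ∃ η : ℝ, ∑' k, c 0 k = η := ⟨_, rfl⟩
  have hη0 : 0 ≤ η := by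
    rw [← hη]
    exact tsum_nonneg (hc0 0)
  have hbd : ∀ (ζ : ℕ × ℕ → ℝ), (∀ q, |ζ q| ≤ 1) → ∀ k, ∀ x ∈ K0, |lD χ ζ k x| ≤ c 0 k := by
    intro ζ hζ k x hx
    have h := hck 0 k ζ hζ x hx
    rwa [norm_iteratedFDeriv_zero, Real.norm_eq_abs] at h
  obtain ⟨A2, hA2, ht2⟩ := TLE_tail (c 0) ((0 : ℕ) + 2) (C' 0) (1 / 8) (by norm_num) (by norm_num) (by norm_num) (hsum 0) (hc0 0) (hcb 0)
  -- large R
  have hlarge : ∀ a x : ℝ, 0 < x → ∀ᶠ R : ℝ in atTop, a ≤ R ^ x := fun a x hx =>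
    (tendsto_rpow_atTop hx).eventually (eventually_ge_atTop a)
  obtain ⟨R0, hR0⟩ := eventually_atTop.1 ((hlarge B0 (3 / 400) (by norm_num)).and ((hlarge (32 * A2) (1 / 2) (by norm_num)).and
    (hlarge (2 * η) 7 (by norm_num))))
  refine ⟨Bs, max 3 R0, le_max_left _ _, fun R K hR hK1 hK2 => ?_⟩
  have hR3 : 3 ≤ R := (le_max_left _ _).trans hR
  have hRp : 0 < R := by linarith
  have hR1 : 1 ≤ R := by linarith
  obtain ⟨g0, g2, g3⟩ := hR0 R ((le_max_right _ _).trans hR)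
  have hdiv : R ^ (1 / 100 : ℝ) / R = R ^ (-1 + 1 / 100 : ℝ) := by
    rw [Real.rpow_add hRp, Real.rpow_neg_one]
    ring
  have hpw : R ^ (-1 + 1 / 400 : ℝ) ≤ R ^ (1 / 100 : ℝ) / R := by
    rw [hdiv]
    exact Real.rpow_le_rpow_of_exponent_le hR1 (by norm_num)
  have hpw0 : B0 * R ^ (-1 + 1 / 400 : ℝ) ≤ R ^ (1 / 100 : ℝ) / R := by
    rw [hdiv]
    calc B0 * R ^ (-1 + 1 / 400 : ℝ) ≤ R ^ (3 / 400 : ℝ) * R ^ (-1 + 1 / 400 : ℝ) :=
          mul_le_mul_of_nonneg_right g0 (Real.rpow_nonneg hRp.le _)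
      _ = R ^ (-1 + 1 / 100 : ℝ) := by
          rw [← Real.rpow_add hRp]
          congr 1
          norm_num
  -- from bounds on compact sets to `SmS`
  have hSm : ∀ f : V d → ℝ, Inv Γ f → ContDiff ℝ ∞ f → DK K0 0 f (B0 * R ^ (-1 + 1 / 400 : ℝ)) →
      (∀ m n : ℕ, DK (Metric.closedBall (0 : V d) m) n f (Bs m n * R ^ (-1 + 1 / 400 : ℝ))) → SmS Γ Bs (R ^ (1 / 100 : ℝ)) R f := by
    intro f h1 h2 h3 h4
    refine ⟨h1, h2, fun x => ?_, fun m n x hx => ?_⟩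
    · obtain ⟨γ, hγ⟩ := hFd.cover x
      have h := h3 (γ • x) hγ
      rw [norm_iteratedFDeriv_zero, Real.norm_eq_abs, h1 γ x] at h
      exact h.trans hpw0
    · exact (h4 m n x (mem_closedBall_zero_iff.2 hx)).trans (mul_le_mul_of_nonneg_left hpw (hBs0 m n))
  have iw : ∀ v : ℕ × ℕ → ℝ, Inv Γ (wD χ K v) := fun v γ x => Finset.sum_congr rfl fun k _ => hinv v k γ x
  have ib : ∀ v : ℕ × ℕ → ℝ, Inv Γ (bD χ K v) := fun v γ x => Finset.sum_congr rfl fun k _ => hinv v k γ x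
  have ir : ∀ ζ : ℕ × ℕ → ℝ, Inv Γ (rD χ ζ) := fun ζ γ x => tsum_congr fun k => hinv ζ k γ x
  have iK : ∀ ξ : Fin (J K) → ℝ, Inv Γ (fun x => aN K * VF (χ K) ξ x) := fun ξ => TLE_inv _ _ _ fun j => (hχ K j).2
  have cK : ∀ ξ : Fin (J K) → ℝ, ContDiff ℝ ∞ (fun x => aN K * VF (χ K) ξ x) := fun ξ => TLE_cd _ _ _ fun j => (hχ K j).1
  have cw : ∀ v : ℕ × ℕ → ℝ, ContDiff ℝ ∞ (wD χ K v) := fun v => by
    unfold wD
    exact ContDiff.sum fun k _ => hcd v k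
  have cb : ∀ v : ℕ × ℕ → ℝ, ContDiff ℝ ∞ (bD χ K v) := fun v => by
    unfold bD
    exact ContDiff.sum fun k _ => hcd v k
  refine ⟨fun v ξ hv hξ => ?_, ?_⟩
  · refine hSm _ (fun γ x => ?_) ((cw v).add (cK ξ)) ((hB0 R K hR3 hK2).1 v ξ hv hξ) (fun m n => (hBs m n R K hR3 hK2).1 v ξ hv hξ)
    have h1 := iw v γ x
    have h2 := iK ξ γ x
    show wD χ K v (γ • x) + aN K * VF (χ K) ξ (γ • x) = wD χ K v x + aN K * VF (χ K) ξ x
    rw [h1]
    have h2' : aN K * VF (χ K) ξ (γ • x) = aN K * VF (χ K) ξ x := h2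
    rw [h2']
  · intro ζ v hζ hv hζv
    have hm0 : 0 < R ^ (-10 : ℝ) := Real.rpow_pos_of_pos hRp _
    have hR3p : 0 < R ^ (-3 : ℝ) := Real.rpow_pos_of_pos hRp _
    have hp6 : 2 * (R ^ (-10 : ℝ) * η) ≤ R ^ (-3 : ℝ) := by
      calc 2 * (R ^ (-10 : ℝ) * η) = 2 * η * R ^ (-10 : ℝ) := by ring
        _ ≤ R ^ (7 : ℝ) * R ^ (-10 : ℝ) := mul_le_mul_of_nonneg_right g3 hm0.le
        _ = R ^ (-3 : ℝ) := by
            rw [← Real.rpow_add hRp]
            congr 1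
            norm_num
    have hlev := fun k hk1 hk2 => TLE_lev χ R K hRp ζ v hζv k hk1 hk2
    have hsr := hSRD d (fun k => lD χ ζ k) (fun k => hcd ζ k) (by
      intro L hL
      obtain ⟨c', C'', h1, _, h3, _⟩ := hF.sum L hL
      exact ⟨c', h1, fun n k => h3 n k ζ hζ⟩)
    obtain ⟨hr1, hr2, hr3⟩ := hsr
    refine ⟨hSm _ (fun γ x => ?_) (hr1.sub (cb v)) ((hB0 R K hR3 hK2).2 ζ v hζ hv hζv) (fun m n => (hBs m n R K hR3 hK2).2 ζ v hζ hv hζv), ?_⟩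
    · show rD χ ζ (γ • x) - bD χ K v (γ • x) = rD χ ζ x - bD χ K v x
      rw [ir ζ γ x, ib v γ x]
    · -- values; first on K0
      have hval : ∀ z ∈ K0, |rD χ ζ z - bD χ K v z - (wD χ K v z + aN K * VF (χ K) (fun j => ζ (K, (j : ℕ))) z)| ≤ R ^ (-3 : ℝ) := by
        intro z hz
        have hone : ∀ k : ℕ, k ≤ 4 * K → k ≠ K → |lD χ ζ k z - lD χ v k z| ≤ R ^ (-10 : ℝ) * c 0 k := by
          intro k hk1 hk2
          obtain ⟨u, hu1, hu2⟩ := hlev k hk1 hk2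
          rw [hu2, abs_mul, abs_of_pos hm0]
          exact mul_le_mul_of_nonneg_left (hbd u hu1 k z hz) hm0.le
        have hsl : Summable fun k => lD χ ζ k z := (hsum 0).of_norm_bounded (fun k => hbd ζ hζ k z hz)
        have hsplit : rD χ ζ z = (∑ k ∈ Finset.range K, lD χ ζ k z + lD χ ζ K z + ∑ k ∈ Finset.Ioc K (4 * K), lD χ ζ k z) +
            ∑' k, lD χ ζ (k + (4 * K + 1)) z := by
          unfold rD
          rw [← hsl.sum_add_tsum_nat_add (4 * K + 1)]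
          congr 1
          rw [← Finset.sum_range_succ, Finset.range_eq_Ico, Finset.range_eq_Ico]
          have e : Finset.Ioc K (4 * K) = Finset.Ico (K + 1) (4 * K + 1) := by
            ext k
            rw [Finset.mem_Ioc, Finset.mem_Ico]
            omega
          rw [e]
          exact (Finset.sum_Ico_consecutive _ (by omega) (by omega)).symm
        have hdiff : rD χ ζ z - bD χ K v z - (wD χ K v z + aN K * VF (χ K) (fun j => ζ (K, (j : ℕ))) z) =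
            ∑ k ∈ Finset.range K, (lD χ ζ k z - lD χ v k z) + ∑ k ∈ Finset.Ioc K (4 * K), (lD χ ζ k z - lD χ v k z) +
              ∑' k, lD χ ζ (k + (4 * K + 1)) z := by
          have e : aN K * VF (χ K) (fun j => ζ (K, (j : ℕ))) z = lD χ ζ K z := rfl
          rw [e, hsplit, Finset.sum_sub_distrib, Finset.sum_sub_distrib]
          unfold bD wD
          ring
        rw [hdiff]
        have hp1 : |∑ k ∈ Finset.range K, (lD χ ζ k z - lD χ v k z)| ≤ R ^ (-10 : ℝ) * ∑ k ∈ Finset.range K, c 0 k := by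
          rw [Finset.mul_sum]
          refine (Finset.abs_sum_le_sum_abs _ _).trans (Finset.sum_le_sum fun k hk => ?_)
          rw [Finset.mem_range] at hk
          exact hone k (by omega) (by omega)
        have hp2 : |∑ k ∈ Finset.Ioc K (4 * K), (lD χ ζ k z - lD χ v k z)| ≤ R ^ (-10 : ℝ) * ∑ k ∈ Finset.Ioc K (4 * K), c 0 k := by
          rw [Finset.mul_sum]
          refine (Finset.abs_sum_le_sum_abs _ _).trans (Finset.sum_le_sum fun k hk => ?_)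
          rw [Finset.mem_Ioc] at hk
          exact hone k (by omega) (by omega)
        have hp12 : ∑ k ∈ Finset.range K, c 0 k + ∑ k ∈ Finset.Ioc K (4 * K), c 0 k ≤ η := by
          have hd : Disjoint (Finset.range K) (Finset.Ioc K (4 * K)) := by
            rw [Finset.disjoint_left]
            intro k h1 h2
            rw [Finset.mem_range] at h1
            rw [Finset.mem_Ioc] at h2
            omega
          rw [← Finset.sum_union hd, ← hη]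
          exact (hsum 0).sum_le_tsum _ fun i _ => hc0 0 i
        have hs4 : Summable fun k => c 0 (k + (4 * K + 1)) := (summable_nat_add_iff (4 * K + 1)).2 (hsum 0)
        have hp3 : |∑' k, lD χ ζ (k + (4 * K + 1)) z| ≤ ∑' k, c 0 (k + (4 * K + 1)) := by
          have h1 : ‖∑' k, lD χ ζ (k + (4 * K + 1)) z‖ ≤ ∑' k, c 0 (k + (4 * K + 1)) :=
            tsum_of_norm_bounded (f := fun k => lD χ ζ (k + (4 * K + 1)) z) hs4.hasSum
              (fun k => hbd ζ hζ (k + (4 * K + 1)) z hz)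
          exact h1
        have hp4 : ∑' k, c 0 (k + (4 * K + 1)) ≤ 16 * A2 * R ^ (-(7 / 2) : ℝ) := by
          refine (ht2 (4 * K + 1)).trans ?_
          have e1 : ((2 : ℝ) ^ (4 * K + 1)) ^ (-(1 - 1 / 8 : ℝ)) ≤ ((2 : ℝ) ^ K) ^ (-(7 / 2) : ℝ) := by
            have e2 : ((2 : ℝ) ^ K) ^ (-(7 / 2) : ℝ) = ((2 : ℝ) ^ (4 * K)) ^ (-(1 - 1 / 8 : ℝ)) := by
              rw [mul_comm 4 K, pow_mul, ← Real.rpow_natCast ((2 : ℝ) ^ K) 4, ← Real.rpow_mul (by positivity)]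
              congr 1
              norm_num
            rw [e2]
            refine Real.rpow_le_rpow_of_nonpos (by positivity) ?_ (by norm_num)
            exact pow_le_pow_right₀ (by norm_num) (by omega)
          have e3 := TLN_pow R (7 / 2) K hR3 hK2 (by norm_num)
          have e4 : (2 : ℝ) ^ (7 / 2 : ℝ) ≤ 16 := by
            calc (2 : ℝ) ^ (7 / 2 : ℝ) ≤ (2 : ℝ) ^ (4 : ℝ) := Real.rpow_le_rpow_of_exponent_le (by norm_num) (by norm_num)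
              _ = 16 := by norm_num
          have e5 : 0 ≤ R ^ (-(7 / 2) : ℝ) := Real.rpow_nonneg hRp.le _
          calc A2 * ((2 : ℝ) ^ (4 * K + 1)) ^ (-(1 - 1 / 8 : ℝ)) ≤ A2 * ((2 : ℝ) ^ K) ^ (-(7 / 2) : ℝ) :=
                mul_le_mul_of_nonneg_left e1 hA2
            _ ≤ A2 * (2 ^ (7 / 2 : ℝ) * R ^ (-(7 / 2) : ℝ)) := mul_le_mul_of_nonneg_left e3 hA2
            _ ≤ A2 * (16 * R ^ (-(7 / 2) : ℝ)) := mul_le_mul_of_nonneg_left (mul_le_mul_of_nonneg_right e4 e5) hA2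
            _ = 16 * A2 * R ^ (-(7 / 2) : ℝ) := by ring
        have hp5 : 2 * (16 * A2 * R ^ (-(7 / 2) : ℝ)) ≤ R ^ (-3 : ℝ) := by
          have e5 : 0 ≤ R ^ (-(7 / 2) : ℝ) := Real.rpow_nonneg hRp.le _
          calc 2 * (16 * A2 * R ^ (-(7 / 2) : ℝ)) = 32 * A2 * R ^ (-(7 / 2) : ℝ) := by ring
            _ ≤ R ^ (1 / 2 : ℝ) * R ^ (-(7 / 2) : ℝ) := mul_le_mul_of_nonneg_right g2 e5
            _ = R ^ (-3 : ℝ) := by
                rw [← Real.rpow_add hRp]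
                congr 1
                norm_num
        have hp7 : R ^ (-10 : ℝ) * (∑ k ∈ Finset.range K, c 0 k + ∑ k ∈ Finset.Ioc K (4 * K), c 0 k) ≤ R ^ (-10 : ℝ) * η :=
          mul_le_mul_of_nonneg_left hp12 hm0.le
        rw [mul_add] at hp7
        have h1 := abs_add_le (∑ k ∈ Finset.range K, (lD χ ζ k z - lD χ v k z) + ∑ k ∈ Finset.Ioc K (4 * K), (lD χ ζ k z - lD χ v k z))
          (∑' k, lD χ ζ (k + (4 * K + 1)) z)
        have h2 := abs_add_le (∑ k ∈ Finset.range K, (lD χ ζ k z - lD χ v k z)) (∑ k ∈ Finset.Ioc K (4 * K), (lD χ ζ k z - lD χ v k z))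
        linarith
      intro x
      obtain ⟨γ, hγ⟩ := hFd.cover x
      have h := hval (γ • x) hγ
      have i4 : aN K * VF (χ K) (fun j => ζ (K, (j : ℕ))) (γ • x) = aN K * VF (χ K) (fun j => ζ (K, (j : ℕ))) x := hinv ζ K γ x
      rw [ir ζ γ x, ib v γ x, iw v γ x, i4] at h
      exact h

end Pool.Agent.VD
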