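import Pool.Agent.helper11.VD.Spec3e

set_option autoImplicit false

open scoped ContDiff Topology InnerProductSpace ENNReal ComplexConjugate
open MeasureTheory Filter Set

namespace Pool.Agent.VD

theorem VLD_proof (hGNR : GNR_stmt) : VLD_stmt := by
  intro d Γ _ _ K k B r0
  obtain ⟨m, hm⟩ := exists_nat_ge r0
  obtain ⟨C, hC1, hC⟩ := hGNR d B m
  set A : Set (P d) := Metric.closedBall (0 : P d) (max (m : ℝ) (C * 3)) with hA
  have hAf : volume A < ⊤ := (isCompact_closedBall _ _).measure_lt_top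
  refine ⟨max 1 (volume A).toReal, le_max_left _ _, ?_⟩
  intro G R hR hcls
  have h1 : {p : P d | ‖p.1‖ ≤ r0 ∧ |Ep G p| ≤ 2 * R ^ (-(1 / 4) : ℝ)} ⊆ A := by
    rintro p ⟨hp1, hp2⟩
    have h2 : R ^ (-(1 / 4) : ℝ) ≤ 1 := Real.rpow_le_one_of_one_le_of_nonpos hR (by norm_num)
    have h3 : Ham G p ≤ 5 / 2 := by
      have := (abs_le.1 hp2).2
      unfold Ep at this
      linarith
    have h4 := (hC G hcls.met hcls.lo hcls.bd p (hp1.trans hm)).1
    have h5 : nrm G p ≤ 3 := by
      unfold nrm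
      have : ⟪IG G p.1 p.2, p.2⟫_ℝ ≤ 9 := by
        unfold Ham at h3
        linarith
      calc Real.sqrt ⟪IG G p.1 p.2, p.2⟫_ℝ ≤ Real.sqrt 9 := Real.sqrt_le_sqrt this
        _ = 3 := by rw [show (9 : ℝ) = 3 ^ 2 by norm_num, Real.sqrt_sq (by norm_num)]
    rw [hA, mem_closedBall_zero_iff]
    rw [Prod.norm_def]
    refine max_le ((hp1.trans hm).trans (le_max_left _ _)) ?_
    refine (h4.trans (mul_le_mul_of_nonneg_left h5 (by linarith))).trans (le_max_right _ _)
  refine (measure_mono h1).trans ?_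
  calc volume A = ENNReal.ofReal (volume A).toReal := (ENNReal.ofReal_toReal hAf.ne).symm
    _ ≤ _ := ENNReal.ofReal_le_ofReal (le_max_right _ _)

end Pool.Agent.VD
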