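import Pool.Agent.helper80.VD.Defs
import Pool.Agent.helper11.VN.Spec3b

/-!
# Project VD (MP_07c750_an, quantum unique ergodicity in every dimension), block C, part 1: the random family (independent of the metric), rows `vd:X`

`M = Γ \ ℝ^d`, `K` compact, convex, `Γ K = ℝ^d` (`FdK`). The bumps depend only on the action of `Γ`. All derivatives are Euclidean derivatives at the points of a compact set.

RULES. Row `vd:XXX`: file `Pool/Agent/<seat>/VD/XXX.lean`, `import Pool.Agent.helper11.VD.SpecR`, `set_option autoImplicit false`, namespace `Pool.Agent.VD`, the `open` lines of this file, auxiliary lemmas prefixed `XXX_`, theorem `XXX_proof (h..) : XXX_stmt` (rows listed in `from` may be used as hypotheses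
`(h : YYY_stmt)`; rows of RPQ, VQ, VN as `(h : RPQ.YYY_stmt)` etc., their proved files may be imported). No `convert`, `congr!`, `native_decide`, no double quotes, no `private`, no commands starting with a sharp sign.
-/

set_option autoImplicit false

open scoped ContDiff Topology InnerProductSpace ENNReal
open MeasureTheory Filter Set

namespace Pool.Agent.VD

open Pool.Agent.RPQ (PN PJ UN upd)
open Pool.Agent.VQ (rk)
open Pool.Agent.VN (aN)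

noncomputable section

variable {d : ℕ}

/-- the derivatives of order `n` of `f` are at most `b` on `L` -/
def DK {E : Type} [NormedAddCommGroup E] [NormedSpace ℝ E] (L : Set (V d)) (n : ℕ) (f : V d → E) (b : ℝ) : Prop := ∀ x ∈ L, ‖iteratedFDeriv ℝ n f x‖ ≤ b

/-- nets of bump functions of radius `ρ` -/
structure NetD (Γ : Type) [Group Γ] [MulAction Γ (V d)] (K : Set (V d)) (C : Set (V d) → ℕ → ℝ) (ρ : ℝ) (J : ℕ) (p : Fin J → V d) (χ : Fin J → V d → ℝ) : Prop where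
  pK : ∀ j, p j ∈ K
  cover : ∀ x ∈ K, ∃ j, ‖x - p j‖ ≤ ρ / 4
  inv : ∀ j, Inv Γ (χ j)
  smooth : ∀ j, ContDiff ℝ ∞ (χ j)
  bd : ∀ j x, 0 ≤ χ j x ∧ χ j x ≤ 1
  one : ∀ (j : Fin J) (x : V d) (γ : Γ), ‖γ • x - p j‖ ≤ ρ / 2 → χ j x = 1
  supp : ∀ (j : Fin J) (x : V d), χ j x ≠ 0 → ∃ γ : Γ, ‖γ • x - p j‖ ≤ ρ
  der : ∀ L : Set (V d), IsCompact L → ∀ (n : ℕ) (ξ : Fin J → ℝ), (∀ j, |ξ j| ≤ 1) → DK L n (fun x => ∑ j, ξ j * χ j x) (C L n / ρ ^ n)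

/-- the random function of one level -/
def VF {J : ℕ} (χ : Fin J → V d → ℝ) (ξ : Fin J → ℝ) (x : V d) : ℝ := ∑ j, ξ j * χ j x

/-! ## Bumps -/

/-- **Row INC** (the quotient map is injective on small balls; short-medium). Let `K1 = Metric.cthickening 1 K` (compact), `S = {g | ∃ x ∈ K1, g • x ∈ K1}` finite (`proper`). For `g ∈ S`, `g ≠ 1`: `x ↦ ‖g • x - x‖` is continuous and positive (`free`) on `K1`, so `≥ c_g > 0`. `r0` = the minimum of `1` and of the `c_g / 3`. If `‖γ x - p‖, ‖γ' x - p‖ ≤ r0`: `y = γ x ∈ K1`, `g = γ' γ⁻¹`,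
`g y ∈ K1`, `‖g y - y‖ ≤ 2 r0 < c_g`. -/
def INC_stmt : Prop := ∀ (d : ℕ) (Γ : Type) [Group Γ] [MulAction Γ (V d)] (K : Set (V d)), FdK Γ K → ∃ r0 : ℝ, 0 < r0 ∧ r0 ≤ 1 ∧ ∀ p ∈ K, ∀ (x : V d) (γ γ' : Γ), ‖γ • x - p‖ ≤ r0 → ‖γ' • x - p‖ ≤ r0 → γ = γ'

/-- **Row NPD** (separated nets; short-medium; PURE). A maximal `s`-separated subset of the compact set `K` is finite and `s`-dense (Mathlib: `Metric.exists_finite_isCover_of_isCompact`, or a maximal finite `s`-separated set: its cardinality is bounded by the covering number of radius `s/2`). Counting: the balls of radius `s/2` around the `p j` with `‖x - p j‖ ≤ 4 s` are disjoint and contained in the ball of radius `5 s` around `x`: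
their number is at most `10^d` (volume: `μ (ball x r) = ofReal (r^d) * μ (ball 0 1)`, `EuclideanSpace.volume_ball` or `Measure.addHaar_ball`). -/
def NPD_stmt : Prop := ∀ (d : ℕ) (K : Set (V d)) (s : ℝ), IsCompact K → 0 < s → ∃ (J : ℕ) (p : Fin J → V d), (∀ j, p j ∈ K) ∧ (∀ x ∈ K, ∃ j, ‖x - p j‖ ≤ s) ∧ ∀ x : V d, {j : Fin J | ‖x - p j‖ ≤ 4 * s}.ncard ≤ 10 ^ d

/-- **Row BPD** (scaled bumps; medium; PURE). `b` a `ContDiffBump (0 : V d)` with the radii `1/2`, `1` (values in `[0,1]`, `1` for `‖u‖ ≤ 1/2`, `0` for `1 ≤ ‖u‖`); all derivatives of `b` are bounded (continuous with compact support). `norm_iteratedFDeriv_comp_le` with the outer function `b` and the inner function `y ↦ ρ⁻¹ • (f y - p)`: its derivatives of order `i`, `1 ≤ i ≤ n`, at `x` are at most `M/ρ ≤ (M/ρ)^i`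
(`M ≥ 1`, `ρ ≤ 1`): so `‖D^n‖ ≤ n! C_n (M/ρ)^n`. -/
def BPD_stmt : Prop := ∀ d : ℕ, ∃ b : V d → ℝ, ContDiff ℝ ∞ b ∧ (∀ u, 0 ≤ b u ∧ b u ≤ 1) ∧ (∀ u, ‖u‖ ≤ 1 / 2 → b u = 1) ∧ (∀ u, 1 ≤ ‖u‖ → b u = 0) ∧
  ∀ (n : ℕ) (M : ℝ), 1 ≤ M → ∃ C : ℝ, 0 ≤ C ∧ ∀ (f : V d → V d) (x p : V d) (ρ : ℝ), ContDiff ℝ ∞ f → 0 < ρ → ρ ≤ 1 → (∀ i, 1 ≤ i → i ≤ n → ‖iteratedFDeriv ℝ i f x‖ ≤ M) →
    ‖iteratedFDeriv ℝ n (fun y => b (ρ⁻¹ • (f y - p))) x‖ ≤ C / ρ ^ n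

/-- **Row NTD** (nets of bumps; medium; from INC, NPD, BPD). `r0` from INC, `ρ0 = r0/2` (`≤ 1`). NPD with `s = ρ/4`. `χ j x = Σ_γ b (ρ⁻¹ • (γ • x - p j))` (`∑ᶠ γ : Γ`): for every `x` at most one term is not `0` (INC). Locally near `x0`: a ball `U` of radius `1` around `x0` has compact closure, only the finitely many `γ` with `γ U ∩ Metric.cthickening 1 K ≠ ∅` contribute (`proper` for the compact set
`closure U ∪ cthickening 1 K`): locally finite sum of smooth functions, so smooth and the derivatives can be computed term by term. Invariance: reindex. `one`: the term of `γ` is `1`, the others vanish. Derivatives at `x ∈ L`: for `γ` in the finite set of the `γ` with `γ L1 ∩ cthickening 1 K ≠ ∅`, `L1 = cthickening 1 L`, the derivatives of `γ` of order `≤ n` on `L` are bounded by a constant `M`;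
for each of these `γ` at most `10^d` of the `j` have `‖γ x - p j‖ ≤ ρ` (NPD, `4 s = ρ`), the terms of the other `j` vanish in a neighbourhood of `x` (if `ρ < ‖γ x - p j‖`) or to all orders (BPD-bump: `b` is smooth and `0` for `1 ≤ ‖u‖`; to be safe use `supp ⊂ closedBall`, and for `‖γ x - p j‖ > ρ` the function is `0` near `x`). So `‖D^n‖ ≤ #γ 10^d C/ρ^n`. `K` is nonempty (`cover`), so `1 ≤ J`. -/
def NTD_stmt : Prop := ∀ (d : ℕ) (Γ : Type) [Group Γ] [MulAction Γ (V d)] (K : Set (V d)), FdK Γ K → ∃ (C : Set (V d) → ℕ → ℝ) (ρ0 : ℝ), (∀ L n, 0 ≤ C L n) ∧ 0 < ρ0 ∧ ρ0 ≤ 1 ∧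
  ∀ ρ : ℝ, 0 < ρ → ρ ≤ ρ0 → ∃ (J : ℕ) (p : Fin J → V d) (χ : Fin J → V d → ℝ), 1 ≤ J ∧ NetD Γ K C ρ J p χ

/-! ## The random series -/

/-- the level `k` of the series -/
def lD {J : ℕ → ℕ} (χ : (k : ℕ) → Fin (J k) → V d → ℝ) (ζ : ℕ × ℕ → ℝ) (k : ℕ) (x : V d) : ℝ := aN k * VF (χ k) (fun j => ζ (k, (j : ℕ))) x

/-- the random series -/
def rD {J : ℕ → ℕ} (χ : (k : ℕ) → Fin (J k) → V d → ℝ) (ζ : ℕ × ℕ → ℝ) (x : V d) : ℝ := ∑' k, lD χ ζ k x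

/-- the levels below `K` -/
def bD {J : ℕ → ℕ} (χ : (k : ℕ) → Fin (J k) → V d → ℝ) (K : ℕ) (v : ℕ × ℕ → ℝ) (x : V d) : ℝ := ∑ k ∈ Finset.range K, lD χ v k x

/-- the levels in `(K, 4K]` -/
def wD {J : ℕ → ℕ} (χ : (k : ℕ) → Fin (J k) → V d → ℝ) (K : ℕ) (v : ℕ × ℕ → ℝ) (x : V d) : ℝ := ∑ k ∈ Finset.Ioc K (4 * K), lD χ v k x

/-- the nets of all levels -/
structure FamD (Γ : Type) [Group Γ] [MulAction Γ (V d)] (K : Set (V d)) (C : Set (V d) → ℕ → ℝ) (k0 : ℕ) (J : ℕ → ℕ) (p : (k : ℕ) → Fin (J k) → V d) (χ : (k : ℕ) → Fin (J k) → V d → ℝ) : Prop where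
  k1 : 3 ≤ k0
  zero : ∀ k, k < k0 → J k = 0
  net : ∀ k, k0 ≤ k → NetD Γ K C (rk k) (J k) (p k) (χ k)
  sum : ∀ L : Set (V d), IsCompact L → ∃ (c : ℕ → ℕ → ℝ) (C' : ℕ → ℝ), (∀ n, Summable (c n)) ∧ (∀ n k, 0 ≤ c n k) ∧ (∀ (n k : ℕ) (ζ : ℕ × ℕ → ℝ), (∀ q, |ζ q| ≤ 1) → DK L n (lD χ ζ k) (c n k)) ∧
    ∀ n k : ℕ, c n k ≤ C' n * Real.exp ((n + 2) * (Real.log k) ^ 2) / 2 ^ k

/-- small smooth perturbations (the same fields as `Sm` of block A) -/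
structure SmS (Γ : Type) [Group Γ] [MulAction Γ (V d)] (B : ℕ → ℕ → ℝ) (κ R : ℝ) (f : V d → ℝ) : Prop where
  inv : Inv Γ f
  smooth : ContDiff ℝ ∞ f
  bd : ∀ x, |f x| ≤ κ / R
  der : ∀ (m n : ℕ) (x : V d), ‖x‖ ≤ m → ‖iteratedFDeriv ℝ n f x‖ ≤ B m n * (κ / R)

/-- **Row FMD** (short-medium; adaptation of helper78/VN/FAMN.lean; from NTD). `rk k = exp (-(log k)²) → 0`: `k0 ≥ 3` with `rk k ≤ ρ0` for `k ≥ k0`. `c n k = aN k C L n / (rk k)^n = C L n exp ((n + 2)(log k)²)/2^k` for `k ≥ k0`, `0` for `k < k0`; summable (`exp ((n+2)(log k)²) ≤ M (3/2)^k`). `C' n = C L n`. -/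
def FMD_stmt : Prop := ∀ (d : ℕ) (Γ : Type) [Group Γ] [MulAction Γ (V d)] (K : Set (V d)), FdK Γ K → ∃ (C : Set (V d) → ℕ → ℝ) (k0 : ℕ) (J : ℕ → ℕ) (p : (k : ℕ) → Fin (J k) → V d) (χ : (k : ℕ) → Fin (J k) → V d → ℝ), (∀ L n, 0 ≤ C L n) ∧ FamD Γ K C k0 J p χ ∧ ∀ k, k0 ≤ k → 1 ≤ J k

/-- **Row SRD** (term by term differentiation; short-medium; PURE; compare `FNX_at`, `FNX_tsum` in helper38/VQ/FNX.lean). `contDiff_tsum` / `iteratedFDeriv_tsum` need bounds on the whole space: multiply with a bump `b` which is `1` near the point `x0` (all terms `b v_k` have derivatives bounded by summable constants: `DK` on a compact ball; Leibniz). -/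
def SRD_stmt : Prop := ∀ (d : ℕ) (v : ℕ → V d → ℝ), (∀ k, ContDiff ℝ ∞ (v k)) → (∀ L : Set (V d), IsCompact L → ∃ c : ℕ → ℕ → ℝ, (∀ n, Summable (c n)) ∧ ∀ n k, DK L n (v k) (c n k)) →
  ContDiff ℝ ∞ (fun x => ∑' k, v k x) ∧ (∀ x, Summable fun k => v k x) ∧ ∀ (x : V d) (n : ℕ), iteratedFDeriv ℝ n (fun x => ∑' k, v k x) x = ∑' k, iteratedFDeriv ℝ n (v k) x

/-- **Row SED** (the series; medium; adaptation of helper79/VN/SEN.lean; from SRD). (1) `lD` is linear in the coefficients, smooth, invariant (`0` for `k < k0`). (2) the series and its partial sums have derivatives of order `n` at most `Σ_k c n k` on `L`. (3) `(rD ζ - bD K v) = Σ_(k < K) lD (ζ - v) k + Σ_(k ≥ K) lD ζ k`, derivatives `≤ m Σ_k c n k + Σ_(k ≥ K) c n k → 0`. -/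
def SED_stmt : Prop := ∀ (d : ℕ) (Γ : Type) [Group Γ] [MulAction Γ (V d)] (K0 : Set (V d)) (C : Set (V d) → ℕ → ℝ) (k0 : ℕ) (J : ℕ → ℕ) (p : (k : ℕ) → Fin (J k) → V d) (χ : (k : ℕ) → Fin (J k) → V d → ℝ), FdK Γ K0 → FamD Γ K0 C k0 J p χ →
  (∀ ζ : ℕ × ℕ → ℝ, (∀ q, |ζ q| ≤ 1) → ContDiff ℝ ∞ (rD χ ζ) ∧ Inv Γ (rD χ ζ) ∧ ∀ K : ℕ, ContDiff ℝ ∞ (bD χ K ζ) ∧ Inv Γ (bD χ K ζ) ∧ ContDiff ℝ ∞ (wD χ K ζ) ∧ Inv Γ (wD χ K ζ)) ∧
  ∀ L : Set (V d), IsCompact L → (∃ b : ℕ → ℝ, ∀ ζ : ℕ × ℕ → ℝ, (∀ q, |ζ q| ≤ 1) → ∀ n, DK L n (rD χ ζ) (b n) ∧ ∀ K : ℕ, DK L n (bD χ K ζ) (b n)) ∧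
    ∀ (n1 : ℕ) (s : ℝ), 0 < s → ∃ K1 : ℕ, ∀ (K : ℕ) (ζ v : ℕ × ℕ → ℝ) (m : ℝ), K1 ≤ K → (∀ q, |ζ q| ≤ 1) → 0 < m → m ≤ 1 / 2 ^ K → (∀ q : ℕ × ℕ, q.1 ≤ 4 * K → q.1 ≠ K → q.2 < J q.1 → |v q - ζ q| ≤ m) → ∀ n ≤ n1, DK L n (fun x => rD χ ζ x - bD χ K v x) s

/-- **Row TLD** (tails; medium; adaptation of helper96/VN/TLN.lean; from SRD, SED). `R ∈ [2^K, 2^(K+1)]`. (1) the derivatives of order `n` on the ball `‖x‖ ≤ m` of the levels `≥ K` are together at most `Σ_(k ≥ K) c n k ≤ C'' n exp ((n + 2) (log (2K))²)/2^K ≤ Bs m n R^(1/100)/R` (`log K ≤ 2 log log R`, `exp (a (log log R)²) ≤ M_a R^(1/200)` for all `R ≥ 3`): this gives `Bs m n`;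
the values: at the points of `K0` at most `C exp (2 (log (2K))²)/2^K ≤ R^(1/100)/R` for `R ≥ R0`, everywhere by invariance. (2) `rD ζ - bD K v` = the levels below `K` of `ζ - v` (`≤ R^(-10) Σ_k c n k`), plus all levels `≥ K` of `ζ`.
(3) the difference is `Σ_(k > 4K) lD ζ k + Σ_(k ≤ 4K, k ≠ K) lD (ζ - v) k`, at the points of `K0` at most `C'' exp (2 (log (5K))²) 2^(-4K) + R^(-10) Σ_k c 0 k ≤ R^(-3)`, and everything is invariant. -/
def TLD_stmt : Prop := ∀ (d : ℕ) (Γ : Type) [Group Γ] [MulAction Γ (V d)] (K0 : Set (V d)) (C : Set (V d) → ℕ → ℝ) (k0 : ℕ) (J : ℕ → ℕ) (p : (k : ℕ) → Fin (J k) → V d) (χ : (k : ℕ) → Fin (J k) → V d → ℝ), FdK Γ K0 → FamD Γ K0 C k0 J p χ → ∃ (Bs : ℕ → ℕ → ℝ) (R0 : ℝ), 3 ≤ R0 ∧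
  ∀ (R : ℝ) (K : ℕ), R0 ≤ R → 2 ^ K ≤ R → R ≤ 2 ^ (K + 1) →
    (∀ (v : ℕ × ℕ → ℝ) (ξ : Fin (J K) → ℝ), (∀ q, |v q| ≤ 1) → (∀ a, |ξ a| ≤ 1) → SmS Γ Bs (R ^ (1 / 100 : ℝ)) R (fun x => wD χ K v x + aN K * VF (χ K) ξ x)) ∧
    ∀ ζ v : ℕ × ℕ → ℝ, (∀ q, |ζ q| ≤ 1) → (∀ q, |v q| ≤ 1) → (∀ q : ℕ × ℕ, q.1 ≤ 4 * K → q.1 ≠ K → q.2 < J q.1 → |v q - ζ q| ≤ R ^ (-10 : ℝ)) →
      SmS Γ Bs (R ^ (1 / 100 : ℝ)) R (fun x => rD χ ζ x - bD χ K v x) ∧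
      ∀ x, |rD χ ζ x - bD χ K v x - (wD χ K v x + aN K * VF (χ K) (fun j => ζ (K, (j : ℕ))) x)| ≤ R ^ (-3 : ℝ)

/-! ## Length functions, test functions -/

/-- **Row LEN** (proper length functions; short-medium; PURE). `Γ` is countable: an injection `e : Γ → ℕ`; weights `w γ = 1 + min (e γ) (e γ⁻¹)` for `γ ≠ 1`; `L γ` = the minimum of `Σ w (s_i)` over the lists `s` with `s.prod = γ` (`sInf` of a set of natural numbers, not empty: the list `[γ]`; `L 1 = 0`: the empty list). Subadditive: concatenation; symmetric: reversed lists of inverses; `{L ≤ n}` is contained in the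
set of the products of the lists of length `≤ n` with entries in the finite set `{w ≤ n}` (`e γ ≤ n` or `e γ⁻¹ ≤ n`). -/
def LEN_stmt : Prop := ∀ (Γ : Type) [Group Γ], Countable Γ → ∃ L : Γ → ℕ, L 1 = 0 ∧ (∀ γ, L γ⁻¹ = L γ) ∧ (∀ γ γ', L (γ * γ') ≤ L γ + L γ') ∧ ∀ n, {γ | L γ ≤ n}.Finite

/-- **Row CTD** (`Γ` is countable; short). `Γ = ⋃_n {γ | ∃ x ∈ closedBall 0 n, γ • x ∈ closedBall 0 n}`, finite sets (`proper`; `closedBall` is compact; for `x = 0`: `‖γ • 0‖ ≤ n` for some `n`). -/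
def CTD_stmt : Prop := ∀ (d : ℕ) (Γ : Type) [Group Γ] [MulAction Γ (V d)] (K : Set (V d)), FdK Γ K → Countable Γ

/-- test functions -/
structure TD (Γ : Type) [Group Γ] [MulAction Γ (V d)] (h : V d → ℝ) : Prop where
  inv : Inv Γ h
  smooth : ContDiff ℝ ∞ h
  bd : ∀ x, 0 ≤ h x ∧ h x ≤ 1

/-- **Row LND** (countably many smooth test functions are dense; medium; from NTD). For `n ≥ 1`, `ρ = ρ0/n`: `(J, p, χ)` from NTD, `s = Σ_j χ j` (`≥ 1`: by `cover` and `one` on `K`, everywhere by invariance), `h_(n,q) = Σ_j q_j χ j / s` for `q ∈ (ℚ ∩ [0,1])^J`: countably many functions, smooth, invariant, in `[0,1]`. Given `h` continuous, invariant, with values in `[0,1]` and `ε`: `h` is uniformly continuous on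
the compact set `cthickening 1 K`; for `x ∈ K` only the `j` with `‖γ x - p j‖ ≤ ρ` for some `γ` contribute, then `γ x ∈ cthickening 1 K` and `|h x - h (p j)| = |h (γ x) - h (p j)| ≤ ε/2`; take `q_j` within `ε/2` of `h (p j)`. -/
def LND_stmt : Prop := ∀ (d : ℕ) (Γ : Type) [Group Γ] [MulAction Γ (V d)] (K : Set (V d)), FdK Γ K → ∃ S : ℕ → V d → ℝ, (∀ i, TD Γ (S i)) ∧
  ∀ h : V d → ℝ, Continuous h → Inv Γ h → (∀ x, 0 ≤ h x ∧ h x ≤ 1) → ∀ ε : ℝ, 0 < ε → ∃ i, ∀ x, |h x - S i x| ≤ ε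

end

end Pool.Agent.VD
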