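import Pool.Agent.helper1.VD.AWEQ
import Pool.Agent.helper11.CRO.MPR
import Pool.Agent.helper11.VD.VLD
import Pool.Agent.helper14.VD.ABMR
import Pool.Agent.helper14.VD.AUNG
import Pool.Agent.helper14.VD.AVOL
import Pool.Agent.helper14.VD.AWSM
import Pool.Agent.helper14.VD.DVV
import Pool.Agent.helper14.VD.GHL
import Pool.Agent.helper14.VD.LLS
import Pool.Agent.helper15.VD.GSY
import Pool.Agent.helper15.VD.NDE
import Pool.Agent.helper15.VD.RCN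
import Pool.Agent.helper15.VQ.KSZ
import Pool.Agent.helper15.VQ.PARV
import Pool.Agent.helper16.CRO.CFL
import Pool.Agent.helper16.CRO.DCT
import Pool.Agent.helper16.CRO.DIF
import Pool.Agent.helper16.CRO.FLX
import Pool.Agent.helper16.CRO.LIN
import Pool.Agent.helper16.VD.AUNF
import Pool.Agent.helper16.VD.GCH
import Pool.Agent.helper16.VD.SGB
import Pool.Agent.helper16.VD.UBR
import Pool.Agent.helper17.VD.LWK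
import Pool.Agent.helper17.VD.SIM
import Pool.Agent.helper18.VD.ALEP
import Pool.Agent.helper18.VD.AWPX
import Pool.Agent.helper18.VD.FDB
import Pool.Agent.helper18.VD.VHPD
import Pool.Agent.helper18.VD.WXA
import Pool.Agent.helper18.VD.YDB
import Pool.Agent.helper18.VN.GIN
import Pool.Agent.helper2.VD.ALST
import Pool.Agent.helper2.VDE.ESP
import Pool.Agent.helper2.VDE.SGR
import Pool.Agent.helper20.VD.DCH
import Pool.Agent.helper20.VD.DCT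
import Pool.Agent.helper20.VD.FMD
import Pool.Agent.helper20.VD.QZC
import Pool.Agent.helper20.VDE.EDJ
import Pool.Agent.helper22.VD.EAZ
import Pool.Agent.helper23.VD.EAT
import Pool.Agent.helper23.VD.EEA
import Pool.Agent.helper23.VD.EEG
import Pool.Agent.helper23.VD.EG8
import Pool.Agent.helper23.VD.GJC
import Pool.Agent.helper23.VD.GNR
import Pool.Agent.helper23.VD.PSY
import Pool.Agent.helper23.VDE.ECV
import Pool.Agent.helper23.VQ.DTZ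
import Pool.Agent.helper23.VQ.KPZ
import Pool.Agent.helper24.VD.AWRB
import Pool.Agent.helper25.VD.CNVA
import Pool.Agent.helper25.VD.DPP
import Pool.Agent.helper25.VD.EHG
import Pool.Agent.helper25.VD.GFL
import Pool.Agent.helper25.VD.NRC
import Pool.Agent.helper25.VD.UTP
import Pool.Agent.helper25.VDE.SFN
import Pool.Agent.helper25.VQ.WKZ
import Pool.Agent.helper26.VD.ABMP
import Pool.Agent.helper26.VD.AMYS
import Pool.Agent.helper26.VD.AOVD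
import Pool.Agent.helper26.VD.AQSN
import Pool.Agent.helper26.VD.SC1
import Pool.Agent.helper26.VD.STH
import Pool.Agent.helper27.VD.ABRG
import Pool.Agent.helper27.VD.AELA
import Pool.Agent.helper27.VD.AEXL
import Pool.Agent.helper27.VD.AGRW
import Pool.Agent.helper27.VD.APOL
import Pool.Agent.helper27.VD.AWE2
import Pool.Agent.helper27.VD.WXD
import Pool.Agent.helper27.VQ.UKZ
import Pool.Agent.helper29.VD.ALWT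
import Pool.Agent.helper29.VD.GVL
import Pool.Agent.helper29.VD.LNT
import Pool.Agent.helper29.VD.RGA
import Pool.Agent.helper29.VD.RGB
import Pool.Agent.helper29.VD.SDT
import Pool.Agent.helper29.VDE.EER
import Pool.Agent.helper29.VDG.GUE
import Pool.Agent.helper3.VD.AFDD
import Pool.Agent.helper3.VD.EAM
import Pool.Agent.helper3.VD.EHL
import Pool.Agent.helper3.VD.VDC
import Pool.Agent.helper3.VDE.SCN
import Pool.Agent.helper3.VDG.GOU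
import Pool.Agent.helper3.VDG.SCB
import Pool.Agent.helper30.VD.DTR
import Pool.Agent.helper30.VD.EEF
import Pool.Agent.helper30.VD.LDI
import Pool.Agent.helper30.VD.SFI
import Pool.Agent.helper30.VD.SGA
import Pool.Agent.helper30.VD.VBY
import Pool.Agent.helper30.VDE.SMS
import Pool.Agent.helper31.VD.AGRD
import Pool.Agent.helper31.VD.APKC
import Pool.Agent.helper31.VDE.SMG
import Pool.Agent.helper32.CRO.HES
import Pool.Agent.helper32.VD.AMVI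
import Pool.Agent.helper32.VD.AWP1
import Pool.Agent.helper32.VD.DQM
import Pool.Agent.helper32.VD.EED
import Pool.Agent.helper32.VD.EG0
import Pool.Agent.helper33.VD.ABMA
import Pool.Agent.helper33.VD.ABRE
import Pool.Agent.helper33.VD.AFMD
import Pool.Agent.helper33.VD.AWDT
import Pool.Agent.helper33.VD.AWE1
import Pool.Agent.helper33.VD.GDB
import Pool.Agent.helper33.VD.GEQ
import Pool.Agent.helper33.VD.GNG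
import Pool.Agent.helper33.VQ.CEZ
import Pool.Agent.helper34.VD.AEGN
import Pool.Agent.helper34.VD.AEWT
import Pool.Agent.helper34.VD.AFHB
import Pool.Agent.helper34.VD.AULD
import Pool.Agent.helper34.VD.AUNK
import Pool.Agent.helper34.VD.AWLN
import Pool.Agent.helper34.VD.AWPK
import Pool.Agent.helper34.VD.AWQF
import Pool.Agent.helper34.VD.CTD
import Pool.Agent.helper34.VD.GUI
import Pool.Agent.helper34.VD.NGD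
import Pool.Agent.helper34.VDG.GFI
import Pool.Agent.helper35.VD.AUSD
import Pool.Agent.helper35.VD.GUX
import Pool.Agent.helper35.VD.SFE
import Pool.Agent.helper36.CRO.DT1
import Pool.Agent.helper38.VD.AFOD
import Pool.Agent.helper38.VD.EF3
import Pool.Agent.helper38.VD.GIN
import Pool.Agent.helper38.VD.GQG
import Pool.Agent.helper38.VD.NNC
import Pool.Agent.helper38.VD.NPD
import Pool.Agent.helper38.VD.UTA
import Pool.Agent.helper38.VD.UVL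
import Pool.Agent.helper39.VD.ABMC
import Pool.Agent.helper39.VD.POD
import Pool.Agent.helper39.VD.PRD
import Pool.Agent.helper39.VQ.CKZ
import Pool.Agent.helper4.VD.DDK
import Pool.Agent.helper40.VD.AQSE
import Pool.Agent.helper40.VD.EHD
import Pool.Agent.helper40.VD.GQD
import Pool.Agent.helper40.VD.MTD
import Pool.Agent.helper40.VD.NTA
import Pool.Agent.helper40.VD.UNDA
import Pool.Agent.helper40.VQ.VXZ
import Pool.Agent.helper43.VD.EET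
import Pool.Agent.helper43.VD.GNT
import Pool.Agent.helper43.VD.LDE
import Pool.Agent.helper43.VD.PIVA
import Pool.Agent.helper43.VD.RSY
import Pool.Agent.helper43.VDG.GSH
import Pool.Agent.helper45.VD.A9DD
import Pool.Agent.helper45.VD.ALDA
import Pool.Agent.helper45.VD.ALSY
import Pool.Agent.helper46.VD.AWXH
import Pool.Agent.helper47.VD.AEFX
import Pool.Agent.helper47.VD.FCP
import Pool.Agent.helper47.VD.NGV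
import Pool.Agent.helper48.VD.ALFX
import Pool.Agent.helper48.VD.APLD
import Pool.Agent.helper48.VD.AQSB
import Pool.Agent.helper48.VD.BC2D
import Pool.Agent.helper48.VD.CRX
import Pool.Agent.helper48.VD.EAX
import Pool.Agent.helper48.VD.NWS
import Pool.Agent.helper48.VD.SGD
import Pool.Agent.helper48.VD.USP
import Pool.Agent.helper48.VQ.RND
import Pool.Agent.helper49.VD.AEID
import Pool.Agent.helper49.VD.AEND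
import Pool.Agent.helper49.VD.DCM
import Pool.Agent.helper49.VD.EES
import Pool.Agent.helper49.VD.GLF
import Pool.Agent.helper5.VD.ANCH
import Pool.Agent.helper5.VD.AWP3
import Pool.Agent.helper5.VD.AWSY
import Pool.Agent.helper5.VD.FND
import Pool.Agent.helper5.VDE.EUC
import Pool.Agent.helper5.VDG.GD1
import Pool.Agent.helper50.VDG.PSB
import Pool.Agent.helper51.VD.AWRG
import Pool.Agent.helper51.VD.DWT
import Pool.Agent.helper51.VD.FDE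
import Pool.Agent.helper51.VDE.SER
import Pool.Agent.helper55.VD.EAI
import Pool.Agent.helper55.VD.EG3
import Pool.Agent.helper55.VD.EST
import Pool.Agent.helper56.VDG.GVV
import Pool.Agent.helper57.VD.AISD
import Pool.Agent.helper57.VD.AISP
import Pool.Agent.helper57.VD.AQFT
import Pool.Agent.helper57.VD.ASAD
import Pool.Agent.helper57.VD.CHB
import Pool.Agent.helper57.VD.EAC
import Pool.Agent.helper57.VD.EFX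
import Pool.Agent.helper57.VD.GWX
import Pool.Agent.helper57.VD.SCL
import Pool.Agent.helper57.VD.SGE
import Pool.Agent.helper57.VD.STU
import Pool.Agent.helper57.VDE.SLF
import Pool.Agent.helper57.VDE.SLI
import Pool.Agent.helper57.VDE.SNM
import Pool.Agent.helper58.VD.GNK
import Pool.Agent.helper58.VD.GUN
import Pool.Agent.helper59.VD.APUE
import Pool.Agent.helper59.VD.LPC
import Pool.Agent.helper59.VD.NSH
import Pool.Agent.helper59.VD.SED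
import Pool.Agent.helper59.VD.SKA
import Pool.Agent.helper59.VQ.OWZ
import Pool.Agent.helper6.VD.LMX
import Pool.Agent.helper6.VD.NFD
import Pool.Agent.helper61.VD.ALRC
import Pool.Agent.helper61.VD.DBX
import Pool.Agent.helper61.VD.FGE
import Pool.Agent.helper61.VD.GJT
import Pool.Agent.helper62.VD.AI4D
import Pool.Agent.helper62.VD.ALIN
import Pool.Agent.helper62.VDE.EVN
import Pool.Agent.helper62.VDE.IUD
import Pool.Agent.helper63.CRO.SMP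
import Pool.Agent.helper63.VD.BDV
import Pool.Agent.helper63.VD.DLL
import Pool.Agent.helper64.VD.NBD
import Pool.Agent.helper65.VD.AWP2
import Pool.Agent.helper65.VQ.EHZ
import Pool.Agent.helper65.VQ.PIZ
import Pool.Agent.helper66.VD.AGSD
import Pool.Agent.helper66.VD.EE2
import Pool.Agent.helper66.VD.EO1
import Pool.Agent.helper66.VD.FC1
import Pool.Agent.helper66.VD.GUR
import Pool.Agent.helper66.VD.LGB
import Pool.Agent.helper66.VD.RCLA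
import Pool.Agent.helper67.VD.EAV
import Pool.Agent.helper67.VD.EEH
import Pool.Agent.helper69.VD.AEBD
import Pool.Agent.helper69.VD.DGR
import Pool.Agent.helper69.VD.GMP
import Pool.Agent.helper69.VD.SPT
import Pool.Agent.helper69.VDE.EWK
import Pool.Agent.helper69.VDG.GD3
import Pool.Agent.helper69.VDG.GDR
import Pool.Agent.helper69.VQ.MKZ
import Pool.Agent.helper71.VD.ALPN
import Pool.Agent.helper71.VD.ATND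
import Pool.Agent.helper71.VD.DTA
import Pool.Agent.helper71.VD.GSC
import Pool.Agent.helper72.VD.ACNF
import Pool.Agent.helper72.VD.AHLD
import Pool.Agent.helper73.VD.AMAD
import Pool.Agent.helper73.VD.ATSD
import Pool.Agent.helper73.VD.DLP
import Pool.Agent.helper73.VQ.VSH
import Pool.Agent.helper74.VD.AQSA
import Pool.Agent.helper74.VD.AQSD
import Pool.Agent.helper75.VD.ALCC
import Pool.Agent.helper75.VD.ALON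
import Pool.Agent.helper75.VD.AWAM
import Pool.Agent.helper75.VD.DOBR
import Pool.Agent.helper75.VD.LND
import Pool.Agent.helper75.VD.NAT
import Pool.Agent.helper75.VDE.EPR
import Pool.Agent.helper76.VQ.WEZ
import Pool.Agent.helper77.VD.EE1
import Pool.Agent.helper78.VD.AFBD
import Pool.Agent.helper78.VD.EAO
import Pool.Agent.helper78.VD.GQN
import Pool.Agent.helper78.VD.NDI
import Pool.Agent.helper78.VD.NTD
import Pool.Agent.helper78.VD.SPQ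
import Pool.Agent.helper78.VDE.EGL
import Pool.Agent.helper78.VDG.GSB
import Pool.Agent.helper78.VDG.HBB
import Pool.Agent.helper79.VD.ALB0
import Pool.Agent.helper79.VD.AUMD
import Pool.Agent.helper79.VD.AWYT
import Pool.Agent.helper79.VDE.ERD
import Pool.Agent.helper8.VD.EPK
import Pool.Agent.helper8.VDG.MSC
import Pool.Agent.helper80.VD.FLD
import Pool.Agent.helper80.VD.GJQ
import Pool.Agent.helper80.VD.SHC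
import Pool.Agent.helper80.VD.SHW
import Pool.Agent.helper80.VD.UOK
import Pool.Agent.helper82.VDG.GSD
import Pool.Agent.helper82.VDG.GSX
import Pool.Agent.helper82.VDG.GZD
import Pool.Agent.helper82.VDG.GZI
import Pool.Agent.helper82.VDG.GZO
import Pool.Agent.helper82.VDG.HBC
import Pool.Agent.helper82.VDG.SCC
import Pool.Agent.helper83.VD.ADMD
import Pool.Agent.helper83.VD.AQAD
import Pool.Agent.helper83.VD.AWMT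
import Pool.Agent.helper83.VD.BPD
import Pool.Agent.helper83.VD.CFC
import Pool.Agent.helper83.VD.DCE
import Pool.Agent.helper83.VD.NSU
import Pool.Agent.helper83.VDE.ECT
import Pool.Agent.helper83.VDG.GD2
import Pool.Agent.helper84.VD.SCM
import Pool.Agent.helper85.VD.AQSC
import Pool.Agent.helper85.VD.CLSA
import Pool.Agent.helper85.VD.DCN
import Pool.Agent.helper85.VD.FSM
import Pool.Agent.helper85.VD.GRI
import Pool.Agent.helper85.VD.SPR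
import Pool.Agent.helper11.VD.TLDb
import Pool.Agent.helper85.VQ.RSB
import Pool.Agent.helper87.VD.AFSD
import Pool.Agent.helper87.VD.AQAX
import Pool.Agent.helper87.VD.EEY
import Pool.Agent.helper87.VD.GGC
import Pool.Agent.helper87.VD.ITA
import Pool.Agent.helper87.VD.LEN
import Pool.Agent.helper87.VDG.GIN
import Pool.Agent.helper89.VD.ASGF
import Pool.Agent.helper89.VD.BC1D
import Pool.Agent.helper89.VD.DBA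
import Pool.Agent.helper89.VD.FUL
import Pool.Agent.helper89.VD.LDV
import Pool.Agent.helper89.VD.PIGA
import Pool.Agent.helper89.VD.SFD
import Pool.Agent.helper89.VD.SRD
import Pool.Agent.helper89.VDE.SBF
import Pool.Agent.helper89.VQ.MSZ
import Pool.Agent.helper89.VQE.VNA
import Pool.Agent.helper9.VD.AFRD
import Pool.Agent.helper9.VD.FPS
import Pool.Agent.helper9.VD.FTR
import Pool.Agent.helper9.VD.GXH
import Pool.Agent.helper9.VD.KUB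
import Pool.Agent.helper9.VDG.GJF
import Pool.Agent.helper9.VDG.VLP
import Pool.Agent.helper90.VD.ALCH
import Pool.Agent.helper90.VD.ASYD
import Pool.Agent.helper90.VD.GCF
import Pool.Agent.helper90.VD.INC
import Pool.Agent.helper90.VD.KZD
import Pool.Agent.helper90.VD.UNK
import Pool.Agent.helper91.VD.MVE
import Pool.Agent.helper92.VD.ACTD
import Pool.Agent.helper92.VD.AFHL
import Pool.Agent.helper92.VD.DFD
import Pool.Agent.helper92.VD.DPL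
import Pool.Agent.helper92.VD.GLP
import Pool.Agent.helper92.VQ.UNZ
import Pool.Agent.helper93.VD.LCN
import Pool.Agent.helper93.VD.LDT
import Pool.Agent.helper93.VD.LI7
import Pool.Agent.helper93.VD.LVV
import Pool.Agent.helper94.VD.ANSD
import Pool.Agent.helper94.VD.B1X
import Pool.Agent.helper94.VD.DPR
import Pool.Agent.helper94.VD.DTM
import Pool.Agent.helper94.VD.DVC
import Pool.Agent.helper94.VD.LDS
import Pool.Agent.helper94.VD.LLWB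
import Pool.Agent.helper94.VD.LQM
import Pool.Agent.helper94.VDG.GGV
import Pool.Agent.helper95.VD.EHC
import Pool.Agent.helper95.VDE.SLP
import Pool.Agent.helper96.VD.ABRD
import Pool.Agent.helper96.VD.AI2D
import Pool.Agent.helper96.VD.EHB
import Pool.Agent.helper96.VD.EHI
import Pool.Agent.helper96.VD.LPN
import Pool.Agent.helper96.VD.SBY
import Pool.Agent.helper96.VD.SEM
import Pool.Agent.helper96.VD.VFU
import Pool.Agent.helper97.VD.AWCT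
import Pool.Agent.helper97.VD.AWR3
import Pool.Agent.helper98.VD.AELD
import Pool.Agent.helper98.VD.DTD
import Pool.Agent.helper98.VD.EF8
import Pool.Agent.helper98.VD.EYP
import Pool.Agent.helper98.VD.RGD
import Pool.Agent.helper98.VD.SGM
import Pool.Agent.helper98.VD.SSE
import Pool.Agent.helper98.VDE.EMX
import Pool.Agent.helper99.VD.ATKD
import Pool.Agent.helper99.VD.IJPD
import Pool.Agent.helper99.VD.UNDD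
import Pool.Agent.helper11.RPQ.AllI

/-!
# MP_07c750_an, project VD: assembly
-/

set_option autoImplicit false

open scoped MatrixGroups ContDiff Topology UpperHalfPlane ComplexConjugate
open UpperHalfPlane MeasureTheory Filter Set

namespace Pool.Agent.AllD

open Pool.Agent

theorem A_VQ_DTZ : VQ.DTZ_stmt := VQ.DTZ_proof RPQ.A_WRD
theorem A_VQ_KPZ : VQ.KPZ_stmt := VQ.KPZ_proof 
theorem A_VQ_KSZ : VQ.KSZ_stmt := VQ.KSZ_proof A_VQ_KPZ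
theorem A_VQ_OWZ : VQ.OWZ_stmt := VQ.OWZ_proof RPQ.A_KO1 RPQ.A_KO2 A_VQ_KPZ A_VQ_KSZ
theorem A_VD_DTA : VD.DTA_stmt := VD.DTA_proof A_VQ_DTZ A_VQ_OWZ A_VQ_KSZ A_VQ_KPZ RPQ.A_KO1 RPQ.A_KO2
theorem A_VD_ANSD : VD.ANSD_stmt := VD.ANSD_proof 
theorem A_VD_GIN : VD.GIN_stmt := VD.GIN_proof 
theorem A_VD_GUI : VD.GUI_stmt := VD.GUI_proof A_VD_GIN
theorem A_VD_GNR : VD.GNR_stmt := VD.GNR_proof A_VD_GIN
theorem A_VD_AHLD : VD.AHLD_stmt := VD.AHLD_proof A_VD_GIN A_VD_GUI A_VD_GNR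
theorem A_VD_AOVD : VD.AOVD_stmt := VD.AOVD_proof A_VD_ANSD A_VD_AHLD
theorem A_VD_GLF : VD.GLF_stmt := VD.GLF_proof 
theorem A_VD_ASGF : VD.ASGF_stmt := VD.ASGF_proof A_VD_GLF
theorem A_VD_APKC : VD.APKC_stmt := VD.APKC_proof A_VD_ASGF
theorem A_VD_GXH : VD.GXH_stmt := VD.GXH_proof A_VD_GIN
theorem A_VD_FC1 : VD.FC1_stmt := VD.FC1_proof 
theorem A_VD_GUN : VD.GUN_stmt := VD.GUN_proof A_VD_GXH A_VD_FC1
theorem A_VD_GHL : VD.GHL_stmt := VD.GHL_proof A_VD_GIN A_VD_GXH A_VD_GLF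
theorem A_VD_GEQ : VD.GEQ_stmt := VD.GEQ_proof A_VD_GUN A_VD_GLF A_VD_GHL
theorem A_VD_GCF : VD.GCF_stmt := VD.GCF_proof A_VD_GNR A_VD_GUN A_VD_GEQ A_VD_GHL A_VD_GLF
theorem A_VD_GUX : VD.GUX_stmt := VD.GUX_proof A_VD_GUI A_VD_GXH A_VD_GIN
theorem A_VD_FDB : VD.FDB_stmt := VD.FDB_proof A_VD_FC1
theorem A_VD_GDB : VD.GDB_stmt := VD.GDB_proof A_VD_GCF A_VD_GUX A_VD_GUN A_VD_FDB A_VD_GXH
theorem A_VD_GLP : VD.GLP_stmt := VD.GLP_proof A_VD_GDB A_VD_GNR A_VD_GUN A_VD_GXH A_VD_GUX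
theorem A_VD_ACNF : VD.ACNF_stmt := VD.ACNF_proof A_VD_GCF A_VD_GDB A_VD_GLP A_VD_GUN
theorem A_VD_AMVI : VD.AMVI_stmt := VD.AMVI_proof A_VD_GIN A_VD_GLF
theorem A_VD_AFOD : VD.AFOD_stmt := VD.AFOD_proof A_VD_AOVD A_VD_APKC A_VD_ACNF A_VD_ASGF A_VD_AMVI
theorem A_VD_AWYT : VD.AWYT_stmt := VD.AWYT_proof A_VD_GXH A_VD_GUN
theorem A_VD_AWLN : VD.AWLN_stmt := VD.AWLN_proof 
theorem A_VD_AWDT : VD.AWDT_stmt := VD.AWDT_proof 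
theorem A_VD_AWAM : VD.AWAM_stmt := VD.AWAM_proof 
theorem A_VD_AWXH : VD.AWXH_stmt := VD.AWXH_proof A_VD_GIN A_VD_GXH
theorem A_CRO_HES : CRO.HES_stmt := CRO.HES 
theorem A_CRO_SMP : CRO.SMP_stmt := CRO.SMP A_CRO_HES
theorem A_CRO_DT1 : CRO.DT1_stmt := CRO.DT1 
theorem A_CRO_MPR : CRO.MPR_stmt := CRO.MPR 
theorem A_VD_GSY : VD.GSY_stmt := VD.GSY_proof A_VD_GXH A_VD_GUN A_CRO_SMP A_CRO_DT1 A_CRO_MPR
theorem A_VD_AWMT : VD.AWMT_stmt := VD.AWMT_proof A_VD_AWYT A_VD_AWLN A_VD_AWDT A_VD_AWAM A_VD_AWXH A_VD_GSY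
theorem A_VD_ABMA : VD.ABMA_stmt := VD.ABMA_proof A_VD_AWMT A_VD_AWLN A_VD_AWDT A_VD_GSY A_VD_ACNF
theorem A_VD_AWR3 : VD.AWR3_stmt := VD.AWR3_proof A_VD_GIN A_VD_GXH A_VD_AWXH
theorem A_VD_AWEQ : VD.AWEQ_stmt := VD.AWEQ_proof A_VD_AWMT A_VD_AWR3 A_VD_AHLD A_VD_GUN A_VD_GXH A_VD_GIN
theorem A_VD_AWCT : VD.AWCT_stmt := VD.AWCT_proof 
theorem A_VD_AWSY : VD.AWSY_stmt := VD.AWSY_proof 
theorem A_VD_AWQF : VD.AWQF_stmt := VD.AWQF_proof A_VD_AWSY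
theorem A_VD_AWPK : VD.AWPK_stmt := VD.AWPK_proof 
theorem A_VD_ABRE : VD.ABRE_stmt := VD.ABRE_proof 
theorem A_VD_ABRD : VD.ABRD_stmt := VD.ABRD_proof A_VD_ABRE
theorem A_VD_AWP1 : VD.AWP1_stmt := VD.AWP1_proof A_VD_ABMA A_VD_AWEQ A_VD_AWCT A_VD_AWQF A_VD_AWSY A_VD_AWPK A_VD_AHLD A_VD_ACNF A_VD_ABRD
theorem A_VD_AWRB : VD.AWRB_stmt := VD.AWRB_proof A_VD_AHLD
theorem A_VD_AWE1 : VD.AWE1_stmt := VD.AWE1_proof A_VD_AWRB A_VD_AHLD A_VD_AWSY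
theorem A_VD_AWE2 : VD.AWE2_stmt := VD.AWE2_proof A_VD_AWCT A_VD_AWSY A_VD_AHLD
theorem A_VD_AWPX : VD.AWPX_stmt := VD.AWPX_proof 
theorem A_VD_AWP2 : VD.AWP2_stmt := VD.AWP2_proof A_VD_ABMA A_VD_AWEQ A_VD_AWE1 A_VD_AWE2 A_VD_AWCT A_VD_AWQF A_VD_AWSY A_VD_AWPK A_VD_AWPX A_VD_AHLD A_VD_ACNF A_VD_AMVI
theorem A_VD_AWP3 : VD.AWP3_stmt := VD.AWP3_proof A_VD_ABMA A_VD_AWEQ A_VD_AWYT A_VD_AWMT A_VD_AWCT A_VD_AWQF A_VD_AWSY A_VD_AWPK A_VD_AWPX A_VD_AHLD A_VD_ACNF A_VD_ABRD A_VD_AMVI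
theorem A_VD_ABMP : VD.ABMP_stmt := VD.ABMP_proof A_VD_AWP1 A_VD_AWP2 A_VD_AWP3 A_VD_AWPK
theorem A_VD_AWRG : VD.AWRG_stmt := VD.AWRG_proof A_VD_AWMT A_VD_GXH A_VD_AMVI
theorem A_VD_ABMR : VD.ABMR_stmt := VD.ABMR_proof A_VD_AWRG A_VD_AWMT A_VD_AWCT A_VD_AHLD A_VD_AMVI
theorem A_VD_AMYS : VD.AMYS_stmt := VD.AMYS_proof 
theorem A_VD_AQSA : VD.AQSA_stmt := VD.AQSA_proof A_VD_ABRD A_VD_AMVI A_VD_AHLD A_VD_AMYS
theorem A_VD_AQSN : VD.AQSN_stmt := VD.AQSN_proof A_VD_ABRD A_VD_AMVI A_VD_AHLD A_VD_AQSA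
theorem A_VD_AFHB : VD.AFHB_stmt := VD.AFHB_proof A_VD_AMVI
theorem A_VD_AQSB : VD.AQSB_stmt := VD.AQSB_proof A_VD_AQSA A_VD_AQSN A_VD_AMVI A_VD_AMYS A_VD_AFHB A_VD_ASGF
theorem A_VD_GSC : VD.GSC_stmt := VD.GSC_proof A_VD_GIN
theorem A_VD_ADMD : VD.ADMD_stmt := VD.ADMD_proof A_VD_GXH A_VD_GSC
theorem A_VD_AQSC : VD.AQSC_stmt := VD.AQSC_proof A_VD_AQSA A_VD_AMVI A_VD_ADMD A_VD_AMYS A_VD_ASGF
theorem A_VD_AUNF : VD.AUNF_stmt := VD.AUNF_proof A_VD_AMVI A_VD_ADMD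
theorem A_VD_AQSE : VD.AQSE_stmt := VD.AQSE_proof A_VD_AQSA A_VD_AQSN A_VD_AUNF A_VD_ADMD A_VD_AMYS A_VD_AFHB A_VD_AMVI
theorem A_VD_AQSD : VD.AQSD_stmt := VD.AQSD_proof A_VD_AQSA A_VD_AQSN A_VD_AQSB A_VD_AQSC A_VD_AQSE
theorem A_VD_AFMD : VD.AFMD_stmt := VD.AFMD_proof A_VD_ABMP A_VD_ABMR A_VD_AQSD A_VD_ABRD
theorem A_VD_AULD : VD.AULD_stmt := VD.AULD_proof A_VD_AFOD A_VD_AFMD
theorem A_VD_APUE : VD.APUE_stmt := VD.APUE_proof 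
theorem A_VD_AGRD : VD.AGRD_stmt := VD.AGRD_proof A_VD_AMVI A_VD_APUE
theorem A_VD_AEND : VD.AEND_stmt := VD.AEND_proof A_VD_AGRD A_VD_AMVI
theorem A_VD_AFRD : VD.AFRD_stmt := VD.AFRD_proof A_VD_AMVI A_VD_ADMD A_VD_ACNF
theorem A_VD_AFDD : VD.AFDD_stmt := VD.AFDD_proof A_VD_ABMR A_VD_AFRD A_VD_AFMD A_VD_ACNF A_VD_ADMD A_VD_AMVI
theorem A_VD_GMP : VD.GMP_stmt := VD.GMP_proof A_VD_GLF A_CRO_DT1
theorem A_VD_ALFX : VD.ALFX_stmt := VD.ALFX_proof A_VD_GLF A_VD_GHL A_VD_GMP A_VD_GUN A_VD_GEQ A_VD_GSY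
theorem A_VD_AVOL : VD.AVOL_stmt := VD.AVOL_proof A_VD_ALFX A_VD_ADMD A_VD_ASGF
theorem A_VD_AFSD : VD.AFSD_stmt := VD.AFSD_proof A_VD_AFOD A_VD_ADMD A_VD_AVOL
theorem A_VQ_VSH : VQ.VSH_stmt := VQ.VSH_proof 
theorem A_VD_AFBD : VD.AFBD_stmt := VD.AFBD_proof A_VD_AFSD A_VD_AFRD A_VD_ADMD A_VD_AMVI A_VQ_VSH
theorem A_VD_AQFT : VD.AQFT_stmt := VD.AQFT_proof A_VD_AMVI
theorem A_VD_APLD : VD.APLD_stmt := VD.APLD_proof 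
theorem A_VD_AISP : VD.AISP_stmt := VD.AISP_proof A_VD_AQFT A_VD_APLD A_VD_ABRD A_VD_AMVI
theorem A_VD_AUNG : VD.AUNG_stmt := VD.AUNG_proof A_VD_AMVI A_VD_ADMD
theorem A_VD_AUNK : VD.AUNK_stmt := VD.AUNK_proof A_VD_AUNG A_VD_AMVI
theorem A_VD_ANCH : VD.ANCH_stmt := VD.ANCH_proof A_VD_ASGF
theorem A_VD_AWSM : VD.AWSM_stmt := VD.AWSM_proof A_VD_ABRD A_VD_ANCH
theorem A_VD_AISD : VD.AISD_stmt := VD.AISD_proof A_VD_AISP A_VD_AUNK A_VD_AWSM A_VD_AMYS A_VD_AQSB A_VD_AFHB A_VD_AMVI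
theorem A_VD_APOL : VD.APOL_stmt := VD.APOL_proof A_VD_AISD A_VD_AQSB A_VD_AFHB A_VD_AQSN
theorem A_VD_AQAX : VD.AQAX_stmt := VD.AQAX_proof A_VD_AISD A_VD_AQSD A_VD_ADMD
theorem A_VD_AQAD : VD.AQAD_stmt := VD.AQAD_proof A_VD_APOL A_VD_AQAX A_VD_AQSD A_VD_AISD A_VD_AFHB A_VD_ADMD
theorem A_VD_ASAD : VD.ASAD_stmt := VD.ASAD_proof A_VD_AEND A_VD_AFDD A_VD_AFBD A_VD_AFMD A_VD_AFRD A_VD_AQAD A_VD_AMVI A_VD_ADMD A_VD_ASGF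
theorem A_VD_AUMD : VD.AUMD_stmt := VD.AUMD_proof A_VD_AULD A_VD_ABMR A_VD_AQSD A_VD_ADMD A_VD_ALFX A_VD_AMVI A_VD_ASGF
theorem A_VD_ATSD : VD.ATSD_stmt := VD.ATSD_proof A_VD_AULD A_VD_ASAD A_VD_AQAD A_VD_AUMD A_VD_AVOL A_VD_AFMD A_VD_AFRD A_VD_AQSD A_VD_ADMD A_VQ_VSH A_VD_AMVI A_VD_ASGF
theorem A_VD_ATND : VD.ATND_stmt := VD.ATND_proof A_VD_ATSD A_VD_AUMD
theorem A_VD_PSY : VD.PSY_stmt := VD.PSY_proof 
theorem A_VD_LEN : VD.LEN_stmt := VD.LEN_proof 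
theorem A_VD_CTD : VD.CTD_stmt := VD.CTD_proof 
theorem A_VD_FDE : VD.FDE_stmt := VD.FDE_proof A_VD_CTD
theorem A_VD_AI2D : VD.AI2D_stmt := VD.AI2D_proof A_VD_ATND A_VD_ADMD A_VQ_KPZ A_VD_PSY A_VD_LEN A_VD_CTD A_VD_FDE
theorem A_VD_AUSD : VD.AUSD_stmt := VD.AUSD_proof A_VD_AULD A_VD_AVOL A_VD_AUMD A_VD_ASGF A_VD_ALFX
theorem A_VD_EHD : VD.EHD_stmt := VD.EHD_proof 
theorem A_VD_EYP : VD.EYP_stmt := VD.EYP_proof A_VD_EHD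
theorem A_VDA_EAO : VDA.EAO_stmt := VDA.EAO_proof 
theorem A_VDA_EAZ : VDA.EAZ_stmt := VDA.EAZ_proof A_VQ_KPZ
theorem A_VD_EST : VD.EST_stmt := VD.EST_proof A_VD_PSY A_VD_AUMD A_VD_AUSD A_VD_ATSD A_VD_AMVI A_VD_EYP A_VQ_VSH A_VDA_EAO A_VDA_EAZ
theorem A_VDA_EAC : VDA.EAC_stmt := VDA.EAC_proof A_VDA_EAO
theorem A_VDA_EAM : VDA.EAM_stmt := VDA.EAM_proof A_VDA_EAO A_VDA_EAC
theorem A_VD_AGRW : VD.AGRW_stmt := VD.AGRW_proof 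
theorem A_VD_AEXL : VD.AEXL_stmt := VD.AEXL_proof 
theorem A_VD_AEID : VD.AEID_stmt := VD.AEID_proof A_VD_AGRW A_VD_AEXL
theorem A_VD_AEGN : VD.AEGN_stmt := VD.AEGN_proof A_VD_APLD
theorem A_VD_ABRG : VD.ABRG_stmt := VD.ABRG_proof 
theorem A_VD_AEBD : VD.AEBD_stmt := VD.AEBD_proof A_VD_AHLD A_VD_ABRG A_VD_ABRD
theorem A_VD_AEFX : VD.AEFX_stmt := VD.AEFX_proof A_VD_AEID A_VD_AEGN A_VD_AEBD A_VD_AQFT A_VD_AMVI A_VD_AHLD A_VD_ABRD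
theorem A_VD_AFHL : VD.AFHL_stmt := VD.AFHL_proof A_VD_AMVI A_VD_AHLD
theorem A_VD_AELA : VD.AELA_stmt := VD.AELA_proof A_VD_AEFX A_VD_AUNK A_VD_ANCH A_VD_AMYS A_VD_ABRE A_VD_AQSB A_VD_AFHB A_VD_AFHL A_VD_AMVI A_VD_AHLD
theorem A_VD_AEWT : VD.AEWT_stmt := VD.AEWT_proof A_VD_AHLD
theorem A_VD_AELD : VD.AELD_stmt := VD.AELD_proof A_VD_AELA A_VD_AEWT A_VD_AQSA A_VD_AQSB A_VD_ADMD
theorem A_VD_EE2 : VD.EE2_stmt := VD.EE2_proof A_VD_AMVI A_VD_ADMD A_VD_AQSD A_VD_AISD A_VD_AQAD A_VD_AELD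
theorem A_VDA_EAX : VDA.EAX_stmt := VDA.EAX_proof 
theorem A_VD_EHG : VD.EHG_stmt := VD.EHG_proof A_VD_EHD
theorem A_VD_EHC : VD.EHC_stmt := VD.EHC_proof A_VD_EHD
theorem A_VD_EED : VD.EED_stmt := VD.EED_proof A_VD_ABMR A_VD_ACNF A_VD_AMVI A_VD_EHG A_VD_EHC
theorem A_VD_EPK : VD.EPK_stmt := VD.EPK_proof 
theorem A_VD_EEF : VD.EEF_stmt := VD.EEF_proof A_VD_EPK A_VD_AFMD A_VD_AFBD A_VD_AFRD A_VD_ACNF A_VD_AMVI
theorem A_VD_EET : VD.EET_stmt := VD.EET_proof A_VDA_EAX A_VD_EED A_VD_EEF A_VD_EYP A_VD_ASAD A_VD_AFBD A_VD_AFMD A_VD_AFRD A_VD_AMVI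
theorem A_VD_EEG : VD.EEG_stmt := VD.EEG_proof A_VD_ACNF A_VD_ASGF A_VD_ALFX
theorem A_VD_EEH : VD.EEH_stmt := VD.EEH_proof A_VD_EEG A_VD_ACNF A_VD_ALFX
theorem A_VD_EEY : VD.EEY_stmt := VD.EEY_proof A_VD_EEH
theorem A_VD_EO1 : VD.EO1_stmt := VD.EO1_proof A_VD_AMVI A_VD_EYP A_VD_AQSD A_VD_AFMD A_VD_AFRD A_VD_ASAD A_VD_AUMD A_VD_ATSD A_VD_EE2 A_VD_EET A_VD_EEY
theorem A_VD_EF3 : VD.EF3_stmt := VD.EF3_proof A_VD_EST A_VDA_EAM A_VDA_EAZ A_VD_EO1 A_VD_EE2 A_VD_EEY A_VD_AUMD A_VD_ATND A_VD_LEN A_VD_AMVI A_VD_ADMD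
theorem A_VD_EG0 : VD.EG0_stmt := VD.EG0_proof A_VD_AQAD A_VD_AQSD A_VD_AMVI
theorem A_VD_EHL : VD.EHL_stmt := VD.EHL_proof A_VD_EHD
theorem A_VD_EHI : VD.EHI_stmt := VD.EHI_proof A_VD_EHD A_VD_EHC
theorem A_VD_EHB : VD.EHB_stmt := VD.EHB_proof A_VD_EHD
theorem A_VD_EE1 : VD.EE1_stmt := VD.EE1_proof A_VD_EHL A_VD_EHC A_VD_EHI A_VD_EHB
theorem A_VD_EG3 : VD.EG3_stmt := VD.EG3_proof A_VD_EF3 A_VD_EG0 A_VD_EE1 A_VD_EST A_VDA_EAO A_VDA_EAZ A_VD_ATND A_VD_AUMD A_VD_LEN A_VD_AMVI A_VD_EYP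
theorem A_VD_ALPN : VD.ALPN_stmt := VD.ALPN_proof A_VD_AMVI A_VD_AHLD
theorem A_VD_ALEP : VD.ALEP_stmt := VD.ALEP_proof A_VD_AMVI A_VD_AHLD
theorem A_VD_ALWT : VD.ALWT_stmt := VD.ALWT_proof A_VD_ABMP A_VD_ABMR A_VD_AMVI A_VD_ACNF A_VD_ALPN A_VD_ALEP
theorem A_VD_ALSY : VD.ALSY_stmt := VD.ALSY_proof 
theorem A_VD_AMAD : VD.AMAD_stmt := VD.AMAD_proof A_VD_ALWT A_VD_AEND A_VD_AQAD A_VD_AQSD A_VD_ALPN A_VD_ALSY A_VD_AUMD A_VD_AUSD A_VD_ATSD A_VD_AFMD A_VD_AMVI A_VD_ADMD A_VD_ABRD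
theorem A_VD_AI4D : VD.I4D_stmt := VD.AI4D_proof A_VD_AUMD A_VD_AMAD
theorem A_VDA_EAI : VDA.EAI_stmt := VDA.EAI_proof 
theorem A_VDA_EAV : VDA.EAV_stmt := VDA.EAV_proof A_VDA_EAI A_VDA_EAO A_VDA_EAC
theorem A_VDA_EAT : VDA.EAT_stmt := VDA.EAT_proof A_VDA_EAV A_VDA_EAO
theorem A_VD_EES : VD.EES_stmt := VD.EES_proof A_VD_EET A_VD_EEF A_VD_EE2 A_VD_ASAD A_VD_AFRD A_VD_AFMD A_VD_AMVI A_VD_EYP
theorem A_VD_EEA : VD.EEA_stmt := VD.EEA_proof A_VD_EEH A_VD_EES A_VD_EYP A_VD_EE2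
theorem A_VD_EF8 : VD.EF8_stmt := VD.EF8_proof A_VD_CTD A_VD_LEN A_VD_EST A_VDA_EAT A_VD_EEA A_VD_EO1 A_VD_EE2 A_VD_EEY A_VD_AUMD
theorem A_VD_EG8 : VD.EG8_stmt := VD.EG8_proof A_VD_EF8 A_VD_EG0 A_VD_EE1 A_VD_ADMD A_VD_AMVI
theorem A_VD_KZD : VD.KZD_stmt := VD.KZD_proof 
theorem A_VD_MTD : VD.MTD_stmt := VD.MTD_proof A_VD_GXH
theorem A_VD_MVE : VD.MVE_stmt := VD.MVE_proof 
theorem A_VD_VLD : VD.VLD_stmt := VD.VLD_proof A_VD_GNR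
theorem A_VD_DTD : VD.DTD_stmt := VD.DTD_proof A_VD_DTA A_VD_AI2D A_VD_EG3 A_VD_AI4D A_VD_EG8 A_VD_PSY A_VD_KZD A_VD_MTD A_VD_MVE A_VD_LEN A_VD_CTD A_VQ_KSZ A_VD_VLD
theorem A_VD_I6D : VD.I6D_stmt := VD.I6D_proof A_VD_GXH A_VD_GUX A_VD_GCF A_VD_GUN A_VD_GHL
theorem A_VD_NFD : VD.NFD_stmt := VD.NFD_proof 
theorem A_VD_NWS : VD.NWS_stmt := VD.NWS_proof A_VD_NFD
theorem A_VD_NBD : VD.NBD_stmt := VD.NBD_proof A_VD_NWS A_VD_NFD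
theorem A_VD_NDE : VD.NDE_stmt := VD.NDE_proof 
theorem A_VD_NSU : VD.NSU_stmt := VD.NSU_proof A_VD_NBD A_VD_NDE
theorem A_VD_NRC : VD.NRC_stmt := VD.NRC_proof 
theorem A_VD_NSH : VD.NSH_stmt := VD.NSH_proof A_VD_NBD A_VD_NSU A_VD_NRC A_VD_NFD
theorem A_VD_SHW : VD.SHW_stmt := VD.SHW_proof A_VD_NSH
theorem A_VD_SHC : VD.SHC_stmt := VD.SHC_proof A_VD_SHW
theorem A_VD_SEM : VD.SEM_stmt := VD.SEM_proof 
theorem A_VD_DLL : VD.DLL_stmt := VD.DLL_proof A_VD_GLF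
theorem A_VD_DPP : VD.DPP_stmt := VD.DPP_proof A_VD_GLF A_VD_DLL
theorem A_VD_DGR : VD.DGR_stmt := VD.DGR_proof A_VD_GLF A_VD_DPP A_VD_DLL A_VD_GLP A_VD_GCF A_VD_GNR A_VD_GUN A_VD_GEQ A_VD_GHL
theorem A_VD_EFX : VD.EFX_stmt := VD.EFX_proof A_VD_DPP A_VD_DGR A_VD_GIN A_VD_GUN A_VD_GNR A_VD_GUI A_VD_GHL
theorem A_VD_CHB : VD.CHB_stmt := VD.CHB_proof 
theorem A_VD_STU : VD.STU_stmt := VD.STU_proof A_VD_DPP A_VD_GLF A_VD_GHL A_VD_GEQ A_VD_GCF A_VD_GXH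
theorem A_VD_DCN : VD.DCN_stmt := VD.DCN_proof A_VD_SHC A_VD_SEM A_VD_EFX A_VD_CHB A_VD_STU A_VD_DPP A_VD_GLF A_VD_GHL A_VD_GEQ A_VD_GXH
theorem A_VD_ALST : VD.ALST_stmt := VD.ALST_proof A_VD_ALWT A_VD_AEND A_VD_AFDD A_VD_AFBD A_VD_AFMD A_VD_AQAD A_VD_AELD A_VD_AQSD A_VD_AFRD A_VD_AMVI A_VD_ADMD A_VD_ASGF A_VD_AHLD
theorem A_VD_ATKD : VD.ATKD_stmt := VD.ATKD_proof A_VD_ASGF A_VD_ALSY A_VD_AMVI A_VD_GLF A_VD_AHLD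
theorem A_VD_AGSD : VD.AGSD_stmt := VD.AGSD_proof A_VD_ALSY
theorem A_VD_ASYD : VD.ASYD_stmt := VD.ASYD_proof 
theorem A_VD_ACTD : VD.ACTD_stmt := VD.ACTD_proof 
theorem A_VD_ABMC : VD.ABMC_stmt := VD.ABMC_proof A_VD_ATKD A_VD_AGSD A_VD_ASYD A_VD_ACTD
theorem A_VD_ALCH : VD.ALCH_stmt := VD.ALCH_proof 
theorem A_VD_ALCC : VD.ALCC_stmt := VD.ALCC_proof A_VD_ABMA A_VD_ABMC A_VD_ALCH A_VD_ALFX A_VD_ACNF A_VD_ALPN A_VD_ALSY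
theorem A_VD_ALDA : VD.ALDA_stmt := VD.ALDA_proof A_VD_ALCH A_VD_ALSY A_VD_ALFX A_VD_ASGF A_VD_ACNF
theorem A_VD_ALON : VD.ALON_stmt := VD.ALON_proof A_VD_ALST A_VD_ALCC A_VD_ALDA A_VD_ALSY A_VD_ALCH A_VD_ALFX A_VD_ABRD A_VD_AHLD A_VD_ALWT A_VD_AFDD A_VD_AQSD A_VD_AMVI
theorem A_VD_ALB0 : VD.ALB0_stmt := VD.ALB0_proof A_VD_AULD A_VD_AUMD A_VD_AQAD A_VD_ABMP A_VD_ALPN A_VD_ALCC A_VD_ALSY A_VD_ABRD A_VD_AVOL A_VD_ADMD A_VD_AMVI A_VD_ACNF A_VD_AQSD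
theorem A_VD_ALIN : VD.ALIN_stmt := VD.ALIN_proof A_VD_ALON A_VD_ALB0 A_VD_ATSD A_VD_AUMD A_VD_AQAD A_VD_AQSD A_VD_ADMD A_VD_AMVI A_VD_AFDD
theorem A_VD_ALRC : VD.ALRC_stmt := VD.ALRC_proof A_VD_ALFX A_VD_ASGF A_VD_ACNF
theorem A_VD_A9DD : VD.A9DD_stmt := VD.A9DD_proof A_VD_ALIN A_VD_ALON A_VD_ALRC A_VD_AULD A_VD_AUSD A_VD_AUMD A_VD_AQSD A_VD_AFRD A_VD_AFMD A_VD_AVOL A_VD_ADMD A_VD_AMVI A_VD_AQAD
theorem A_VD_YDB : VD.YDB_stmt := VD.YDB_proof 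
theorem A_VD_KUB : VD.KUB_stmt := VD.KUB_proof A_VD_A9DD A_VD_YDB A_VD_GLF A_VD_GSY
theorem A_VD_DCH : VD.DCH_stmt := VD.DCH_proof 
theorem A_VD_CRX : VD.CRX_stmt := VD.CRX_proof A_VD_DCH
theorem A_VD_DLP : VD.DLP_stmt := VD.DLP_proof 
theorem A_VD_DCM : VD.DCM_stmt := VD.DCM_proof A_VD_CRX A_VD_DLP
theorem A_VD_SFD : VD.SFD_stmt := VD.SFD_proof A_VD_GIN
theorem A_VD_SFI : VD.SFI_stmt := VD.SFI_proof A_VD_SFD
theorem A_VD_DDK : VD.DDK_stmt := VD.DDK_proof A_VD_SFD A_VD_SFI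
theorem A_VD_DPL : VD.DPL_stmt := VD.DPL_proof A_VD_DDK A_VD_DCH
theorem A_VD_LDE : VD.LDE_stmt := VD.LDE_proof 
theorem A_VD_DBA : VD.DBA_stmt := VD.DBA_proof A_VD_LDE
theorem A_VD_DBX : VD.DBX_stmt := VD.DBX_proof A_VD_SFD A_VD_SFI A_VD_DDK A_VD_DBA
theorem A_VD_LPC : VD.LPC_stmt := VD.LPC_proof 
theorem A_VD_LMX : VD.LMX_stmt := VD.LMX_proof A_VD_LPC
theorem A_VD_LQM : VD.LQM_stmt := VD.LQM_proof A_VD_LMX A_VD_LDE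
theorem A_VD_LGB : VD.LGB_stmt := VD.LGB_proof A_VD_LPC A_VD_LQM A_VD_LDE
theorem A_VD_DQM : VD.DQM_stmt := VD.DQM_proof A_VD_LQM A_VD_LGB
theorem A_VD_SFE : VD.SFE_stmt := VD.SFE_proof 
theorem A_VD_SC1 : VD.SC1_stmt := VD.SC1_proof 
theorem A_VD_SIM : VD.SIM_stmt := VD.SIM_proof 
theorem A_VD_SKA : VD.SKA_stmt := VD.SKA_proof A_VD_SC1 A_VD_SIM A_VD_SFD A_VD_SFI
theorem A_VD_SPR : VD.SPR_stmt := VD.SPR_proof A_VD_SC1 A_VD_SIM A_VD_SFD A_VD_SFI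
theorem A_VD_SPQ : VD.SPQ_stmt := VD.SPQ_proof A_VD_SC1 A_VD_SFI
theorem A_VD_SDT : VD.SDT_stmt := VD.SDT_proof 
theorem A_VD_DTR : VD.DTR_stmt := VD.DTR_proof A_VD_SFI A_VD_SPR A_VD_SPQ A_VD_SDT
theorem A_VD_DCE : VD.DCE_stmt := VD.DCE_proof A_VD_SFE A_VD_SKA A_VD_DTR
theorem A_VD_DTM : VD.DTM_stmt := VD.DTM_proof A_VD_SC1 A_VD_NFD A_VD_DCH
theorem A_VDG_VLP : VDG.VLP_stmt := VDG.VLP_proof 
theorem A_VD_DVC : VD.DVC_stmt := VD.DVC_proof A_VD_SC1 A_VD_SFI A_VD_DTM A_VDG_VLP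
theorem A_VD_DPR : VD.DPR_stmt := VD.DPR_proof A_VD_DPL A_VD_DBX A_VD_DQM A_VD_DCE A_VD_DVC
theorem A_VD_BDV : VD.BDV_stmt := VD.BDV_proof A_VDG_VLP
theorem A_VD_GCH : VD.GCH_stmt := VD.GCH_proof A_VD_GIN
theorem A_VD_GVL : VD.GVL_stmt := VD.GVL_proof A_VD_GIN A_VD_GXH A_VD_GCH
theorem A_VD_GJC : VD.GJC_stmt := VD.GJC_proof A_VD_GIN A_VD_GXH A_VD_GCH A_VD_GVL
theorem A_VD_GQD : VD.GQD_stmt := VD.GQD_proof A_VD_GIN A_VD_GCH A_VD_GVL A_VD_GJC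
theorem A_VD_SGA : VD.SGA_stmt := VD.SGA_proof A_VD_GIN A_VD_GXH A_VD_GLF A_VD_GHL A_VD_GUN A_VD_GEQ A_VD_GSY A_VD_GCH A_VD_GVL A_VD_GQD
theorem A_VD_GUR : VD.GUR_stmt := VD.GUR_proof A_VD_GIN A_VD_GUI A_VD_GCH
theorem A_VD_SGB : VD.SGB_stmt := VD.SGB_proof A_VD_GIN A_VD_GXH A_VD_GUI A_VD_GUX A_VD_GNR A_VD_GUR A_VD_GCH
theorem A_VD_GJT : VD.GJT_stmt := VD.GJT_proof A_VD_FDB A_VD_GCF A_VD_GUX A_VD_GUN A_VD_GXH A_VD_FC1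
theorem A_VD_GRI : VD.GRI_stmt := VD.GRI_proof A_VD_GIN A_VD_GXH A_VD_GCH A_VD_GVL A_VD_GJC A_CRO_HES
theorem A_VD_GNT : VD.GNT_stmt := VD.GNT_proof A_VD_GIN A_VD_GLF A_VD_GHL A_VD_GXH A_VD_GCH A_VD_GVL A_VD_GJC A_VD_GQD
theorem A_VD_GNG : VD.GNG_stmt := VD.GNG_proof A_VD_GLF A_VD_GNT A_VD_GUR A_VD_GNR A_VD_GRI
theorem A_VD_GQG : VD.GQG_stmt := VD.GQG_proof A_VD_GIN A_VD_GVL A_VD_GQD A_VD_GRI A_VD_GNG
theorem A_VD_GJQ : VD.GJQ_stmt := VD.GJQ_proof A_VD_GXH A_VD_GUN A_VD_GNR A_VD_GCF A_VD_GVL A_VD_GQD A_VD_GQG A_VD_GUR A_VD_GDB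
theorem A_VD_GQN : VD.GQN_stmt := VD.GQN_proof A_VD_GLF A_VD_GNT
theorem A_VD_SGM : VD.SGM_stmt := VD.SGM_proof A_VD_GIN A_VD_GNR A_VD_GUI A_VD_GCF A_VD_GJT A_VD_GLF A_VD_DLL A_VD_GJQ A_VD_GQN
theorem A_VD_SGD : VD.SGD_stmt := VD.SGD_proof A_VD_DPP A_VD_DLL A_VD_GLF A_VD_GHL A_VD_GNR
theorem A_VD_SGE : VD.SGE_stmt := VD.SGE_proof A_VD_SGA A_VD_SGB A_VD_SGM A_VD_SGD
theorem A_VD_DWT : VD.DWT_stmt := VD.DWT_proof A_VD_KUB A_VD_DCM A_VD_DPR A_VD_BDV A_VD_SGE A_VD_EFX A_VD_GXH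
theorem A_VD_QZC : VD.QZC_stmt := VD.QZC_proof 
theorem A_VD_SPT : VD.SPT_stmt := VD.SPT_proof 
theorem A_VD_UBR : VD.UBR_stmt := VD.UBR_proof 
theorem A_VD_UVL : VD.UVL_stmt := VD.UVL_proof A_VD_GIN A_VD_GXH A_VD_GNR
theorem A_VD_DFD : VD.DFD_stmt := VD.DFD_proof 
theorem A_VD_VBY : VD.VBY_stmt := VD.VBY_proof A_VD_DPP A_VD_UVL A_VD_GLF A_VD_GHL A_VD_GMP A_VD_DFD
theorem A_VD_DOBR : VD.DOBR_stmt := VD.DOBR_proof A_VD_DCN A_VD_DWT A_VD_QZC A_VD_SPT A_VD_UBR A_VD_VBY A_VD_EFX A_VD_DPP A_VD_GLF A_VD_GHL A_VD_GXH A_VD_DFD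
theorem A_VD_STH : VD.STH_stmt := VD.STH_proof A_VD_SC1 A_VD_SIM A_VD_SFD A_VD_SFI
theorem A_VD_SSE : VD.SSE_stmt := VD.SSE_proof A_VD_SC1 A_VD_SFE A_VD_SFI A_VD_SKA A_VD_STH A_VD_SPR A_VD_SPQ A_VD_SDT
theorem A_VD_SCM : VD.SCM_stmt := VD.SCM_proof A_VD_SSE A_VD_SGE
theorem A_VDG_GUE : VDG.GUE_stmt := VDG.GUE_proof A_VD_GIN A_VD_DPP A_VD_DGR
theorem A_VD_FLD : VD.FLD_stmt := VD.FLD_proof A_VD_GLF A_VD_GHL A_VD_GMP A_VD_GUN A_VD_GEQ A_VD_GSY A_VD_GNR A_VD_DPP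
theorem A_VDE_FLD : VDE.FLD_stmt := by
  intro d Γ _ _ K k B χ hK hχ
  obtain ⟨C, -, h⟩ := A_VD_FLD d Γ K k B χ hK hχ
  exact ⟨C, h⟩
theorem A_VD_LDI : VD.LDI_stmt := VD.LDI_proof A_VD_LMX A_VD_LDE
theorem A_VD_NDI : VD.NDI_stmt := VD.NDI_proof A_VD_NBD A_VD_NDE A_VD_LDI A_VD_LPC
theorem A_VD_VDC : VD.VDC_stmt := VD.VDC_proof A_VD_NBD A_VD_NDE A_VD_NDI A_VD_NSU
theorem A_VD_VFU : VD.VFU_stmt := VD.VFU_proof A_VD_VDC A_VD_NDE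
theorem A_VD_NGV : VD.NGV_stmt := VD.NGV_proof A_VD_VFU A_VD_NDE A_VD_LQM
theorem A_VDG_HBB : VDG.HBB_stmt := VDG.HBB_proof A_VD_NFD A_VD_NSH A_VD_NGV
theorem A_VD_NGU : VD.NGU_stmt := VD.B1_NGU 
theorem A_VD_NDV : VD.NDV_stmt := VD.B1_NDV 
theorem A_VDG_HBC : VDG.HBC_stmt := VDG.HBC_proof A_VDG_HBB A_VD_NRC A_VD_NBD A_VD_NGU A_VD_NDV
theorem A_VDE_SNM : VDE.SNM_stmt := VDE.SNM_proof 
theorem A_VDG_PSB : VDG.PSB_stmt := VDG.PSB_proof A_VDE_SNM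
theorem A_VDE_SLF : VDE.SLF_stmt := VDE.SLF_proof A_VDE_SNM
theorem A_VDE_SLP : VDE.SLP_stmt := VDE.SLP_proof A_VDE_SNM A_VDE_SLF
theorem A_VDE_SLI : VDE.SLI_stmt := VDE.SLI_proof A_VDE_SNM A_VDE_SLF A_VDE_SLP
theorem A_VDG_MSC : VDG.MSC_stmt := VDG.MSC_proof A_VDG_VLP A_VDG_PSB A_VDE_SNM A_VDE_SLF A_VDE_SLP A_VDE_SLI
theorem A_VDG_SCC : VDG.SCC_stmt := VDG.SCC_proof A_VDG_MSC A_VDE_SNM A_VDE_SLI
theorem A_VDG_GZD : VDG.GZD_stmt := VDG.GZD_proof 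
theorem A_VDG_GZI : VDG.GZI_stmt := VDG.GZI_proof A_VDG_GZD
theorem A_VDG_GZO : VDG.GZO_stmt := VDG.GZO_proof A_VDG_GZD
theorem A_VDG_GSB : VDG.GSB_stmt := VDG.GSB_proof 
theorem A_VDG_GSX : VDG.GSX_stmt := VDG.GSX_proof A_VDG_GSB
theorem A_VDG_GVV : VDG.GVV_stmt := VDG.GVV_proof A_VDG_GZD A_VDG_GZI A_VDG_GZO A_VDG_GSX A_VDG_GSB
theorem A_VDG_GD1 : VDG.GD1_stmt := VDG.GD1_proof A_VDG_GZD A_VDG_GZI A_VDG_GZO A_VDG_GSX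
theorem A_VDG_GD2 : VDG.GD2_stmt := VDG.GD2_proof A_VDG_GZD A_VDG_GZI A_VDG_GZO A_VDG_GSX
theorem A_VDG_GD3 : VDG.GD3_stmt := VDG.GD3_proof A_VDG_GZD A_VDG_GZO
theorem A_VDG_GJF : VDG.GJF_stmt := VDG.GJF_proof A_VDG_HBC A_VDG_SCC A_VDG_GVV A_VDG_GD1 A_VDG_GD2 A_VDG_GD3
theorem A_VDL_LLW : VDL.LLW_stmt := VDL.LLW_proof A_VDE_SLF A_VDE_SLI
theorem A_VDL_LWK : VDL.LWK_stmt := VDL.LWK_proof A_VDL_LLW A_VDE_SNM A_VDE_SLF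
theorem A_VDL_LNT : VDL.LNT_stmt := VDL.LNT_proof 
theorem A_VDL_LDS : VDL.LDS_stmt := VDL.LDS_proof A_VDL_LNT
theorem A_VDL_LLS : VDL.LLS_stmt := VDL.LLS_proof A_VDL_LNT
theorem A_VDL_LPN : VDL.LPN_stmt := VDL.LPN_proof A_VDL_LNT A_VDL_LLS
theorem A_VDL_LCN : VDL.LCN_stmt := VDL.LCN_proof 
theorem A_VDL_LDV : VDL.LDV_stmt := VDL.LDV_proof A_VDL_LNT A_VDL_LPN A_VDL_LCN
theorem A_VDL_LDT : VDL.LDT_stmt := VDL.LDT_proof A_VDL_LNT A_VDL_LDS A_VDL_LDV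
theorem A_VD_DVV : VD.DVV_stmt := VD.DVV_proof A_VD_GLF A_VD_DLL A_VD_DPP
theorem A_VDL_LVV : VDL.LVV_stmt := VDL.LVV_proof A_VD_DVV A_VD_DGR
theorem A_VD_DCT : VD.DCT_stmt := VD.DCT_proof 
theorem A_VDL_LI7 : VDL.LI7_stmt := VDL.LI7_proof A_VD_DOBR A_VD_SCM A_VDG_GUE A_VDE_FLD A_VDG_GJF A_VDL_LWK A_VDL_LDT A_VDL_LVV A_VD_DCT A_VD_AMVI
theorem A_VD_PIGA : VD.PIGA_stmt := VD.PIGA_proof 
theorem A_VD_PIVA : VD.PIVA_stmt := VD.PIVA_proof A_VD_PIGA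
theorem A_VD_CNVA : VD.CNVA_stmt := VD.CNVA_proof 
theorem A_VD_RCLA : VD.RCLA_stmt := VD.RCLA_proof A_VD_CNVA
theorem A_VD_CLSA : VD.CLSA_stmt := VD.CLSA_proof A_VD_PIVA A_VD_RCLA
theorem A_VD_UNDA : VD.UNDA_stmt := VD.UNDA_proof A_VD_CLSA
theorem A_VD_UTA : VD.UTA_stmt := VD.UTA_proof A_VD_GDB A_VD_GXH
theorem A_VD_UNK : VD.UNK_stmt := VD.UNK_proof A_VD_DVV
theorem A_VD_USP : VD.USP_stmt := VD.USP_proof A_VD_UTA A_VD_UVL A_VD_UNK A_VD_DVV A_VD_GEQ A_VD_GHL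
theorem A_VD_UTP : VD.UTP_stmt := VD.UTP_proof A_VD_UTA A_VD_UVL A_VD_UNK A_VD_DVV A_VD_DPP A_VD_GEQ A_VD_GHL A_VD_GLF
theorem A_VD_ITA : VD.ITA_stmt := VD.ITA_proof 
theorem A_VD_UOK : VD.UOK_stmt := VD.UOK_proof A_VD_DPP A_VD_DVV A_VD_DGR A_VD_GLF A_VD_GHL A_VD_GUN A_VD_GEQ A_VD_UVL A_VD_USP A_VD_UTP A_VD_ITA
theorem A_VD_NTA : VD.NTA_stmt := VD.NTA_proof A_VD_UNK A_VD_DVV
theorem A_VD_IJPD : VD.IJPD_stmt := VD.IJPD_proof A_VD_GXH A_VD_DPP A_VD_GCF A_VD_GLF A_VD_GEQ A_VD_DGR A_VD_GUN A_VD_GHL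
theorem A_VD_SCL : VD.SCL_stmt := VD.SCL_proof A_VD_SSE A_VD_SGE A_VD_EFX
theorem A_VD_RGA : VD.RGA_stmt := VD.RGA_proof A_VD_NBD
theorem A_VD_RGB : VD.RGB_stmt := VD.RGB_proof A_VD_RGA
theorem A_VD_GWX : VD.GWX_stmt := VD.GWX_proof 
theorem A_VD_RGD : VD.RGD_stmt := VD.RGD_proof A_VD_SCL A_VD_RGB A_VD_CHB A_VD_STU A_VD_GWX
theorem A_VQ_PARV : VQ.PARV_stmt := VQ.PARV_proof 
theorem A_VD_UNDD : VD.UNDD_stmt := VD.UNDD_proof A_VD_UNDA A_VD_UOK A_VD_NTA A_VD_VBY A_VD_I6D A_VD_IJPD A_VD_RGD A_VQ_PARV A_VD_DCT A_VD_GLF A_VD_GHL A_VD_GEQ A_VD_DFD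
theorem A_VD_VHPD : VD.VHPD_stmt := VD.VHPD_proof A_VD_AI4D A_VD_I6D A_VDL_LI7 A_VD_UNDD
theorem A_VQ_VXZ : VQ.VXZ_stmt := VQ.VXZ_proof 
theorem A_VQ_UKZ : VQ.UKZ_stmt := VQ.UKZ_proof A_VQ_VXZ A_VQ_KPZ
theorem A_VQ_CKZ : VQ.CKZ_stmt := VQ.CKZ_proof A_VQ_UKZ
theorem A_VQ_MKZ : VQ.MKZ_stmt := VQ.MKZ_proof 
theorem A_VQ_WKZ : VQ.WKZ_stmt := VQ.WKZ_proof A_VQ_CKZ A_VQ_UKZ A_VQ_MKZ A_VQ_VXZ A_VQ_KSZ
theorem A_VQ_PIZ : VQ.PIZ_stmt := VQ.PIZ_proof A_VQ_WKZ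
theorem A_VQ_EHZ : VQ.EHZ_stmt := VQ.EHZ_proof A_VQ_PIZ RPQ.A_QMB RPQ.A_SNC
theorem A_VQ_UNZ : VQ.UNZ_stmt := VQ.UNZ_proof A_VQ_VXZ
theorem A_VQ_CEZ : VQ.CEZ_stmt := VQ.CEZ_proof A_VQ_UNZ
theorem A_VQ_WEZ : VQ.WEZ_stmt := VQ.WEZ_proof A_VQ_CEZ A_VQ_UNZ A_VQ_VXZ
theorem A_VQ_MSZ : VQ.MSZ_stmt := VQ.MSZ_proof A_VQ_UNZ A_VQ_WEZ
theorem A_VD_WXA : VD.WXA_stmt := VD.WXA_proof A_VQ_EHZ A_VQ_MSZ A_VQ_VXZ
theorem A_VD_SBY : VD.SBY_stmt := VD.SBY_proof A_VD_PSY A_VQ_VXZ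
theorem A_VD_WXD : VD.WXD_stmt := VD.WXD_proof A_VD_WXA A_VD_PSY A_VD_SBY A_VD_KZD A_VD_MTD A_VD_VLD A_VD_LEN A_VD_CTD A_VQ_KSZ
theorem A_VD_PRD : VD.PRD_stmt := VD.PRD_proof A_VD_DTD A_VD_VHPD A_VD_WXD A_VQ_PIZ A_VQ_KSZ A_VD_PSY A_VD_KZD A_VD_MTD A_VD_VLD A_VD_LEN A_VD_CTD RPQ.A_SNC
theorem A_VD_SRD : VD.SRD_stmt := VD.SRD_proof 
theorem A_VD_TLD : VD.TLD_stmt := VD.TLD_proof A_VD_SRD
theorem A_CRO_FLX : CRO.FLX_stmt := CRO.FLX 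
theorem A_CRO_LIN : CRO.LIN_stmt := CRO.LIN 
theorem A_CRO_DIF : CRO.DIF_stmt := CRO.DIF 
theorem A_CRO_DCT : CRO.DCT_stmt := CRO.DCT 
theorem A_CRO_CFL : CRO.CFL_stmt := CRO.CFL A_CRO_FLX A_CRO_LIN A_CRO_DIF A_CRO_DCT
theorem A_VD_FUL : VD.FUL_stmt := VD.FUL_proof A_CRO_CFL
theorem A_VD_FGE : VD.FGE_stmt := VD.FGE_proof 
theorem A_VD_GGC : VD.GGC_stmt := VD.GGC_proof A_VD_GXH A_VD_GLF A_VD_GHL A_VD_GSC A_VD_FUL A_VD_FGE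
theorem A_VD_FSM : VD.FSM_stmt := VD.FSM_proof A_CRO_CFL
theorem A_VD_FCP : VD.FCP_stmt := VD.FCP_proof A_VD_FSM A_VD_FC1
theorem A_VD_GFL : VD.GFL_stmt := VD.GFL_proof A_VD_GXH A_VD_GGC A_VD_FCP
theorem A_VN_GIN : VN.GIN_stmt := VN.GIN_proof 
theorem A_VQ_RND : VQ.RND_stmt := VQ.RND_proof 
theorem A_VQ_RSB : VQ.RSB_stmt := VQ.RSB_proof RPQ.A_RSM
theorem A_VD_BC1D : VD.BC1D_stmt := VD.BC1D_proof A_VD_PRD A_VD_TLD A_VD_GFL A_VN_GIN A_VQ_RND A_VQ_RSB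
theorem A_VDE_ERD : VDE.ERD_stmt := VDE.ERD_proof 
theorem A_VDE_EUC : VDE.EUC_stmt := VDE.EUC_proof 
theorem A_VQE_VNA : VQE.VNA_stmt := VQE.VNA_proof 
theorem A_VDE_EVN : VDE.EVN_stmt := VDE.EVN_proof A_VQE_VNA A_VDE_ERD
theorem A_VDE_ESP : VDE.ESP_stmt := VDE.ESP_proof A_VDE_EUC
theorem A_VDE_ECV : VDE.ECV_stmt := VDE.ECV_proof A_VDE_ERD A_VDE_EUC
theorem A_VDE_EDJ : VDE.EDJ_stmt := VDE.EDJ_proof A_VDE_ERD
theorem A_VDE_EMX : VDE.EMX_stmt := VDE.EMX_proof A_VDE_EUC A_VDE_ESP A_VDE_ECV A_VDE_EDJ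
theorem A_VDE_EER : VDE.EER_stmt := VDE.EER_proof A_VDE_ERD A_VDE_EUC A_VDE_EVN A_VDE_EMX
theorem A_VDE_EPR : VDE.EPR_stmt := VDE.EPR_proof A_VDE_ERD
theorem A_VDE_ECT : VDE.ECT_stmt := VDE.ECT_proof A_VDE_EUC A_VDE_EPR
theorem A_VDE_EGL : VDE.EGL_stmt := VDE.EGL_proof A_VDE_EUC A_VDE_ECT
theorem A_VDE_EWK : VDE.EWK_stmt := VDE.EWK_proof A_VDE_EER A_VDE_EGL
theorem A_VDE_SBF : VDE.SBF_stmt := VDE.SBF_proof A_VDE_SNM A_VDE_SLF A_VDE_SLP A_VDE_SLI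
theorem A_VDE_SCN : VDE.SCN_stmt := VDE.SCN_proof A_VDE_SNM
theorem A_VDE_SMG : VDE.SMG_stmt := VDE.SMG_proof A_VDE_SNM
theorem A_VDE_SER : VDE.SER_stmt := VDE.SER_proof A_VDE_EWK A_VDE_SBF A_VDE_SCN A_VDE_SLF A_VDE_SMG A_VDE_SNM
theorem A_VDE_SGR : VDE.SGR_stmt := VDE.SGR_proof 
theorem A_VDE_SMS : VDE.SMS_stmt := VDE.SMS_proof A_VDE_SNM
theorem A_VDE_SFN : VDE.SFN_stmt := VDE.SFN_proof A_VDE_SER A_VDE_SNM A_VDE_SLF A_VDE_SGR A_VDE_SMS A_VDE_SMG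
theorem A_VDG_SCB : VDG.SCB_stmt := VDG.SCB_proof A_VDG_MSC A_VDE_SNM A_VDE_SLI
theorem A_VDG_GSH : VDG.GSH_stmt := VDG.GSH_proof 
theorem A_VDG_GDR : VDG.GDR_stmt := VDG.GDR_proof 
theorem A_VDG_GIN : VDG.GIN_stmt := VDG.GIN_proof A_VDG_GDR
theorem A_VDG_GOU : VDG.GOU_stmt := VDG.GOU_proof A_VDG_GDR
theorem A_VDG_GGV : VDG.GGV_stmt := VDG.GGV_proof A_VDG_GDR A_VDG_GIN A_VDG_GOU A_VDG_GSB
theorem A_VDG_GFI : VDG.GFI_stmt := VDG.GFI_proof A_VDG_HBB A_VDG_SCB A_VDG_GSH A_VDG_GGV A_VDE_SNM A_VDE_SLF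
theorem A_VDG_GSD : VDE.GSD_stmt := VDG.GSD_proof A_VDG_GUE A_VDG_GFI A_VDE_FLD A_VD_SCM
theorem A_VDE_IUD : VD.IUWD_stmt := VDE.IUD_proof A_VDE_SFN A_VDE_FLD A_VDG_GSD A_VD_GFL A_VD_DCT
theorem A_VD_SED : VD.SED_stmt := VD.SED_proof A_VD_SRD
theorem A_VD_GNK : VD.GNK_stmt := VD.GNK_proof A_VD_GRI
theorem A_VD_RCN : VD.RCN_stmt := VD.RCN_proof 
theorem A_VD_CFC : VD.CFC_stmt := VD.CFC_proof 
theorem A_VD_POD : VD.POD_stmt := VD.POD_proof A_VD_GRI A_VD_GNK A_VD_RCN A_VD_CFC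
theorem A_VD_NNC : VD.NNC_stmt := VD.NNC_proof A_VD_MVE
theorem A_VD_BC2D : VD.BC2D_stmt := VD.BC2D_proof A_VD_BC1D A_VDE_IUD A_VD_SED A_VD_POD A_VD_CFC A_VD_NNC A_VD_MVE RPQ.A_RSM
theorem A_VD_INC : VD.INC_stmt := VD.INC_proof 
theorem A_VD_NPD : VD.NPD_stmt := VD.NPD_proof 
theorem A_VD_BPD : VD.BPD_stmt := VD.BPD_proof 
theorem A_VD_NTD : VD.NTD_stmt := VD.NTD_proof A_VD_INC A_VD_NPD A_VD_BPD
theorem A_VD_FMD : VD.FMD_stmt := VD.FMD_proof A_VD_NTD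
theorem A_VD_LND : VD.LND_stmt := VD.LND_proof A_VD_NTD
theorem A_VD_FND : VD.FND_stmt := VD.FND_proof A_VD_BC2D A_VD_FMD A_VD_SED A_VD_LND A_VD_MVE RPQ.A_RSM A_VD_APUE
theorem A_VD_FTR : VD.FTR_stmt := VD.FTR_proof 
theorem A_VD_RSY : VD.RSY_stmt := VD.RSY_proof 
theorem A_VD_NAT : VD.NAT_stmt := VD.NAT_proof 
theorem A_VD_NGD : VD.NGD_stmt := VD.NGD_proof A_VD_RSY A_VD_RCN A_VD_CFC A_VD_NAT
theorem A_VD_FPS : VD.FPS_stmt := VD.FPS_proof A_VD_SRD RPQ.A_RSM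

end Pool.Agent.AllD
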