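import Pool.Agent.helper11.VD.Spec3f

/-!
# MP_07c750_an, project VD: the final statement for an arbitrary fundamental domain, with the density of the metrics
-/

set_option autoImplicit false

open scoped ContDiff Topology InnerProductSpace ENNReal
open MeasureTheory Filter Set

namespace Pool.Agent.VD

open Pool.Agent.RPQ (PN UN)
open Pool.Agent.VDE (FDX)

/-- invariance of the metric -/
def IsoD (Γ : Type) {d : ℕ} [Group Γ] [MulAction Γ (V d)] (G : V d → V d →L[ℝ] V d) : Prop :=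
  ∀ (γ : Γ) (x u v : V d), ⟪G (γ • x) (fderiv ℝ (fun y : V d => γ • y) x u), fderiv ℝ (fun y : V d => γ • y) x v⟫_ℝ = ⟪G x u, v⟫_ℝ

theorem FNWD_iso {Γ : Type} {d : ℕ} [Group Γ] [MulAction Γ (V d)] {G : V d → V d →L[ℝ] V d} (h : IsoD Γ G) {f : V d → ℝ} (hf : Inv Γ f) : IsoD Γ (cfm f G) := by
  intro γ x u v
  have h1 := h γ x u v
  unfold cfm
  rw [hf γ x]
  simp only [smul_apply, inner_smul_left, conj_trivial]
  rw [h1]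

/-- **the final theorem** -/
theorem FNWD (hFND : FND_stmt) (hFTR : FTR_stmt) (hNGD : NGD_stmt) (hFPS : FPS_stmt) (hDFD : DFD_stmt) (hCFC : CFC_stmt) (hRSM : RPQ.RSM_stmt)
    (d : ℕ) (Γ : Type) [Group Γ] [MulAction Γ (V d)] (F : Set (V d)) (hd : 2 ≤ d)
    (hsm : ∀ γ : Γ, ContDiff ℝ ∞ fun x : V d => γ • x) (hfr : ∀ (γ : Γ) (x : V d), γ • x = x → γ = 1)
    (hpr : ∀ K : Set (V d), IsCompact K → {γ : Γ | ∃ x ∈ K, γ • x ∈ K}.Finite) (hco : ∃ K : Set (V d), IsCompact K ∧ ∀ x : V d, ∃ γ : Γ, γ • x ∈ K)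
    (hF : IsFundamentalDomain Γ F (volume : Measure (V d))) :
    ∃ (k₀ : ℕ) (J : ℕ → ℕ) (u : ℕ → ℕ → V d → ℝ), (∀ k, k₀ ≤ k → 1 ≤ J k) ∧
      (∀ k j, ContDiff ℝ ∞ (u k j) ∧ Inv Γ (u k j) ∧ ∀ x, 0 ≤ u k j x) ∧
      (∀ L : Set (V d), IsCompact L → ∀ n : ℕ, ∃ c : ℕ → ℝ, Summable c ∧ ∀ (k : ℕ) (ξ : ℕ → ℝ), (∀ j, |ξ j| ≤ 1) →
        ∀ x ∈ L, ‖iteratedFDeriv ℝ n (fun x => ∑ j ∈ Finset.range (J k), ξ j * u k j x) x‖ ≤ c k) ∧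
      (∀ ξ : ℕ × ℕ → ℝ, (∀ q, |ξ q| ≤ 1) → ContDiff ℝ ∞ (fun x => ∑' k, ∑ j ∈ Finset.range (J k), ξ (k, j) * u k j x)) ∧
      ∀ G : V d → V d →L[ℝ] V d, IsMetric G → IsoD Γ G →
        (∀ᵐ ξ ∂(Measure.infinitePi fun _ : ℕ × ℕ => UN), NegativelyCurved (cfm (fun x => ∑' k, ∑ j ∈ Finset.range (J k), ξ (k, j) * u k j x) G) →
          QUE Γ F (cfm (fun x => ∑' k, ∑ j ∈ Finset.range (J k), ξ (k, j) * u k j x) G)) ∧
        (NegativelyCurved G → ∀ (L : Set (V d)) (n₀ : ℕ) (τ : ℝ), IsCompact L → 0 < τ → 0 < (Measure.infinitePi fun _ : ℕ × ℕ => UN) {ξ : ℕ × ℕ → ℝ |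
          (∀ n ≤ n₀, ∀ x ∈ L, ‖iteratedFDeriv ℝ n (fun x => ∑' k, ∑ j ∈ Finset.range (J k), ξ (k, j) * u k j x) x‖ ≤ τ) ∧
          NegativelyCurved (cfm (fun x => ∑' k, ∑ j ∈ Finset.range (J k), ξ (k, j) * u k j x) G) ∧
          QUE Γ F (cfm (fun x => ∑' k, ∑ j ∈ Finset.range (J k), ξ (k, j) * u k j x) G)}) := by
  obtain ⟨K0, hK0, hK0c⟩ := hco
  obtain ⟨r, hr⟩ := hK0.isBounded.subset_closedBall (0 : V d)
  have hfd : FdK Γ (Metric.closedBall (0 : V d) r) := ⟨isCompact_closedBall _ _, convex_closedBall _ _, fun x => by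
    obtain ⟨γ, hγ⟩ := hK0c x
    exact ⟨γ, hr hγ⟩, hsm, hfr, hpr⟩
  obtain ⟨-, F0, hF1, hF2, hF3⟩ := hDFD d Γ _ hfd
  have hfx : FDX Γ (Metric.closedBall (0 : V d) r) F0 := ⟨hF1, hF2, hF3⟩
  obtain ⟨k₀, J, u, hJ, h1, h2, h3, h4⟩ := hFND d Γ _ F0 hd hfd hfx
  refine ⟨k₀, J, u, hJ, h1, h2, h3, ?_⟩
  intro G hG hiso
  have hdeck : Deck Γ G := ⟨hsm, hiso, hfr, hpr, ⟨K0, hK0, hK0c⟩⟩
  have hSinv : ∀ ξ : ℕ × ℕ → ℝ, Inv Γ (fun x => ∑' k, ∑ j ∈ Finset.range (J k), ξ (k, j) * u k j x) := by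
    intro ξ γ x
    refine tsum_congr fun k => Finset.sum_congr rfl fun j _ => ?_
    rw [(h1 k j).2.1 γ x]
  have hmain : ∀ᵐ ξ ∂(Measure.infinitePi fun _ : ℕ × ℕ => UN), NegativelyCurved (cfm (fun x => ∑' k, ∑ j ∈ Finset.range (J k), ξ (k, j) * u k j x) G) →
          QUE Γ F (cfm (fun x => ∑' k, ∑ j ∈ Finset.range (J k), ξ (k, j) * u k j x) G) := by
    have h5 := h4 G hG hdeck
    have h6 := hRSM.2.1
    unfold PN at h5 h6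
    filter_upwards [h5, h6] with ξ hξ hb hneg
    exact (hFTR d Γ _ F0 F _ hfd hfx ((hCFC d).1 _ _ (h3 ξ hb) hG) (FNWD_iso hiso (hSinv ξ)) hF).2 (hξ hneg)
  refine ⟨hmain, ?_⟩
  intro hneg L n₀ τ hL hτ
  obtain ⟨s, hs, hsn⟩ := hNGD d Γ _ G hfd hdeck hG hneg
  rw [pos_iff_ne_zero]
  intro hzero
  have hτ' : 0 < min τ s := lt_min hτ hs
  obtain ⟨ξ, hξ1, ⟨hξ2, hξ3⟩, hξ4⟩ := hFPS d J u (fun k j => (h1 k j).1) h2 _ (hmain.and (measure_eq_zero_iff_ae_notMem.1 hzero)) (L ∪ Metric.closedBall (0 : V d) r) (max n₀ 2) (min τ s) (hL.union (isCompact_closedBall _ _)) hτ'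
  have hneg2 : NegativelyCurved (cfm (fun x => ∑' k, ∑ j ∈ Finset.range (J k), ξ (k, j) * u k j x) G) := by
    refine hsn _ (h3 ξ hξ1) (hSinv ξ) fun n hn x hx => ?_
    exact (hξ4 n (hn.trans (le_max_right _ _)) x (Or.inr hx)).trans (min_le_right _ _)
  exact hξ3 ⟨fun n hn x hx => (hξ4 n (hn.trans (le_max_left _ _)) x (Or.inl hx)).trans (min_le_left _ _), hneg2, hξ2 hneg2⟩

end Pool.Agent.VD
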