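import Pool.Agent.helper11.VD.SpecC
import Pool.Agent.helper62.VD.SpecE2
import Pool.Agent.helper80.VD.SpecD

/-!
# Project VD (MP_07c750_an, quantum unique ergodicity in every dimension): the INTERFACE statements between the blocks

Names as in VN (`helper11/VN/Spec3i.lean`) with a `D`. ORDER OF THE QUANTIFIERS: first `d`, `Γ`, `K`, `r0`, `χ`, `ch`, `k`, `B`, `B'` (everything may depend on them), then `C`, ... `K`, `F0`: FdK, FDX; `χ`: partition of unity (PU); `η`: cut-off of the distance `dP` (Ctf). Owners: I2D, I3D, I4D, I8D helper74, helper55; I6D, IJPD, RIGD helper84; I7D helper93; IUWD helper62; UNDD helper99. If a statement has to be changed: tell helper11 at once.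
-/

set_option autoImplicit false

open scoped ContDiff Topology InnerProductSpace ENNReal ComplexConjugate
open MeasureTheory Filter Set

namespace Pool.Agent.VD

open Pool.Agent.RPQ (IsOp)
open Pool.Agent.VQ (CH perZ vz mZ qZ)
open Pool.Agent.VDE (UWLD FDX)

noncomputable section

variable {d : ℕ}

/-! ## Definitions -/

/-- eigenfunctions of the metric `e^(f') g` with frequency close to `R`; `f` = the model of `f'` which is used in the kernels -/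
structure EgD (Γ : Type) [Group Γ] [MulAction Γ (V d)] (B' : ℕ → ℕ → ℝ) (R : ℝ) (G : V d → V d →L[ℝ] V d) (f f' : V d → ℝ) (μ : ℝ) (φ : V d → ℂ) : Prop where
  sm : SmS Γ B' (R ^ (1 / 100 : ℝ)) R f
  sm' : SmS Γ B' (R ^ (1 / 100 : ℝ)) R f'
  cl : ∀ x, |f' x - f x| ≤ R ^ (-3 : ℝ)
  pos : 0 < μ
  mu : |Real.sqrt μ - R| ≤ R ^ (-(1 / 100) : ℝ)
  eig : Eigenfunction Γ (cfm f' G) μ φ

/-- the point of phase space of the universal covering which belongs to the index `y` -/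
def prY {Γ : Type} [Group Γ] [MulAction Γ (V d)] (y : YS Γ d) : P d := lft y.1 y.2

/-- chains of `N` big steps -/
def ChD {Γ : Type} [Group Γ] [MulAction Γ (V d)] (G : V d → V d →L[ℝ] V d) (Φ : ℝ → P d → P d) (r0 : ℝ) (A : Par) (R : ℝ) (N : ℕ) (w : ℕ → YS Γ d) : Prop := ∀ j < N, Reach G Φ r0 A R (w j) (w (j + 1))

/-- the point of the chain at the time `s` -/
def frD {Γ : Type} [Group Γ] [MulAction Γ (V d)] (Φ : ℝ → P d → P d) (t : ℝ) (w : ℕ → YS Γ d) (s : ℝ) : P d := Φ (s - ⌊s / t⌋₊ * t) (prY (w ⌊s / t⌋₊))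

/-- the phase of `f` along a chain of big steps of length `t` -/
def thD {Γ : Type} (Φ : ℝ → P d → P d) (f : V d → ℝ) (κ t : ℝ) (N : ℕ) (w : ℕ → YS Γ d) : ℝ := ∑ j ∈ Finset.range N, thP Φ f κ t (w j).2

/-- the two chains are not detected by `nc` of the bumps -/
def UndD {Γ : Type} (Φ : ℝ → P d → P d) {J : ℕ} (χ : Fin J → V d → ℝ) (κ t : ℝ) (N nc : ℕ) (w w' : ℕ → YS Γ d) : Prop := {a : Fin J | 1 ≤ |thD Φ (χ a) κ t N w - thD Φ (χ a) κ t N w'|}.ncard < nc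

/-! ## Block A (quantum) -/

/-- **(I2) contraction** (`f = 0` is allowed) -/
def I2D_stmt : Prop := ∀ (d : ℕ) (Γ : Type) [Group Γ] [MulAction Γ (V d)] (K : Set (V d)) (r0 : ℝ) (χ : V d → ℝ) (ch : ℝ → ℝ) (k : ℝ) (B B' : ℕ → ℕ → ℝ), 2 ≤ d → FdK Γ K → PU Γ r0 χ → CH ch → ∃ C : ℝ, 1 ≤ C ∧ ∀ A : Par, Adm C A → ∃ δ R0 : ℝ, 0 < δ ∧ 1 ≤ R0 ∧
  ∀ (R : ℝ) (G : V d → V d →L[ℝ] V d) (Φ : ℝ → P d → P d) (f : V d → ℝ), R0 ≤ R → Cls Γ K k B G → IsFlow G Φ → SmS Γ B' (R ^ (1 / 100 : ℝ)) R f →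
    ∀ T : Lp ℂ 2 ((mW Γ G r0 R).restrict (DT d {1})) →L[ℂ] Lp ℂ 2 ((mW Γ G r0 R).restrict (DT d {1})), IsOp ((mW Γ G r0 R).restrict (DT d {1})) (perZ Γ (KB G Φ r0 χ ch A R f)) T → ‖T‖ ≤ 1 + R ^ (-δ)

/-- **(I3) the fixed vector**, and the norm (the lower bound holds for the smaller window) -/
def I3D_stmt : Prop := ∀ (d : ℕ) (Γ : Type) [Group Γ] [MulAction Γ (V d)] (K F0 : Set (V d)) (r0 : ℝ) (χ : V d → ℝ) (ch : ℝ → ℝ) (k : ℝ) (B B' : ℕ → ℕ → ℝ), 2 ≤ d → FdK Γ K → FDX Γ K F0 → PU Γ r0 χ → CH ch → ∃ C : ℝ, 1 ≤ C ∧ ∀ A : Par, Adm C A → ∃ δ R0 : ℝ, 0 < δ ∧ 1 ≤ R0 ∧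
  ∀ (R : ℝ) (G : V d → V d →L[ℝ] V d) (Φ : ℝ → P d → P d) (f f' : V d → ℝ) (μ : ℝ) (φ : V d → ℂ), R0 ≤ R → Cls Γ K k B G → IsFlow G Φ → EgD Γ B' R G f f' μ φ →
    Measurable (QF (Γ := Γ) G χ ch A.z R φ) ∧ (∫⁻ y in DT d {1}, ‖QF G χ ch A.z R φ y‖ₑ ^ 2 ∂mW Γ G r0 R ≤ ENNReal.ofReal ((1 + R ^ (-δ)) * nn G F0 φ)) ∧
    (ENNReal.ofReal ((1 - R ^ (-δ)) * nn G F0 φ) ≤ ∫⁻ y in GW Γ G r0 1 R ∩ DT d {1}, ‖QF G χ ch A.z R φ y‖ₑ ^ 2 ∂mW Γ G r0 R) ∧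
    ∀ T : Lp ℂ 2 ((mW Γ G r0 R).restrict (DT d {1})) →L[ℂ] Lp ℂ 2 ((mW Γ G r0 R).restrict (DT d {1})), IsOp ((mW Γ G r0 R).restrict (DT d {1})) (perZ Γ (KB G Φ r0 χ ch A R f)) T →
      ∀ Ψ : Lp ℂ 2 ((mW Γ G r0 R).restrict (DT d {1})), (Ψ : YS Γ d → ℂ) =ᵐ[(mW Γ G r0 R).restrict (DT d {1})] QF G χ ch A.z R φ → ‖T Ψ - Ψ‖ ^ 2 ≤ R ^ (-δ) * nn G F0 φ

/-- **(I4) the big step kernel** is bounded, measurable, invariant, of finite range and sub-Markov; `rS` = a radius -/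
def I4D_stmt : Prop := ∀ (d : ℕ) (Γ : Type) [Group Γ] [MulAction Γ (V d)] (K : Set (V d)) (r0 : ℝ) (χ : V d → ℝ) (ch : ℝ → ℝ) (k : ℝ) (B : ℕ → ℕ → ℝ), 2 ≤ d → FdK Γ K → PU Γ r0 χ → CH ch → ∃ C rS : ℝ, 1 ≤ C ∧ ∀ A : Par, Adm C A → ∃ δ R0 : ℝ, 0 < δ ∧ 1 ≤ R0 ∧
  ∀ (R : ℝ) (G : V d → V d →L[ℝ] V d) (Φ : ℝ → P d → P d), R0 ≤ R → Cls Γ K k B G → IsFlow G Φ → KY (ub (Γ := Γ) G Φ r0 χ ch A R) ∧ (∀ y y' : YS Γ d, ‖ub G Φ r0 χ ch A R y y'‖ ≤ R ^ (2 * d)) ∧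
    (∀ y y' : YS Γ d, ub G Φ r0 χ ch A R y y' ≠ 0 → (∃ l : List Γ, l.length = A.n R + 1 ∧ (∀ γ ∈ l, γ ∈ SG Γ d rS) ∧ l.prod = y.1⁻¹ * y'.1) ∧ Reach G Φ r0 A R y y') ∧
    ∀ y : YS Γ d, ∫⁻ y', ‖ub G Φ r0 χ ch A R y y'‖ₑ ^ 2 ∂mW Γ G r0 R ≤ ENNReal.ofReal ((1 + R ^ (-δ)) * (R / (2 * Real.pi)) ^ d)

/-- **(I8) time averages** -/
def I8D_stmt : Prop := ∀ (d : ℕ) (Γ : Type) [Group Γ] [MulAction Γ (V d)] (K F0 : Set (V d)) (r0 : ℝ) (χ : V d → ℝ) (ch : ℝ → ℝ) (k : ℝ) (B B' : ℕ → ℕ → ℝ), 2 ≤ d → FdK Γ K → FDX Γ K F0 → PU Γ r0 χ → CH ch → ∃ C : ℝ, 1 ≤ C ∧ ∀ (A : Par) (h : V d → ℝ), Adm C A → TD Γ h → ∃ δ R0 : ℝ, 0 < δ ∧ 1 ≤ R0 ∧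
  ∀ (R : ℝ) (G : V d → V d →L[ℝ] V d) (Φ : ℝ → P d → P d) (f f' : V d → ℝ) (μ : ℝ) (φ : V d → ℂ), R0 ≤ R → Cls Γ K k B G → IsFlow G Φ → EgD Γ B' R G f f' μ φ →
    |(∫ x in F0, h x * ‖φ x‖ ^ 2 ∂mv G) - ∫ y in DT d {1}, avP Φ h (A.tu R) y.2 * ‖QF G χ ch A.z R φ y‖ ^ 2 ∂mW Γ G r0 R| ≤ R ^ (-δ) * nn G F0 φ

/-! ## Block B (dynamics) -/

/-- **(I6) energies** along a big step -/
def I6D_stmt : Prop := ∀ (d : ℕ) (Γ : Type) [Group Γ] [MulAction Γ (V d)] (K : Set (V d)) (r0 : ℝ) (k : ℝ) (B : ℕ → ℕ → ℝ), 2 ≤ d → FdK Γ K → 1 ≤ r0 → ∃ C : ℝ, 1 ≤ C ∧ ∀ A : Par, Adm C A → ∃ R0 : ℝ, 1 ≤ R0 ∧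
  ∀ (R : ℝ) (G : V d → V d →L[ℝ] V d) (Φ : ℝ → P d → P d), R0 ≤ R → Cls Γ K k B G → IsFlow G Φ → ∀ y y' : YS Γ d, Reach G Φ r0 A R y y' → y ∈ GW Γ G r0 2 R ∧ y' ∈ GW Γ G r0 2 R ∧ |Ep G y.2 - Ep G y'.2| ≤ R ^ (-(1 / 3) : ℝ)

/-- **(IJP) jumps** of the big steps -/
def IJPD_stmt : Prop := ∀ (d : ℕ) (Γ : Type) [Group Γ] [MulAction Γ (V d)] (K : Set (V d)) (r0 : ℝ) (η : V d → ℝ) (k : ℝ) (B : ℕ → ℕ → ℝ), 2 ≤ d → FdK Γ K → 1 ≤ r0 → Ctf K η → ∃ C : ℝ, 1 ≤ C ∧ ∀ A : Par, Adm C A → ∃ R0 : ℝ, 1 ≤ R0 ∧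
  ∀ (R : ℝ) (G : V d → V d →L[ℝ] V d) (Φ : ℝ → P d → P d), R0 ≤ R → Cls Γ K k B G → IsFlow G Φ → ∀ y y' : YS Γ d, Reach G Φ r0 A R y y' → dP Γ η (Φ (A.tu R) (prY y)) (prY y') ≤ R ^ (-(1 / 5) : ℝ)

/-- **(RIG) rigidity** of chains of big steps with the same ends which stay close: the vertices are within `R^(-1/2 + C z2)` of each other. -/
def RIGD_stmt : Prop := ∀ (d : ℕ) (Γ : Type) [Group Γ] [MulAction Γ (V d)] (K : Set (V d)) (r0 : ℝ) (η : V d → ℝ) (k : ℝ) (B : ℕ → ℕ → ℝ), 2 ≤ d → FdK Γ K → 1 ≤ r0 → Ctf K η → ∃ C eps : ℝ, 1 ≤ C ∧ 0 < eps ∧ ∀ (A : Par) (N : ℕ), Adm C A → 1 ≤ N → ∃ R0 : ℝ, 1 ≤ R0 ∧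
  ∀ (R : ℝ) (G : V d → V d →L[ℝ] V d) (Φ : ℝ → P d → P d), R0 ≤ R → Cls Γ K k B G → IsFlow G Φ → ∀ w w' : ℕ → YS Γ d, ChD G Φ r0 A R N w → ChD G Φ r0 A R N w' → w' 0 = w 0 → w' N = w N →
    (∀ s : ℝ, 0 ≤ s → s < N * A.tu R → dP Γ η (frD Φ (A.tu R) w s) (frD Φ (A.tu R) w' s) ≤ eps) → ∀ j ≤ N, dP Γ η (prY (w j)) (prY (w' j)) ≤ R ^ (-(1 / 2) + C * A.z2)

/-- **(I7) large deviations** for the chain of big steps; `b` = number of big steps in one block, a block has a length between `cb log R` and `2 cb log R` -/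
def I7D_stmt : Prop := ∀ (d : ℕ) (Γ : Type) [Group Γ] [MulAction Γ (V d)] (K F0 : Set (V d)) (r0 : ℝ) (χ : V d → ℝ) (ch : ℝ → ℝ) (k : ℝ) (B : ℕ → ℕ → ℝ), 2 ≤ d → FdK Γ K → FDX Γ K F0 → PU Γ r0 χ → CH ch → ∃ C cb : ℝ, 1 ≤ C ∧ 0 < cb ∧ ∀ (h : V d → ℝ) (e : ℝ), TD Γ h → 0 < e → ∃ v0 : ℝ, 0 < v0 ∧
  ∀ T0 e2 : ℝ, 1 ≤ T0 → 0 < e2 → e2 ≤ 1 / C → e2 ≤ cb → ∃ th z0 : ℝ, 0 < th ∧ 0 < z0 ∧ ∀ A : Par, Adm C A → A.e2 = e2 → A.z2 ≤ z0 → ∃ R0 : ℝ, 1 ≤ R0 ∧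
    ∀ (R : ℝ) (G : V d → V d →L[ℝ] V d) (Φ : ℝ → P d → P d) (b : ℕ), R0 ≤ R → Cls Γ K k B G → IsFlow G Φ → UWLD F0 G Φ h (e / 100) v0 T0 → cb * Real.log R ≤ b * A.tu R → b * A.tu R ≤ 2 * cb * Real.log R →
      ∀ y : YS Γ d, y ∈ GW Γ G r0 (5 / 4) R → qZ (mW Γ G r0 R) (fun x y => ‖ub G Φ r0 χ ch A R x y‖ₑ) b ((BadP Γ G Φ F0 h e (A.tu R)).indicator (fun _ => 1)) y ≤ ENNReal.ofReal (R ^ (-th) * ((R / (2 * Real.pi)) ^ d) ^ b)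

/-! ## Block U (detection) -/

/-- **UND**: the undetected chains. For every chain `w` from `x` the total volume of the chains from `x` to the points of the orbit of `y` which are not detected against `w`. `Cn` = the constants of the net of bumps. -/
def UNDD_stmt : Prop := ∀ (d : ℕ) (Γ : Type) [Group Γ] [MulAction Γ (V d)] (K : Set (V d)) (r0 : ℝ) (k : ℝ) (B : ℕ → ℕ → ℝ) (Cn : Set (V d) → ℕ → ℝ), 2 ≤ d → FdK Γ K → 1 ≤ r0 → ∃ C : ℝ, 1 ≤ C ∧ ∀ (A : Par) (N : ℕ) (M1 : ℝ), Adm C A → 1 ≤ N → 1 ≤ M1 → ∃ a R0 : ℝ, 1 ≤ a ∧ 3 ≤ R0 ∧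
  ∀ (R ρ κ : ℝ) (J : ℕ) (p : Fin J → V d) (χ : Fin J → V d → ℝ) (G : V d → V d →L[ℝ] V d) (Φ : ℝ → P d → P d), R0 ≤ R → 0 < ρ → ρ ≤ (Real.log R) ^ (-(2 * a + 2)) → C / ρ ≤ |κ| → NetD Γ K Cn ρ J p χ → Cls Γ K k B G → IsFlow G Φ → ∃ nc : ℕ, ((9 : ℝ) / 10) ^ nc ≤ R ^ (-M1) ∧
    ∀ N' : ℕ, 1 ≤ N' → N' ≤ N → ∀ (x y : YS Γ d) (w : ℕ → YS Γ d), w 0 = x → ChD G Φ r0 A R N' w →
      ∑' γ : Γ, mZ (mW Γ G r0 R) (N' - 1) {v' | ChD G Φ r0 A R N' (vz x (γ • y) v') ∧ UndD Φ χ κ (A.tu R) N' nc w (vz x (γ • y) v')} ≤ ENNReal.ofReal (R ^ (1 / 8 : ℝ) * (R ^ (-d + C * A.z2)) ^ (N' - 1))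

/-! ## Block E (ergodicity) -/

/-- **the uniform weak law**: for the limit metric, and its stability under small changes of the metric -/
def IUWD_stmt : Prop := ∀ (d : ℕ) (Γ : Type) [Group Γ] [MulAction Γ (V d)] (K F0 : Set (V d)) (k : ℝ) (B : ℕ → ℕ → ℝ) (G : V d → V d →L[ℝ] V d) (h : V d → ℝ) (e v0 : ℝ), 2 ≤ d → FdK Γ K → FDX Γ K F0 → Cls Γ K k B G → TD Γ h → 0 < e → 0 < v0 →
  ∃ (T0 m : ℕ) (s : ℝ), 1 ≤ T0 ∧ 0 < s ∧ ∀ (G' : V d → V d →L[ℝ] V d) (Φ' : ℝ → P d → P d), IsMetric G' → IsFlow G' Φ' → (∀ (n : ℕ) (x : V d), n ≤ 1 → ‖x‖ ≤ m → ‖iteratedFDeriv ℝ n (fun y => G y - G' y) x‖ ≤ s) → UWLD F0 G' Φ' h e v0 T0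

end

end Pool.Agent.VD
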