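import Pool.Agent.helper11.VD.Spec3d

/-!
# Project VD (MP_07c750_an, quantum unique ergodicity in every dimension), block C, part 3: one word, one frequency, Borel-Cantelli, the end; rows `vd:X`

Every row is an ADAPTATION of the row of VN / VQ which is named in its docstring (same proof, other constants). Index set: `YS Γ d = Γ × P d`, `Γ` acts on the first factor only, so every function of `y.2` is invariant.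

RULES. Row `vd:XXX`: file `Pool/Agent/<seat>/VD/XXX.lean`, `import Pool.Agent.helper11.VD.Spec3e`, `set_option autoImplicit false`, namespace `Pool.Agent.VD`, the `open` lines of this file, auxiliary lemmas prefixed `XXX_`, theorem `XXX_proof (h..) : XXX_stmt` (rows listed in `from` may be used as hypotheses
`(h : YYY_stmt)`; rows of RPQ, VQ, VN as `(h : VQ.YYY_stmt)` etc.; proved files may be imported). No `convert`, `congr!`, `native_decide`, no double quotes, no `private`, no commands starting with a sharp sign.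
-/

set_option autoImplicit false

open scoped ContDiff Topology InnerProductSpace ENNReal ComplexConjugate
open MeasureTheory Filter Set

namespace Pool.Agent.VD

open Pool.Agent.RPQ (PN PJ UN upd IsOp nst)
open Pool.Agent.VQ (CH PS KZ perZ cmZ stZ wdZ InvS AdZ vz mZ wM qZ phZ rk)
open Pool.Agent.VN (aN)
open Pool.Agent.VDE (UWLD FDX)

noncomputable section

variable {d : ℕ}

/-! ## Measurability, windows -/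

/-- **Row KZD** (short). `range`: the finite set `S` of `KY.range` gives `T = max of L over S`. `inv`, `bdd`, `meas` are the same. -/
def KZD_stmt : Prop := ∀ (d : ℕ) (Γ : Type) [Group Γ] (L : Γ → ℕ) (u : YS Γ d → YS Γ d → ℂ), KY u → KZ Γ (dYS L) u

/-- **Row MTD** (short-medium; from GXH). The flow is jointly continuous, `f` is continuous: the integrals over `[0, t]` are continuous in `p` (`intervalIntegral.continuous_parametric_intervalIntegral_of_continuous'`). `Ep` is continuous (GXH). A continuous function of `y.2` is measurable on `YS Γ d` (`measurable_snd` for the product with the discrete σ-algebra, `instMSYS`). Invariance: `(γ • y).2 = y.2`. -/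
def MTD_stmt : Prop := ∀ (d : ℕ) (Γ : Type) [Group Γ] (G : V d → V d →L[ℝ] V d) (Φ : ℝ → P d → P d) (F0 : Set (V d)) (f : V d → ℝ) (r0 R t e c : ℝ), IsMetric G → IsFlow G Φ → Continuous f →
  Continuous (thP Φ f R t) ∧ Continuous (avP Φ f t) ∧ Continuous (Ep G) ∧ (∀ g : P d → ℝ, Continuous g → Measurable fun y : YS Γ d => g y.2) ∧
  MeasurableSet (GW Γ G r0 c R) ∧ MeasurableSet (BadP Γ G Φ F0 f e t) ∧ InvS Γ (GW Γ G r0 c R) ∧ InvS Γ (BadP Γ G Φ F0 f e t) ∧ MeasurableSet {p : P d | ‖p.1‖ ≤ r0 ∧ |Ep G p| ≤ c * R ^ (-(1 / 4) : ℝ)}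

/-- **Row VLD** (volume of the window, uniform in the class; short; from GNR, GXH). `|Ep| ≤ 2` gives `nrm² ≤ 5`, so `‖p.2‖ ≤ C √5` (GNR for a natural number `m ≥ r0`): the window is contained in a product of two balls. -/
def VLD_stmt : Prop := ∀ (d : ℕ) (Γ : Type) [Group Γ] [MulAction Γ (V d)] (K : Set (V d)) (k : ℝ) (B : ℕ → ℕ → ℝ) (r0 : ℝ), ∃ C : ℝ, 1 ≤ C ∧ ∀ (G : V d → V d →L[ℝ] V d) (R : ℝ), 1 ≤ R → Cls Γ K k B G →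
  volume {p : P d | ‖p.1‖ ≤ r0 ∧ |Ep G p| ≤ 2 * R ^ (-(1 / 4) : ℝ)} ≤ ENNReal.ofReal C

/-- **Row MVE** (the Riemannian volume; short; `Continuous (dens G)`, `0 < dens G`: the determinant is continuous and positive, compare SMG in helper62/VD/SpecE2.lean). `integral_withDensity_eq_integral_smul`, `withDensity_apply`. -/
def MVE_stmt : Prop := ∀ (d : ℕ) (G : V d → V d →L[ℝ] V d), IsMetric G → Continuous (dens G) ∧ (∀ x, 0 < dens G x) ∧ (∀ (F : Set (V d)) (g : V d → ℝ), MeasurableSet F → ∫ x in F, g x ∂mv G = ∫ x in F, g x * dens G x) ∧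
  (∀ (F : Set (V d)) (b : ℝ), MeasurableSet F → (∀ x ∈ F, ‖x‖ ≤ b) → mv G F < ⊤ ∧ (mv G F).toReal = ∫ x in F, dens G x) ∧ ∀ (F : Set (V d)) (h : V d → ℝ), MeasurableSet F → (∀ x, 0 ≤ h x ∧ h x ≤ 1) → 0 ≤ mean G F h ∧ mean G F h ≤ 1

/-- **Row NNC** (conformal change of norms and means; short-medium; from MVE). `dens (cfm f G) x = exp (d f x / 2) dens G x` (`det (c • A) = c^d det A`), `|exp (d f/2) - 1| ≤ C η`. Means: `|a'/b' - a/b| ≤ |a' - a|/b' + a |b' - b|/(b b')` with `0 ≤ a ≤ b`, `b' ≥ (1 - C η) b` (for `C η ≥ 1/2` trivial: both means are in `[0, 1]`; if `b = 0` then `b' = 0` and both means are `0`). `φ` is continuous, so integrable on the bounded set `F`. -/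
def NNC_stmt : Prop := ∀ d : ℕ, ∃ C : ℝ, 1 ≤ C ∧ ∀ (G : V d → V d →L[ℝ] V d) (f h : V d → ℝ) (φ : V d → ℂ) (F : Set (V d)) (b η : ℝ), IsMetric G → ContDiff ℝ ∞ f → 0 ≤ η → η ≤ 1 → (∀ x, |f x| ≤ η) → MeasurableSet F → (∀ x ∈ F, ‖x‖ ≤ b) →
  Continuous φ → Continuous h → (∀ x, 0 ≤ h x ∧ h x ≤ 1) →
    |(∫ x in F, h x * ‖φ x‖ ^ 2 ∂mv (cfm f G)) - ∫ x in F, h x * ‖φ x‖ ^ 2 ∂mv G| ≤ C * η * nn G F φ ∧ |nn (cfm f G) F φ - nn G F φ| ≤ C * η * nn G F φ ∧ |mean (cfm f G) F h - mean G F h| ≤ C * η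

/-! ## One word -/

/-- The hypotheses for the words of at most `N` big steps at the frequency `R` (compare `VN.VHN`). -/
structure VHD (Γ : Type) [Group Γ] [MulAction Γ (V d)] (G : V d → V d →L[ℝ] V d) (Φ : ℝ → P d → P d) (r0 : ℝ) (χ0 : V d → ℝ) (ch : ℝ → ℝ) (A : Par) (R θ ζ c0 M0 : ℝ) (N b nc J : ℕ) (χ : Fin J → V d → ℝ) (κ : ℝ) (S : Set (YS Γ d)) : Prop where
  ker : KY (ub (Γ := Γ) G Φ r0 χ0 ch A R)
  bd : ∀ y y' : YS Γ d, ‖ub G Φ r0 χ0 ch A R y y'‖ ≤ R ^ (2 * d)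
  rng : ∃ S0 : Finset Γ, (S0.card : ℝ) ≤ R ∧ ∀ y y' : YS Γ d, ub G Φ r0 χ0 ch A R y y' ≠ 0 → y.1⁻¹ * y'.1 ∈ S0
  rch : ∀ y y' : YS Γ d, ub G Φ r0 χ0 ch A R y y' ≠ 0 → Reach G Φ r0 A R y y'
  row : ∀ y : YS Γ d, ∫⁻ y', ‖ub G Φ r0 χ0 ch A R y y'‖ₑ ^ 2 ∂mW Γ G r0 R ≤ ENNReal.ofReal c0
  c0 : (R / (2 * Real.pi)) ^ d ≤ c0 ∧ c0 ≤ R ^ d
  jmp : ∀ y y' : YS Γ d, Reach G Φ r0 A R y y' → y ∈ GW Γ G r0 2 R ∧ y' ∈ GW Γ G r0 2 R ∧ |Ep G y.2 - Ep G y'.2| ≤ R ^ (-(1 / 4) : ℝ) / (4 * N)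
  loss : 0 ≤ ζ ∧ N * ζ ≤ 1 / 4
  ld : ∀ y : YS Γ d, y ∈ GW Γ G r0 (5 / 4) R → qZ (mW Γ G r0 R) (fun x y => ‖ub G Φ r0 χ0 ch A R x y‖ₑ) b (S.indicator (fun _ => 1)) y ≤ ENNReal.ofReal (R ^ (-θ) * ((R / (2 * Real.pi)) ^ d) ^ b)
  und : ∀ N' : ℕ, 1 ≤ N' → N' ≤ N → ∀ (x y : YS Γ d) (w : ℕ → YS Γ d), w 0 = x → ChD G Φ r0 A R N' w →
    ∑' γ : Γ, mZ (mW Γ G r0 R) (N' - 1) {v' | ChD G Φ r0 A R N' (vz x (γ • y) v') ∧ UndD Φ χ κ (A.tu R) N' nc w (vz x (γ • y) v')} ≤ ENNReal.ofReal (R ^ (1 / 8 : ℝ) * (R ^ (-d + ζ)) ^ (N' - 1))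
  nc1 : ((9 : ℝ) / 10) ^ nc ≤ R ^ (-((4 * d + 6) * N + M0 + 10))

/-- **Row WXD** (the second moment of one word; medium; compare helper5/VN/WXN.lean; from WXA, PSY, SBY, KZD, MTD, VLD, LEN, CTD, VQ.KSZ). WXA for `YS Γ d`, `m = mW Γ G r0 R` (`= mWW Γ {p | ‖p.1‖ ≤ r0 ∧ |Ep G p| ≤ 2 R^(-1/4)}`, definitionally), `D = DT d {1}`, `dYS L`, `u = stZ W' ub` (`‖u‖ = ‖ub‖`), `θ a y = thP Φ (χ a) κ (A.tu R) y.2`,
`G j = GW Γ G r0 (1 + j/(4N)) R` (`jmp`), `c = ofReal c0`, `q = ofReal (R^(-θ))` (`c0 ≥ (R/2π)^d`), `κ(WXA) = ofReal (R^(1/8) (R^(-d+ζ))^(N'-1))`, `N' = nst l` (`wM ≠ 0` gives `ChD` by `rch`; `phZ θ l w a = thD ..`). `Sx`: SBY with `Bu = ofReal (R^(2d))`, `S0` of `rng`, `volume W ≤ C ≤ R`: `Sx = ofReal (R^((2d+3) N))`.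
Result: `R^(1/8) R^((-d+ζ)(N'-1)) R^(d N') R^(-θ L) C ≤ C R^(d + 3/8 - θ L) ≤ R^(-M0)/2` and `(9/10)^nc Sx² C² ≤ R^(-(4d+6)N - M0 - 10) R^((4d+6)N) C²`. -/
def WXD_stmt : Prop := ∀ (d : ℕ) (Γ : Type) [Group Γ] [MulAction Γ (V d)] (K : Set (V d)) (r0 k : ℝ) (B : ℕ → ℕ → ℝ) (N : ℕ) (M0 : ℝ), 2 ≤ d → FdK Γ K → 1 ≤ N → 0 ≤ M0 → ∃ R0 : ℝ, 3 ≤ R0 ∧
  ∀ (G : V d → V d →L[ℝ] V d) (Φ : ℝ → P d → P d) (χ0 : V d → ℝ) (ch : ℝ → ℝ) (A : Par) (R θ ζ c0 : ℝ) (b L n nc J : ℕ) (χ : Fin J → V d → ℝ) (κ : ℝ) (S S' : Set (YS Γ d)) (W' : YS Γ d → ℝ) (l : List ℕ), R0 ≤ R → Cls Γ K k B G → IsFlow G Φ → (∀ a, Continuous (χ a)) →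
    VHD Γ G Φ r0 χ0 ch A R θ ζ c0 M0 N b nc J χ κ S → MeasurableSet S' → InvS Γ S' → (∀ y ∈ S', y ∈ S ∧ y ∈ GW Γ G r0 1 R) → Measurable W' → (∀ (γ : Γ) (y : YS Γ d), W' (γ • y) = W' y) →
    1 ≤ b → 1 ≤ L → l ∈ AdZ b L n → nst l ≤ N → 0 < θ → M0 + d + 2 ≤ θ * L →
      ∫⁻ ξ, ∫⁻ x in DT d {1}, ∫⁻ y in DT d {1}, ‖perZ Γ (wdZ (mW Γ G r0 R) (stZ (fun y => ∑ a, ξ a * thP Φ (χ a) κ (A.tu R) y.2) (stZ W' (ub G Φ r0 χ0 ch A R))) S' l) x y‖ₑ ^ 2 ∂mW Γ G r0 R ∂mW Γ G r0 R ∂PJ J ≤ ENNReal.ofReal (R ^ (-M0))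

/-! ## One frequency -/

/-- the square of the Hilbert-Schmidt norm of a word -/
def HSD (Γ : Type) [Group Γ] [MulAction Γ (V d)] (G : V d → V d →L[ℝ] V d) (Φ : ℝ → P d → P d) (r0 : ℝ) (χ0 : V d → ℝ) (ch : ℝ → ℝ) (A : Par) (R : ℝ) (f : V d → ℝ) (S : Set (YS Γ d)) (l : List ℕ) : ENNReal :=
  ∫⁻ x in DT d {1}, ∫⁻ y in DT d {1}, ‖perZ Γ (wdZ (mW Γ G r0 R) (KB G Φ r0 χ0 ch A R f) S l) x y‖ₑ ^ 2 ∂mW Γ G r0 R ∂mW Γ G r0 R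

/-- the bad part of the window -/
def SBD (Γ : Type) (G : V d → V d →L[ℝ] V d) (Φ : ℝ → P d → P d) (r0 : ℝ) (F0 : Set (V d)) (h : V d → ℝ) (e t R : ℝ) : Set (YS Γ d) := BadP Γ G Φ F0 h e t ∩ GW Γ G r0 1 R

/-- **Row DTD** (deterministic part; short-medium; compare helper98/VN/DTN.lean; from DTA, I2D, I3D, I4D, I8D, PSY, KZD, MTD, MVE, LEN, CTD, VQ.KSZ). DTA with `Φ = QF φ`, `av y = avP Φ h (A.tu R) y.2 ∈ [0, 1]`, `W = GW 1`, `S = SBD`, `N0 = nn G F0 φ`, `I0 = ∫_F0 h |φ|² dmv`, `mn = mean G F0 h`, `K = KB` (`= stZ (-thP) ub`, KSZ), `R^(-δ) ≤ δ'`. -/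
def DTD_stmt : Prop := ∀ (d : ℕ) (Γ : Type) [Group Γ] [MulAction Γ (V d)] (K F0 : Set (V d)) (r0 : ℝ) (χ0 : V d → ℝ) (ch : ℝ → ℝ) (k : ℝ) (B B' : ℕ → ℕ → ℝ), 2 ≤ d → FdK Γ K → FDX Γ K F0 → PU Γ r0 χ0 → CH ch → ∃ C : ℝ, 1 ≤ C ∧
  ∀ (A : Par) (h : V d → ℝ) (e : ℝ) (b L n : ℕ), Adm C A → TD Γ h → 0 < e → 1 ≤ b → 1 ≤ L → 1 ≤ n → ∃ δ' R0 : ℝ, 0 < δ' ∧ 1 ≤ R0 ∧
    ∀ (R : ℝ) (G : V d → V d →L[ℝ] V d) (Φ : ℝ → P d → P d) (f f' : V d → ℝ) (μ : ℝ) (φ : V d → ℂ), R0 ≤ R → Cls Γ K k B G → IsFlow G Φ → EgD Γ B' R G f f' μ φ →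
      (∀ l ∈ AdZ b L n, HSD Γ G Φ r0 χ0 ch A R f (SBD Γ G Φ r0 F0 h e (A.tu R) R) l ≤ ENNReal.ofReal (δ' ^ 2)) →
      |(∫ x in F0, h x * ‖φ x‖ ^ 2 ∂mv G) - mean G F0 h * nn G F0 φ| ≤ (4 * e + (2 * L + 1) / n) * nn G F0 φ

/-- **Row VHPD** (choice of the parameters; medium; compare the file of VHPN (helper83/VN/VHPN.lean); from I4D, I6D, I7D, UNDD, ASGF). `C'` = the maximum of the given `C` and of the constants of I4D, I6D, I7D, UNDD. `v0`, `cb` from I7D (for `h`, `e`). `SG Γ d rS` is finite (ASGF or `FdK.proper` for the closed ball), of cardinality `s`. `e2 ≤ 1/C'`, `e2 ≤ cb`, `e2 log (1 + s) ≤ 1/2` (so the number of the products of `n R + 1` elements of `SG` is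
`≤ (1 + s)^(e2 log R + 1) ≤ R`), `b = ⌈cb/e2⌉` (`cb ≤ b e2 < cb + e2 ≤ 2 cb`), `θ, z0` from I7D, `L = ⌈(M0 + d + 2)/θ⌉ + 1`, `n = ⌈(2L+1)/e⌉ + 1`, `N = b n L`, `z2 = min (z0, 1/C', 1/(4 N C'))`, `z1 = z2/C'`, `z = z1/C'`, `ζ = C(UNDD) z2`, `c0 = (1 + R^(-δ)) (R/2π)^d`; UNDD with `M1 = (4d+6) N + M0 + 10`; `C2` = the constant of UNDD. `jmp`: `R^(-1/3) ≤ R^(-1/4)/(4N)`. -/
def VHPD_stmt : Prop := ∀ (d : ℕ) (Γ : Type) [Group Γ] [MulAction Γ (V d)] (K F0 : Set (V d)) (r0 : ℝ) (χ0 : V d → ℝ) (ch : ℝ → ℝ) (k : ℝ) (B : ℕ → ℕ → ℝ) (Cn : Set (V d) → ℕ → ℝ), 2 ≤ d → FdK Γ K → FDX Γ K F0 → PU Γ r0 χ0 → CH ch → ∀ (h : V d → ℝ) (e : ℝ), TD Γ h → 0 < e → ∃ v0 : ℝ, 0 < v0 ∧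
  ∀ C T0 M0 : ℝ, 1 ≤ C → 1 ≤ T0 → 0 ≤ M0 → ∃ (θ : ℝ) (b L n N : ℕ) (A : Par) (a R0 C2 : ℝ), 0 < θ ∧ 1 ≤ b ∧ 1 ≤ L ∧ 1 ≤ n ∧ 1 ≤ N ∧ (2 * (L : ℝ) + 1) / n ≤ e ∧ M0 + d + 2 ≤ θ * L ∧ Adm C A ∧
    (∀ l ∈ AdZ b L n, nst l ≤ N) ∧ 1 ≤ a ∧ 3 ≤ R0 ∧ 1 ≤ C2 ∧ ∀ (R ρ κ : ℝ) (J : ℕ) (p : Fin J → V d) (χ : Fin J → V d → ℝ) (G : V d → V d →L[ℝ] V d) (Φ : ℝ → P d → P d), R0 ≤ R → 0 < ρ → ρ ≤ (Real.log R) ^ (-(2 * a + 2)) → C2 / ρ ≤ |κ| → NetD Γ K Cn ρ J p χ →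
      Cls Γ K k B G → IsFlow G Φ → UWLD F0 G Φ h (e / 100) v0 T0 → ∃ (ζ c0 : ℝ) (nc : ℕ), VHD Γ G Φ r0 χ0 ch A R θ ζ c0 M0 N b nc J χ κ (BadP Γ G Φ F0 h e (A.tu R))

/-- the conclusion for one metric `e^f g` and one test function: all eigenfunctions with frequency close to `R`, all metrics `e^(f') g` with `f'` close to `f` -/
def GdD (Γ : Type) [Group Γ] [MulAction Γ (V d)] (B' : ℕ → ℕ → ℝ) (F0 : Set (V d)) (h : V d → ℝ) (e R : ℝ) (G : V d → V d →L[ℝ] V d) (f : V d → ℝ) : Prop := ∀ (f' : V d → ℝ) (μ : ℝ) (φ : V d → ℂ), SmS Γ B' (R ^ (1 / 100 : ℝ)) R f' → (∀ x, |f' x - f x| ≤ R ^ (-3 : ℝ)) →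
  0 < μ → |Real.sqrt μ - R| ≤ R ^ (-(1 / 100) : ℝ) → Eigenfunction Γ (cfm f' G) μ φ → |(∫ x in F0, h x * ‖φ x‖ ^ 2 ∂mv G) - mean G F0 h * nn G F0 φ| ≤ e * nn G F0 φ

/-- **Row PRD** (one frequency; short-medium; compare helper75/VQ/PRV.lean and the file of PRN in VN; from DTD, VHPD, WXD, VQ.PIZ, VQ.KSZ, PSY, KZD, MTD, LEN, CTD, RPQ.SNC). `e' = e/8`: `4 e' + (2L+1)/n ≤ 5 e'`. VHPD for `e'`, `C` from DTD, `M0 + 1`. `κ = -(R s)`. For `|ξ j| ≤ 1` (almost all `ξ`: SNC) `f = W + s VF χ ξ` is in `SmS` (hypothesis; `ξ = 0`: `W` is continuous).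
`KB f = stZ (fun y => ∑ a, ξ a * thP Φ (χ a) κ τ y.2) (stZ (fun y => -thP Φ W R τ y.2) ub)` (linearity of the integral). For `l ∈ AdZ b L n` (a finite set, independent of `R`) `G_l ξ` = the second moment of WXD, measurable (PIZ, with `letI : MeasurableSpace Γ := ⊤`), `∫ G_l ≤ R^(-(M0+1))` (WXD with `S' = SBD`). Markov: `PJ {G_l > δ'²} ≤ δ'^(-2) R^(-(M0+1))`; sum over `l`; outside: DTD. -/
def PRD_stmt : Prop := ∀ (d : ℕ) (Γ : Type) [Group Γ] [MulAction Γ (V d)] (K F0 : Set (V d)) (r0 : ℝ) (χ0 : V d → ℝ) (ch : ℝ → ℝ) (k : ℝ) (B B' : ℕ → ℕ → ℝ) (Cn : Set (V d) → ℕ → ℝ), 2 ≤ d → FdK Γ K → FDX Γ K F0 → PU Γ r0 χ0 → CH ch → ∀ (h : V d → ℝ) (e : ℝ), TD Γ h → 0 < e → ∃ v0 : ℝ, 0 < v0 ∧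
  ∀ T0 M0 : ℝ, 1 ≤ T0 → 0 ≤ M0 → ∃ a R0 C2 : ℝ, 1 ≤ a ∧ 3 ≤ R0 ∧ 1 ≤ C2 ∧ ∀ (R ρ s : ℝ) (J : ℕ) (p : Fin J → V d) (χ : Fin J → V d → ℝ) (W : V d → ℝ) (G : V d → V d →L[ℝ] V d) (Φ : ℝ → P d → P d), R0 ≤ R → 0 < ρ → ρ ≤ (Real.log R) ^ (-(2 * a + 2)) →
    C2 / ρ ≤ R * s → NetD Γ K Cn ρ J p χ → Cls Γ K k B G → IsFlow G Φ → UWLD F0 G Φ h (e / 800) v0 T0 → (∀ ξ : Fin J → ℝ, (∀ a, |ξ a| ≤ 1) → SmS Γ B' (R ^ (1 / 100 : ℝ)) R (fun x => W x + s * VF χ ξ x)) →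
      PJ J {ξ | ¬ GdD Γ B' F0 h e R G (fun x => W x + s * VF χ ξ x)} ≤ ENNReal.ofReal (R ^ (-M0))

/-! ## Borel-Cantelli -/

/-- **Row BC1D** (one frequency; medium; adaptation of the file of BC1N (VN); from PRD, TLD, GFL, VN.GIN, VQ.RND, VQ.RSB). `R = √i`, `K'`, from GIN (`a`, `C2` from PRD for `M0 = 5`, `B' = Bs` of TLD, `R ≥ R0`), `ρ = rk K'`, `s = aN K'`; RND with `M ≥ R^10`: `T`, `r`, `v`. For `b ∈ T`: `G_b = cfm (bD χ K' (v b)) G0`,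
`E b = {ξ | ¬ GdD Γ Bs F0 h e R G_b (fun x => wD χ K' (v b) x + aN K' * VF (χ K') ξ x)}` if `Cls Γ K k B G_b` and the weak law hold (GFL gives a flow), `∅` otherwise: `PJ (E b) ≤ R^(-5)` (PRD; the hypothesis `SmS` is TLD (1)). RSB. For `ζ` in the set of the statement put `f' = rD χ ζ - bD χ K' (v ζ)` (TLD (2), (3)): `cfm f' (cfm (bD χ K' (v ζ)) G0) = cfm (rD χ ζ) G0`, so `ζ` is in the exceptional set. -/
def BC1D_stmt : Prop := ∀ (d : ℕ) (Γ : Type) [Group Γ] [MulAction Γ (V d)] (K F0 : Set (V d)) (r0 : ℝ) (χ0 : V d → ℝ) (ch : ℝ → ℝ) (Cn : Set (V d) → ℕ → ℝ) (k0 : ℕ) (J : ℕ → ℕ) (p : (k : ℕ) → Fin (J k) → V d) (χ : (k : ℕ) → Fin (J k) → V d → ℝ) (G0 : V d → V d →L[ℝ] V d) (k : ℝ) (B : ℕ → ℕ → ℝ),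
  2 ≤ d → FdK Γ K → FDX Γ K F0 → PU Γ r0 χ0 → CH ch → FamD Γ K Cn k0 J p χ → IsMetric G0 → ∀ (h : V d → ℝ) (e : ℝ), TD Γ h → 0 < e → ∃ v0 : ℝ, 0 < v0 ∧
    ∀ T0 : ℝ, 1 ≤ T0 → ∃ i0 : ℕ, ∀ i : ℕ, i0 ≤ i → ∃ (K' : ℕ) (v : (ℕ × ℕ → ℝ) → ℕ × ℕ → ℝ), 2 ^ K' ≤ Real.sqrt i ∧ Real.sqrt i ≤ 2 ^ (K' + 1) ∧ (∀ ζ q, |v ζ q| ≤ 1) ∧
      (∀ ζ : ℕ × ℕ → ℝ, (∀ q, |ζ q| ≤ 1) → ∀ q : ℕ × ℕ, q.1 ≤ 4 * K' → q.1 ≠ K' → q.2 < J q.1 → |v ζ q - ζ q| ≤ Real.sqrt i ^ (-10 : ℝ)) ∧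
      PN {ζ | (∀ q, |ζ q| ≤ 1) ∧ Cls Γ K k B (cfm (bD χ K' (v ζ)) G0) ∧ (∀ Φ : ℝ → P d → P d, IsFlow (cfm (bD χ K' (v ζ)) G0) Φ → UWLD F0 (cfm (bD χ K' (v ζ)) G0) Φ h (e / 800) v0 T0) ∧
        ∃ (μ : ℝ) (φ : V d → ℂ), 0 < μ ∧ |Real.sqrt μ - Real.sqrt i| ≤ Real.sqrt i ^ (-(1 / 100) : ℝ) ∧ Eigenfunction Γ (cfm (rD χ ζ) G0) μ φ ∧
          e * nn (cfm (bD χ K' (v ζ)) G0) F0 φ < |(∫ x in F0, h x * ‖φ x‖ ^ 2 ∂mv (cfm (bD χ K' (v ζ)) G0)) - mean (cfm (bD χ K' (v ζ)) G0) F0 h * nn (cfm (bD χ K' (v ζ)) G0) F0 φ|} ≤ ENNReal.ofReal ((i : ℝ) ^ (-2 : ℝ))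

/-- **Row BC2D** (Borel-Cantelli; medium; adaptation of the file of BC2N (VN, helper38/VQ/BC2.lean); from BC1D, IUWD, SED, POD, CFC, NNC, GFL, RPQ.RSM). `b` = the bounds of SED on the balls of radius `m`, `B` from POD for `b`. BC1D with `e/2` for all `k = 1/q`, `T0 ∈ ℕ`: countably many; almost every `ζ` is in only finitely many bad sets for each of them. Let `ζ` be such, `|ζ q| ≤ 1`, `cfm (rD χ ζ) G0` negatively curved: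
POD gives `q`, `s` (so `cfm (rD χ ζ) G0` and, by SED (3) on `K`, all `cfm (bD χ K' (v ζ)) G0` with `K'` large are in `Cls Γ K (1/q) B`); `v0` from BC1D for this `k`; IUWD with `e/1600` gives `T0`, `m`, `s'`, and CFC with SED (3) on the closed ball of radius `m` gives the closeness of the metrics: the weak law `UWLD F0 G' Φ' h (e/1600) v0 T0` holds for `K'` large. So for large `i` the inequality with `e/2` holds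
for `G' = cfm (bD χ K' (v ζ)) G0`; every large `μ` has an `i` with `|√μ - √i| ≤ √i^(-1/100)`. Finally NNC for `f = rD χ ζ - bD χ K' (v ζ)` (`cfm f G' = cfm (rD χ ζ) G0`), `η → 0`. -/
def BC2D_stmt : Prop := ∀ (d : ℕ) (Γ : Type) [Group Γ] [MulAction Γ (V d)] (K F0 : Set (V d)) (r0 : ℝ) (χ0 : V d → ℝ) (ch : ℝ → ℝ) (Cn : Set (V d) → ℕ → ℝ) (k0 : ℕ) (J : ℕ → ℕ) (p : (k : ℕ) → Fin (J k) → V d) (χ : (k : ℕ) → Fin (J k) → V d → ℝ) (G0 : V d → V d →L[ℝ] V d),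
  2 ≤ d → FdK Γ K → FDX Γ K F0 → PU Γ r0 χ0 → CH ch → FamD Γ K Cn k0 J p χ → IsMetric G0 → Deck Γ G0 → ∀ (h : V d → ℝ) (e : ℝ), TD Γ h → 0 < e →
    ∀ᵐ ζ ∂PN, NegativelyCurved (cfm (rD χ ζ) G0) → ∃ r1 : ℝ, 0 < r1 ∧ ∀ (μ : ℝ) (φ : V d → ℂ), r1 ≤ μ → Eigenfunction Γ (cfm (rD χ ζ) G0) μ φ →
      |(∫ x in F0, h x * ‖φ x‖ ^ 2 ∂mv (cfm (rD χ ζ) G0)) - mean (cfm (rD χ ζ) G0) F0 h * nn (cfm (rD χ ζ) G0) F0 φ| ≤ e * nn (cfm (rD χ ζ) G0) F0 φ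

/-! ## The end -/

/-- **Row FND** (the final statement for one exact fundamental domain; short-medium; compare the file of FNN (VN); from BC2D, FMD, SED, LND, APUE, MVE, VQ rows for the existence of `ch` (`CH`), RPQ.RSM). `u k j x = aN k * χ k j x` for `k0 ≤ k`, `j < J k`, `0` otherwise (`J k = 0` for `k < k0`): `rD χ ζ x = ∑' k, ∑ j ∈ range (J k), ζ (k, j) * u k j x`. For almost every `ζ` the conclusion of BC2D holds for all `S i` (LND) and all `e = 1/(n+1)`.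
Given `h` continuous, invariant: bounded (values on the compact set `K`), `h = a + b h'` with `0 ≤ h' ≤ 1`; `|h' - S i| ≤ ε'`. `mean` and `nn` in terms of `dens`: MVE. -/
def FND_stmt : Prop := ∀ (d : ℕ) (Γ : Type) [Group Γ] [MulAction Γ (V d)] (K F0 : Set (V d)), 2 ≤ d → FdK Γ K → FDX Γ K F0 → ∃ (k0 : ℕ) (J : ℕ → ℕ) (u : ℕ → ℕ → V d → ℝ), (∀ k, k0 ≤ k → 1 ≤ J k) ∧
  (∀ k j, ContDiff ℝ ∞ (u k j) ∧ Inv Γ (u k j) ∧ ∀ x, 0 ≤ u k j x) ∧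
  (∀ L : Set (V d), IsCompact L → ∀ n : ℕ, ∃ c : ℕ → ℝ, Summable c ∧ ∀ (k : ℕ) (ξ : ℕ → ℝ), (∀ j, |ξ j| ≤ 1) → DK L n (fun x => ∑ j ∈ Finset.range (J k), ξ j * u k j x) (c k)) ∧
  (∀ ζ : ℕ × ℕ → ℝ, (∀ q, |ζ q| ≤ 1) → ContDiff ℝ ∞ (fun x => ∑' k, ∑ j ∈ Finset.range (J k), ζ (k, j) * u k j x)) ∧
  ∀ G0 : V d → V d →L[ℝ] V d, IsMetric G0 → Deck Γ G0 → ∀ᵐ ζ ∂PN, NegativelyCurved (cfm (fun x => ∑' k, ∑ j ∈ Finset.range (J k), ζ (k, j) * u k j x) G0) → QUE Γ F0 (cfm (fun x => ∑' k, ∑ j ∈ Finset.range (J k), ζ (k, j) * u k j x) G0)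

/-- **Row FTR** (arbitrary fundamental domains; short-medium; from MVE, AMVI or directly). The measure `mv G` is invariant (`dens G (γ x) |det Dγ(x)| = dens G x`: determinants in `isom`; change of variables), `F` and `F0` are fundamental domains for it (`mv G` and Lebesgue measure have the same null sets): `IsFundamentalDomain.setIntegral_eq`. `Γ` is countable (CTD). -/
def FTR_stmt : Prop := ∀ (d : ℕ) (Γ : Type) [Group Γ] [MulAction Γ (V d)] (K F0 F : Set (V d)) (G : V d → V d →L[ℝ] V d), FdK Γ K → FDX Γ K F0 → IsMetric G →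
  (∀ (γ : Γ) (x u v : V d), ⟪G (γ • x) (fderiv ℝ (fun y : V d => γ • y) x u), fderiv ℝ (fun y : V d => γ • y) x v⟫_ℝ = ⟪G x u, v⟫_ℝ) → IsFundamentalDomain Γ F (volume : Measure (V d)) →
    (∀ g : V d → ℝ, Inv Γ g → ∫ x in F, g x * dens G x = ∫ x in F0, g x * dens G x) ∧ (QUE Γ F0 G → QUE Γ F G)

end

end Pool.Agent.VD
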