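import Pool.Agent.helper11.VD.Spec3e

/-!
# Project VD (MP_07c750_an), block C, part 4: positive probability of small functions; rows `vd:X`

RULES as in Spec3e (`import Pool.Agent.helper11.VD.Spec3f`).
-/

set_option autoImplicit false

open scoped ContDiff Topology InnerProductSpace ENNReal ComplexConjugate
open MeasureTheory Filter Set

namespace Pool.Agent.VD

open Pool.Agent.RPQ (PN PJ UN upd)

noncomputable section

/-- **Row FPS** (arbitrarily small functions have positive probability; short-medium; adaptation of `FNX_gen` in helper38/VQ/FNX.lean; from SRD, RPQ.RSM). The levels `k ≥ K` contribute at most `Σ_(k ≥ K) c k ≤ τ/2` to the derivatives of order `n ≤ n0` on `L` (term by term differentiation: SRD), and the set of the `ζ` with `|ζ (k, j)| ≤ δ` for the finitely many `(k, j)`, `k < K`, `j < J k`, has positive probability (product measure; each coordinate is uniform on `[-1, 1]`). -/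
def FPS_stmt : Prop := ∀ (d : ℕ) (J : ℕ → ℕ) (u : ℕ → ℕ → V d → ℝ), (∀ k j, ContDiff ℝ ∞ (u k j)) →
  (∀ L : Set (V d), IsCompact L → ∀ n : ℕ, ∃ c : ℕ → ℝ, Summable c ∧ ∀ (k : ℕ) (ξ : ℕ → ℝ), (∀ j, |ξ j| ≤ 1) → DK L n (fun x => ∑ j ∈ Finset.range (J k), ξ j * u k j x) (c k)) →
  ∀ P : (ℕ × ℕ → ℝ) → Prop, (∀ᵐ ζ ∂PN, P ζ) → ∀ (L : Set (V d)) (n0 : ℕ) (τ : ℝ), IsCompact L → 0 < τ →
    ∃ ζ : ℕ × ℕ → ℝ, (∀ q, |ζ q| ≤ 1) ∧ P ζ ∧ ∀ n ≤ n0, DK L n (fun x => ∑' k, ∑ j ∈ Finset.range (J k), ζ (k, j) * u k j x) τ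

end

end Pool.Agent.VD
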