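import Pool.Agent.helper11.VD.SpecR
import Pool.Agent.helper74.VD.Defs

/-!
# Project VD (MP_07c750_an), block C, part 2: abstract rows (one word, deterministic part), the index set, the class of metrics; rows `vd:X`

RULES as in SpecR (`import Pool.Agent.helper11.VD.SpecC`).
-/

set_option autoImplicit false

open scoped ContDiff Topology InnerProductSpace ENNReal ComplexConjugate
open MeasureTheory Filter Set

namespace Pool.Agent.VD

open Pool.Agent.RPQ (PN PJ UN upd IsOp nst)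
open Pool.Agent.VQ (PS KZ perZ cmZ stZ wdZ itZ InvS AdZ vz mZ wM inZ phZ qZ rk)
open Pool.Agent.VN (aN)

noncomputable section

/-! ## The deterministic part -/

/-- **Row DTA** (deterministic part, abstract; medium; adaptation of helper98/VN/DTN.lean and helper51/VQ/DTV.lean (its lemmas `DTV_bad`, `DTV_mass` are nearly abstract); from VQ.DTZ, VQ.OWZ, VQ.KSZ, VQ.KPZ, RPQ.KO1, RPQ.KO2). `W` = the energy window, `S` contains the bad part of the window, `N0` = the square of the norm of the eigenfunction,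
`I0` = the integral of the test function. `δ'` small compared with `e` and the `δ0` of DTZ. -/
def DTA_stmt : Prop := ∀ (e : ℝ) (b L n : ℕ), 0 < e → 1 ≤ b → 1 ≤ L → 1 ≤ n → ∃ δ' : ℝ, 0 < δ' ∧ δ' ≤ 1 ∧
  ∀ (Γ : Type) [Group Γ] (Y : Type) [MeasurableSpace Y] [MulAction Γ Y] (m : Measure Y) (D : Set Y) (d : Y → Y → ℝ), PS Γ Y m D d → ∀ (K : Y → Y → ℂ) (Φ : Y → ℂ) (av : Y → ℝ) (W S : Set Y) (N0 mn I0 : ℝ),
    KZ Γ d K → Measurable Φ → Measurable av → MeasurableSet W → MeasurableSet S → InvS Γ S → 0 ≤ N0 → 0 ≤ mn → mn ≤ 1 → (∀ y, 0 ≤ av y ∧ av y ≤ 1) → (∀ y ∈ W, e ≤ |av y - mn| → y ∈ S) →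
    ∫⁻ y in D, ‖Φ y‖ₑ ^ 2 ∂m ≤ ENNReal.ofReal ((1 + δ') * N0) → ENNReal.ofReal ((1 - δ') * N0) ≤ ∫⁻ y in W ∩ D, ‖Φ y‖ₑ ^ 2 ∂m →
    (∀ T : Lp ℂ 2 (m.restrict D) →L[ℂ] Lp ℂ 2 (m.restrict D), IsOp (m.restrict D) (perZ Γ K) T → ‖T‖ ≤ 1 + δ' ∧ ∀ Φ' : Lp ℂ 2 (m.restrict D), (Φ' : Y → ℂ) =ᵐ[m.restrict D] Φ → ‖T Φ' - Φ'‖ ^ 2 ≤ δ' * N0) →
    (∀ l ∈ AdZ b L n, ∫⁻ x in D, ∫⁻ y in D, ‖perZ Γ (wdZ m K S l) x y‖ₑ ^ 2 ∂m ∂m ≤ ENNReal.ofReal (δ' ^ 2)) → |I0 - ∫ y in D, av y * ‖Φ y‖ ^ 2 ∂m| ≤ δ' * N0 →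
      |I0 - mn * N0| ≤ (4 * e + (2 * L + 1) / n) * N0

/-! ## One word -/

/-- **Row WXA** (the second moment of one word, abstract; short-medium; compare helper5/VN/WXN.lean; from VQ.EHZ, VQ.MSZ, VQ.VXZ). EHZ with `M = ‖u‖ₑ`, then MSZ. -/
def WXA_stmt : Prop := ∀ (Γ : Type) [Group Γ] (Y : Type) [MeasurableSpace Y] [MulAction Γ Y] (m : Measure Y) (D : Set Y) (d : Y → Y → ℝ), PS Γ Y m D d → ∀ (J nc b N L n : ℕ) (θ : Fin J → Y → ℝ) (u : Y → Y → ℂ) (S : Set Y) (G : ℕ → Set Y) (l : List ℕ) (c q κ Sx : ENNReal),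
  (∀ a, Measurable (θ a) ∧ ∀ (γ : Γ) y, θ a (γ • y) = θ a y) → KZ Γ d u → MeasurableSet S → InvS Γ S → (∀ x ∈ S, x ∈ G 0) → (∀ (j : ℕ) (x y : Y), x ∈ G j → u x y ≠ 0 → y ∈ G (j + 1)) → (∀ x, ∫⁻ y, ‖u x y‖ₑ ^ 2 ∂m ≤ c) →
  (∀ j ≤ N, ∀ x ∈ G j, qZ m (fun x y => ‖u x y‖ₑ) b (S.indicator (fun _ => 1)) x ≤ c ^ b * q) → 1 ≤ b → 1 ≤ L → l ∈ AdZ b L n → nst l ≤ N → Sx ≠ ⊤ →
  (∀ x y : Y, ∑' γ : Γ, ∫⁻ v, wM (fun x y => ‖u x y‖ₑ) l (vz x (γ • y) v) ∂mZ m (nst l - 1) ≤ Sx) →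
  (∀ (x y : Y) (v : Fin (nst l - 1) → Y), wM (fun x y => ‖u x y‖ₑ) l (vz x y v) ≠ 0 →
    ∑' γ : Γ, mZ m (nst l - 1) {v' | wM (fun x y => ‖u x y‖ₑ) l (vz x (γ • y) v') ≠ 0 ∧ {a : Fin J | 1 ≤ |phZ θ l (vz x y v) a - phZ θ l (vz x (γ • y) v') a|}.ncard < nc} ≤ κ) →
    ∫⁻ ξ, ∫⁻ x in D, ∫⁻ y in D, ‖perZ Γ (wdZ m (stZ (fun y => ∑ a, ξ a * θ a y) u) S l) x y‖ₑ ^ 2 ∂m ∂m ∂PJ J ≤
      κ * (c ^ nst l * q ^ L * m D) + ENNReal.ofReal ((9 / 10) ^ nc) * Sx ^ 2 * m D ^ 2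

/-! ## The index set `YS Γ d = Γ × P d` with the action on the first factor (helper74/VD/Defs.lean) -/

variable {d : ℕ}

/-- the pseudo-distance of a length function -/
def dYS {Γ : Type} [Group Γ] (L : Γ → ℕ) (y y' : YS Γ d) : ℝ := (L (y.1⁻¹ * y'.1) : ℝ)

/-- the measure on the window `W`; `mW Γ G r0 R` is of this form -/
def mWW (Γ : Type) (W : Set (P d)) : Measure (YS Γ d) := (mY Γ d).restrict {y | y.2 ∈ W}

/-- **Row PSY** (the index set is a phase space; medium; measure theory). `YS Γ d = Γ × P d` with the discrete σ-algebra on the first factor (`instMSYS`; `mY = count × volume`, `@Measure.prod Γ (P d) ⊤ _ count volume`). `Γ` is countable. Measurability of a function on `YS` = for every `γ` measurability of `p ↦ f (γ, p)` (`measurable_from_prod_countable` and its kin, with `letI : MeasurableSpace Γ := ⊤`).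
Integrals: `lintegral_prod`, `lintegral_count`; `volume` is σ-finite, `count` on a countable discrete space is σ-finite. `act`: `γ • (κ, p) = (γ κ, p)` is a permutation of the charts. `uniq`: `γ = y.1⁻¹`. `fc`, `vol`: `{L ≤ n}` is finite, `mWW {y' | L (y.1⁻¹ y'.1) ≤ T} = #{γ | L γ ≤ T} volume W`; `L (y.1⁻¹ y'.1) = L (y'.1⁻¹ y.1)` (inverse). -/
def PSY_stmt : Prop := ∀ (d : ℕ) (Γ : Type) [Group Γ] (W : Set (P d)) (L : Γ → ℕ), Countable Γ → MeasurableSet W → volume W < ⊤ → L 1 = 0 → (∀ γ, L γ⁻¹ = L γ) → (∀ γ γ', L (γ * γ') ≤ L γ + L γ') → (∀ n, {γ | L γ ≤ n}.Finite) →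
  PS Γ (YS Γ d) (mWW Γ W) (DT d {1}) (dYS L) ∧
  (∀ (Z : Type) [MeasurableSpace Z] (f : YS Γ d → Z), Measurable f ↔ ∀ γ : Γ, Measurable fun p : P d => f (γ, p)) ∧
  (∀ (Z : Type) [MeasurableSpace Z] (f : YS Γ d → YS Γ d → Z), Measurable (Function.uncurry f) ↔ ∀ γ γ' : Γ, Measurable fun q : P d × P d => f (γ, q.1) (γ', q.2)) ∧
  (∀ f : YS Γ d → ENNReal, Measurable f → ∫⁻ y, f y ∂mWW Γ W = ∑' γ : Γ, ∫⁻ p in W, f (γ, p) ∧ ∫⁻ y in DT d {1}, f y ∂mWW Γ W = ∫⁻ p in W, f (1, p)) ∧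
  (∀ f : YS Γ d → ℝ, Measurable f → ∫ y in DT d {1}, f y ∂mWW Γ W = ∫ p in W, f (1, p)) ∧ mWW Γ W (DT d ({1} : Set Γ)) = volume W

/-- **Row SBY** (crude bound for the chains; short-medium; from PSY (measurability), VQ.VXZ). Induction on the length of the chain with VXZ: `∫ over v ∈ Y^(n+1) = ∫ over v 0, ∫ over the rest`. A nonzero product `∏ u (w j) (w (j+1))` forces `(w j).1⁻¹ (w (j+1)).1 ∈ S0` for all `j`: so `x.1⁻¹ γ y.1` is a product of `nst l` elements of `S0` (at most `card ^ nst l` values of `γ`), and every inner vertex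
lies in a set of measure `≤ card * volume W` once the one before is given. -/
def SBY_stmt : Prop := ∀ (d : ℕ) (Γ : Type) [Group Γ] (W : Set (P d)) (u : YS Γ d → YS Γ d → ENNReal) (S0 : Finset Γ) (Bu : ENNReal) (l : List ℕ), Countable Γ → MeasurableSet W → Measurable (Function.uncurry u) →
  (∀ y y', u y y' ≠ 0 → y.1⁻¹ * y'.1 ∈ S0) → (∀ y y', u y y' ≤ Bu) → l ≠ [] →
  ∀ x y : YS Γ d, ∑' γ : Γ, ∫⁻ v, wM u l (vz x (γ • y) v) ∂mZ (mWW Γ W) (nst l - 1) ≤ (S0.card : ENNReal) ^ nst l * Bu ^ nst l * ((S0.card : ENNReal) * volume W) ^ (nst l - 1)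

/-- **Row FDE** (exact fundamental domains; short-medium). `F0 = {x ∈ K | ∀ γ, γ • x ∈ K → x ≤ γ • x}` for the lexicographic order of the coordinates: the orbit of `x` meets `K` in a finite nonempty set (`cover`; `proper` for the compact set `{x} ∪ K`), so there is exactly one minimal point; `γ • x = γ' • x` gives `γ = γ'` (`free`). Measurable: countable intersection (CTD), `{(x, y) | x ≤ y lexicographically}` is measurable
(finite union of sets given by coordinates; define it by hand: `x = y ∨ ∃ i, (∀ j < i, x j = y j) ∧ x i < y i`). -/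
def FDE_stmt : Prop := ∀ (d : ℕ) (Γ : Type) [Group Γ] [MulAction Γ (V d)] (K : Set (V d)), FdK Γ K → ∃ F0 : Set (V d), MeasurableSet F0 ∧ F0 ⊆ K ∧ ∀ x : V d, ∃! γ : Γ, γ • x ∈ F0

/-! ## The class of metrics -/

/-- the metric `e^f g` -/
def cfm (f : V d → ℝ) (G : V d → V d →L[ℝ] V d) (x : V d) : V d →L[ℝ] V d := Real.exp (f x) • G x

/-- **Row RSY** (symmetries of the curvature tensor; medium; classical). (1) immediate from the definition (`Chr` is bilinear and symmetric in `u, v`: the second derivative terms of `Riem G x u v w` change sign). (2) `R(u, v)` is skew for `g`: with `g(C(u, w), w') + g(w, C(u, w')) = D_u g (w, w')` (Koszul: `2 g(C(u,w),w') = D_u g(w,w') + D_w g(u,w') - D_(w') g(u,w)`),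
differentiate `g(C(v, w), w) = D_v g(w, w)/2` in the direction `u`: `D_u g (C(v,w), w) + g(D_u C(v, w), w) = D_u D_v g(w, w)/2`, and `D_u g(C(v,w), w) = g(C(u, C(v, w)), w) + g(C(v, w), C(u, w))`; antisymmetrise in `u, v` (the second derivatives of `g` are symmetric). `g(u, v) = ⟪G x u, v⟫`; the inverse is `ContinuousLinearMap.inverse` of an invertible map
(finite dimension, positive definite). -/
def RSY_stmt : Prop := ∀ (d : ℕ) (G : V d → V d →L[ℝ] V d), IsMetric G → (∀ x u v, Chr G x u v = Chr G x v u) ∧ (∀ x u v w, Riem G x u v w = -Riem G x v u w) ∧ (∀ x u v w w', ⟪G x (Riem G x u v w), w'⟫_ℝ = -⟪G x (Riem G x u v w'), w⟫_ℝ) ∧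
  ∀ x (a b : ℝ) u u' v w, Riem G x (a • u + b • u') v w = a • Riem G x u v w + b • Riem G x u' v w

/-- **Row RCN** (the curvature depends continuously on the 2-jet of the metric; medium; PURE). All expressions are polynomials in `G x`, `(G x).inverse`, `fderiv G x`, `fderiv (fderiv G) x`; `D (G⁻¹) = - G⁻¹ (D G) G⁻¹`; `‖G⁻¹ - G'⁻¹‖ ≤ M² s`. -/
def RCN_stmt : Prop := ∀ (d : ℕ) (M : ℝ), 1 ≤ M → ∃ C : ℝ, 1 ≤ C ∧ ∀ (G G' : V d → V d →L[ℝ] V d) (x : V d) (s : ℝ), IsMetric G → IsMetric G' → 0 ≤ s → (∀ n ≤ 2, ‖iteratedFDeriv ℝ n G x‖ ≤ M ∧ ‖iteratedFDeriv ℝ n G' x‖ ≤ M) → ‖(G x).inverse‖ ≤ M → ‖(G' x).inverse‖ ≤ M →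
  (∀ n ≤ 2, ‖iteratedFDeriv ℝ n (fun y => G y - G' y) x‖ ≤ s) → ∀ u v : V d, |⟪G x (Riem G x u v v), u⟫_ℝ - ⟪G' x (Riem G' x u v v), u⟫_ℝ| ≤ C * s * ‖u‖ ^ 2 * ‖v‖ ^ 2 ∧ |⟪G x (Riem G x u v v), u⟫_ℝ| ≤ C * ‖u‖ ^ 2 * ‖v‖ ^ 2

/-- **Row CFC** (conformal metrics: bounds and closeness; medium; PURE). `cfm f G` is a metric; derivatives by Leibniz (`norm_iteratedFDeriv_smul_le`) and the chain rule for `exp` (`norm_iteratedFDeriv_comp_le`); `e^f - e^f' = e^f' (e^(f - f') - 1)`. -/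
def CFC_stmt : Prop := ∀ (d : ℕ), (∀ (f : V d → ℝ) (G : V d → V d →L[ℝ] V d), ContDiff ℝ ∞ f → IsMetric G → IsMetric (cfm f G)) ∧
  (∀ (n : ℕ) (M : ℝ), 1 ≤ M → ∃ C : ℝ, 1 ≤ C ∧ ∀ (f f' : V d → ℝ) (G : V d → V d →L[ℝ] V d) (x : V d) (s : ℝ), ContDiff ℝ ∞ f → ContDiff ℝ ∞ f' → IsMetric G → 0 ≤ s → s ≤ 1 → (∀ i ≤ n, ‖iteratedFDeriv ℝ i f x‖ ≤ M ∧ ‖iteratedFDeriv ℝ i f' x‖ ≤ M ∧ ‖iteratedFDeriv ℝ i G x‖ ≤ M) →
    ‖iteratedFDeriv ℝ n (cfm f G) x‖ ≤ C ∧ ((∀ i ≤ n, ‖iteratedFDeriv ℝ i (fun y => f y - f' y) x‖ ≤ s) → ‖iteratedFDeriv ℝ n (fun y => cfm f G y - cfm f' G y) x‖ ≤ C * s))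

/-- **Row POD** (negatively curved metrics are in the class, with their neighbours; medium; from RSY, RCN, CFC). `B m n` = bounds of the derivatives of `cfm f' G0` on `‖x‖ ≤ m` (CFC, the derivatives of `G0` are bounded on balls), and for `n = 0` also `≥` the bound of the inverse (`‖u‖² ≤ B m 0 ⟪cfm f' G0 x u, u⟫`: `G0` is positive definite and continuous on the compact ball, `e^(f') ≥ e^(-b m 0)`).
Curvature: on the compact set of the `(x, u, v)` with `x ∈ K`, `‖u‖ = ‖v‖ = 1`, `⟪cfm f G0 x u, v⟫ = 0` the continuous function `⟪G (Riem G x u v v), u⟫` is negative (`u, v` are independent, the Gram determinant is positive): `≤ -c0`. So `⟪G R(u,v)v, u⟫ ≤ -c0 ‖u‖² ‖v‖²` for all `u ⊥ v`; for the nearby metrics `G' = cfm f' G0` (RCN, CFC): let `u ⊥' v` for `G'`; `u = u1 + a v`, `u1 ⊥ v` for `G`, `|a| ≤ C s`;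
so `⟪G' R'(u,v)v,u⟫ ≤ -c0/2 ‖u‖²‖v‖² ≤ -k (Gram')` with `1/q = k ≤ c0/(2 B²)`. For arbitrary `u`: `u = u' + a v`, `u' ⊥' v`: by RSY `⟪G' R'(u,v)v,u⟫ = ⟪G' R'(u',v)v,u'⟫` and the Gram determinants agree. (`d = 0, 1`: the compact set is empty, both sides are `0`.) -/
def POD_stmt : Prop := ∀ (d : ℕ) (Γ : Type) [Group Γ] [MulAction Γ (V d)] (K : Set (V d)) (G0 : V d → V d →L[ℝ] V d) (b : ℕ → ℕ → ℝ), FdK Γ K → Deck Γ G0 → IsMetric G0 → ∃ B : ℕ → ℕ → ℝ,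
  ∀ f : V d → ℝ, ContDiff ℝ ∞ f → Inv Γ f → (∀ (m n : ℕ) (x : V d), ‖x‖ ≤ m → ‖iteratedFDeriv ℝ n f x‖ ≤ b m n) → NegativelyCurved (cfm f G0) → ∃ (q : ℕ) (s : ℝ), 1 ≤ q ∧ 0 < s ∧
    ∀ f' : V d → ℝ, ContDiff ℝ ∞ f' → Inv Γ f' → (∀ (m n : ℕ) (x : V d), ‖x‖ ≤ m → ‖iteratedFDeriv ℝ n f' x‖ ≤ b m n) → (∀ n ≤ 2, DK K n (fun x => f x - f' x) s) → Cls Γ K (1 / q) B (cfm f' G0)

/-- **Row NAT** (naturality of the curvature under the isometries of `Γ`; medium-long; classical; used by block G of helper80). `T = fderiv ℝ (γ • ·) x` is invertible (the inverse map is `γ⁻¹`), `⟪G (γ y) (Dγ(y) u), Dγ(y) v⟫ = ⟪G y u, v⟫` for all `y` (`Deck.isom`); differentiate: `C_(γ x)(T u, T v) = T C_x(u, v) - D²γ(x)(u, v)`;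
differentiate once more and antisymmetrise: `Riem G (γ x) (T u) (T v) (T w) = T (Riem G x u v w)`. -/
def NAT_stmt : Prop := ∀ (d : ℕ) (Γ : Type) [Group Γ] [MulAction Γ (V d)] (G : V d → V d →L[ℝ] V d), IsMetric G → Deck Γ G → ∀ (γ : Γ) (x u v w : V d),
  Riem G (γ • x) (fderiv ℝ (fun y : V d => γ • y) x u) (fderiv ℝ (fun y : V d => γ • y) x v) (fderiv ℝ (fun y : V d => γ • y) x w) = fderiv ℝ (fun y : V d => γ • y) x (Riem G x u v w)

/-- **Row NGD** (negative curvature is an open condition; medium; from RSY, RCN, CFC, NAT; the same compactness argument as in POD on `K`, then NAT and `Deck.isom` for the points outside `K`; `cfm f G0` is invariant as `f` is). -/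
def NGD_stmt : Prop := ∀ (d : ℕ) (Γ : Type) [Group Γ] [MulAction Γ (V d)] (K : Set (V d)) (G0 : V d → V d →L[ℝ] V d), FdK Γ K → Deck Γ G0 → IsMetric G0 → NegativelyCurved G0 → ∃ s : ℝ, 0 < s ∧
  ∀ f : V d → ℝ, ContDiff ℝ ∞ f → Inv Γ f → (∀ n ≤ 2, DK K n f s) → NegativelyCurved (cfm f G0)

/-- **Row CVX** (a convex compact set; short). From a compact set with `Γ K = ℝ^d` (`Deck.cocompact`): its closed convex hull (`IsCompact.convexHull` in finite dimension). -/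
def CVX_stmt : Prop := ∀ (d : ℕ) (Γ : Type) [Group Γ] [MulAction Γ (V d)] (G : V d → V d →L[ℝ] V d), Deck Γ G → ∃ K : Set (V d), FdK Γ K

end

end Pool.Agent.VD
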